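import Pool.Agent.H9x.SO.Main

/-! Arithmetical definability -/

set_option autoImplicit false

namespace Pool.Agent.H9x.SO

open Function Encodable

@[simp] theorem Fm.freeS_mem (t : Tm) (X Y : ℕ) : (Fm.mem t X).FreeS Y ↔ X = Y := Iff.rfl
@[simp] theorem Fm.freeS_eq (s t : Tm) (Y : ℕ) : (Fm.eq s t).FreeS Y ↔ False := Iff.rfl
@[simp] theorem Fm.freeS_lt (s t : Tm) (Y : ℕ) : (Fm.lt s t).FreeS Y ↔ False := Iff.rfl
@[simp] theorem Fm.free_mem (t : Tm) (X x : ℕ) : (Fm.mem t X).Free x ↔ t.Occ x := Iff.rfl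
@[simp] theorem Fm.free_eq (s t : Tm) (x : ℕ) : (Fm.eq s t).Free x ↔ s.Occ x ∨ t.Occ x := Iff.rfl
@[simp] theorem Fm.free_lt (s t : Tm) (x : ℕ) : (Fm.lt s t).Free x ↔ s.Occ x ∨ t.Occ x := Iff.rfl
@[simp] theorem Tm.occ_var (x y : ℕ) : (Tm.var y).Occ x ↔ y = x := Iff.rfl
@[simp] theorem Tm.occ_zero (x : ℕ) : Tm.zero.Occ x ↔ False := Iff.rfl
@[simp] theorem Tm.occ_one (x : ℕ) : Tm.one.Occ x ↔ False := Iff.rfl
@[simp] theorem Tm.occ_add (s t : Tm) (x : ℕ) : (Tm.add s t).Occ x ↔ s.Occ x ∨ t.Occ x := Iff.rfl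
@[simp] theorem Tm.occ_mul (s t : Tm) (x : ℕ) : (Tm.mul s t).Occ x ↔ s.Occ x ∨ t.Occ x := Iff.rfl
@[simp] theorem Tm.val_var (x : ℕ) (e : ℕ → ℕ) : (Tm.var x).val e = e x := rfl
@[simp] theorem Tm.val_zero (e : ℕ → ℕ) : Tm.zero.val e = 0 := rfl
@[simp] theorem Tm.val_one (e : ℕ → ℕ) : Tm.one.val e = 1 := rfl
@[simp] theorem Tm.val_add (s t : Tm) (e : ℕ → ℕ) : (Tm.add s t).val e = s.val e + t.val e := rfl
@[simp] theorem Tm.val_mul (s t : Tm) (e : ℕ → ℕ) : (Tm.mul s t).val e = s.val e * t.val e := rfl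
@[simp] theorem Fm.arith_eq (s t : Tm) : (Fm.eq s t).Arith ↔ _root_.True := Iff.rfl
@[simp] theorem Fm.arith_lt (s t : Tm) : (Fm.lt s t).Arith ↔ _root_.True := Iff.rfl
@[simp] theorem Fm.arith_mem (s : Tm) (X : ℕ) : (Fm.mem s X).Arith ↔ _root_.True := Iff.rfl
@[simp] theorem Fm.holds_bot (e : ℕ → ℕ) (E : ℕ → Set ℕ) : Fm.bot.Holds e E ↔ False := Iff.rfl

/-- `u` is the pair of `s` and `t` -/
def pairF (s t u : Tm) : Fm :=
  .or (.and (.lt s t) (.eq u (.add (.mul t t) s)))
    (.and (.neg (.lt s t)) (.eq u (.add (.add (.mul s s) s) t)))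

theorem holds_pairF (s t u : Tm) (e : ℕ → ℕ) (E : ℕ → Set ℕ) :
    (pairF s t u).Holds e E ↔ u.val e = Nat.pair (s.val e) (t.val e) := by
  simp only [pairF, Fm.holds_or, Fm.holds_and, Fm.holds_lt, Fm.holds_eq, Tm.val_add, Tm.val_mul,
    Fm.holds_neg, Nat.pair]
  split_ifs with h <;> simp [h]

theorem free_pairF (s t u : Tm) (x : ℕ) :
    (pairF s t u).Free x ↔ s.Occ x ∨ t.Occ x ∨ u.Occ x := by
  simp only [pairF, Fm.free_or, Fm.free_and, Fm.free_neg, Fm.free_lt, Fm.free_eq, Tm.occ_add,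
    Tm.occ_mul]
  tauto

theorem freeS_pairF (s t u : Tm) (x : ℕ) : ¬ (pairF s t u).FreeS x := by
  simp [pairF]

theorem arith_pairF (s t u : Tm) : (pairF s t u).Arith := by simp [pairF]

/-- `v = β(s, i)` where `s` is the variable `s`, using the bound variables `0`, `1`, and the auxiliary
bound variable `q`; `i` and `v` are terms that do not contain `0`, `1`, `q` -/
def betaF (s : ℕ) (q : ℕ) (i v : Tm) : Fm :=
  .ex 0 (.ex 1 (.and (pairF (.var 0) (.var 1) (.var s))
    (.ex q (.and (.eq (.var 0) (.add (.mul (.var q) (.add (.mul (.add i .one) (.var 1)) .one)) v))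
      (.lt v (.add (.mul (.add i .one) (.var 1)) .one))))))

theorem val_update_of_not_occ {t : Tm} {x : ℕ} (h : ¬ t.Occ x) (e : ℕ → ℕ) (n : ℕ) :
    t.val (update e x n) = t.val e :=
  Tm.val_congr t fun y hy => update_of_ne (by rintro rfl; exact h hy) _ _

theorem holds_betaF {s q : ℕ} {i v : Tm} (hs0 : s ≠ 0) (hs1 : s ≠ 1) (hq0 : q ≠ 0) (hq1 : q ≠ 1)
    (hi0 : ¬ i.Occ 0) (hi1 : ¬ i.Occ 1) (hiq : ¬ i.Occ q)
    (hv0 : ¬ v.Occ 0) (hv1 : ¬ v.Occ 1) (hvq : ¬ v.Occ q) (e : ℕ → ℕ) (E : ℕ → Set ℕ) :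
    (betaF s q i v).Holds e E ↔ v.val e = Nat.beta (e s) (i.val e) := by
  simp only [betaF, Fm.holds_ex, Fm.holds_and, holds_pairF, Fm.holds_eq, Fm.holds_lt, Tm.val_var,
    Tm.val_add, Tm.val_mul, Tm.val_one, val_update_of_not_occ hi0, val_update_of_not_occ hi1,
    val_update_of_not_occ hiq, val_update_of_not_occ hv0, val_update_of_not_occ hv1,
    val_update_of_not_occ hvq, update_self, update_of_ne hs0, update_of_ne hs1,
    update_of_ne (Ne.symm hq0), update_of_ne (Ne.symm hq1), update_of_ne (zero_ne_one' ℕ),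
    Nat.beta]
  constructor
  · rintro ⟨a, b, hab, c, h1, h2⟩
    have : (e s).unpair = (a, b) := by rw [hab, Nat.unpair_pair]
    rw [this]
    simp only
    rw [h1]
    rw [Nat.add_comm, Nat.add_mul_mod_self_right, Nat.mod_eq_of_lt h2]
  · intro h
    refine ⟨(e s).unpair.1, (e s).unpair.2, (Nat.pair_unpair _).symm, 
      (e s).unpair.1 / ((i.val e + 1) * (e s).unpair.2 + 1), ?_, ?_⟩
    · rw [h]
      exact (Nat.div_add_mod' _ _).symm
    · rw [h]
      exact Nat.mod_lt _ (Nat.succ_pos _)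

theorem free_betaF {s q : ℕ} {i v : Tm} (x : ℕ) (h : (betaF s q i v).Free x) :
    x = s ∨ i.Occ x ∨ v.Occ x := by
  simp only [betaF, Fm.free_ex, Fm.free_and, free_pairF, Fm.free_eq, Fm.free_lt, Tm.occ_add,
    Tm.occ_mul, Tm.occ_var, Tm.occ_one] at h
  tauto

theorem freeS_betaF {s q : ℕ} {i v : Tm} (x : ℕ) : ¬ (betaF s q i v).FreeS x := by
  simp [betaF, freeS_pairF]

theorem arith_betaF {s q : ℕ} {i v : Tm} : (betaF s q i v).Arith := by
  simp [betaF, arith_pairF]

/-- the formula with the variables `0`, `1` replaced by `i`, `j` -/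
def at2 (G : Fm) (i j : ℕ) : Fm :=
  .ex 0 (.ex 1 (.and (.eq (.var 0) (.var i)) (.and (.eq (.var 1) (.var j)) G)))

def at1 (G : Fm) (i : ℕ) : Fm := .ex 0 (.and (.eq (.var 0) (.var i)) G)

theorem holds_at2 {G : Fm} {i j : ℕ} (hi0 : i ≠ 0) (hi1 : i ≠ 1) (hj0 : j ≠ 0) (hj1 : j ≠ 1)
    (e : ℕ → ℕ) (E : ℕ → Set ℕ) :
    (at2 G i j).Holds e E ↔ G.Holds (update (update e 0 (e i)) 1 (e j)) E := by
  simp only [at2, Fm.holds_ex, Fm.holds_and, Fm.holds_eq, Tm.val_var, update_self,
    update_of_ne hi0, update_of_ne hi1, update_of_ne hj0, update_of_ne hj1,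
    update_of_ne (zero_ne_one' ℕ)]
  constructor
  · rintro ⟨a, b, rfl, rfl, h⟩; exact h
  · intro h; exact ⟨_, _, rfl, rfl, h⟩

theorem free_at2 {G : Fm} {i j : ℕ} (hG : ∀ x, G.Free x → x = 0 ∨ x = 1) (x : ℕ)
    (h : (at2 G i j).Free x) : x = i ∨ x = j := by
  simp only [at2, Fm.free_ex, Fm.free_and, Fm.free_eq, Tm.occ_var] at h
  obtain ⟨h0, h1, h⟩ := h
  rcases h with (h | h) | (h | h) | h
  · exact absurd h h0
  · exact Or.inl h.symm
  · exact absurd h h1
  · exact Or.inr h.symm
  · rcases hG x h with h | h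
    · exact absurd h.symm h0
    · exact absurd h.symm h1

theorem freeS_at2 {G : Fm} {i j X : ℕ} (h : (at2 G i j).FreeS X) : G.FreeS X := by
  simpa [at2] using h

theorem holds_at1 {G : Fm} {i : ℕ} (hi0 : i ≠ 0) (e : ℕ → ℕ) (E : ℕ → Set ℕ) :
    (at1 G i).Holds e E ↔ G.Holds (update e 0 (e i)) E := by
  simp only [at1, Fm.holds_ex, Fm.holds_and, Fm.holds_eq, Tm.val_var, update_self,
    update_of_ne hi0]
  constructor
  · rintro ⟨a, rfl, h⟩; exact h
  · intro h; exact ⟨_, rfl, h⟩

theorem free_at1 {G : Fm} {i : ℕ} (hG : ∀ x, G.Free x → x = 0) (x : ℕ)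
    (h : (at1 G i).Free x) : x = i := by
  simp only [at1, Fm.free_ex, Fm.free_and, Fm.free_eq, Tm.occ_var] at h
  obtain ⟨h0, h⟩ := h
  rcases h with (h | h) | h
  · exact absurd h h0
  · exact h.symm
  · exact absurd (hG x h).symm h0

theorem freeS_at1 {G : Fm} {i X : ℕ} (h : (at1 G i).FreeS X) : G.FreeS X := by
  simpa [at1] using h

/-- the graph of `f` is arithmetical -/
def Gr (f : ℕ → ℕ) : Prop := ∃ G : Fm, G.Arith ∧ (∀ x, G.Free x → x = 0 ∨ x = 1) ∧
  (∀ X, ¬ G.FreeS X) ∧ ∀ e E, G.Holds e E ↔ e 1 = f (e 0)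

theorem exists_seq (f : ℕ → ℕ) (n : ℕ) : ∃ s, ∀ i ≤ n, Nat.beta s i = f i := by
  refine ⟨Nat.unbeta ((List.range (n + 1)).map f), fun i hi => ?_⟩
  have h := Nat.beta_unbeta_coe ((List.range (n + 1)).map f) ⟨i, by simp; omega⟩
  simpa using h

theorem gr_of_primrec {f : ℕ → ℕ} (hf : Nat.Primrec f) : Gr f := by
  induction hf with
  | zero =>
    refine ⟨.eq (.var 1) .zero, trivial, ?_, by simp, by simp⟩
    intro x; simp; omega
  | succ =>
    refine ⟨.eq (.var 1) (.add (.var 0) .one), trivial, ?_, by simp, by simp⟩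
    intro x; simp; omega
  | left =>
    refine ⟨.ex 2 (pairF (.var 1) (.var 2) (.var 0)), by simp [arith_pairF], ?_,
      by simp [freeS_pairF], ?_⟩
    · intro x
      simp only [Fm.free_ex, free_pairF, Tm.occ_var]
      omega
    · intro e E
      simp only [Fm.holds_ex, holds_pairF, Tm.val_var, update_self,
        update_of_ne (show (0 : ℕ) ≠ 2 by norm_num), update_of_ne (show (1 : ℕ) ≠ 2 by norm_num)]
      constructor
      · rintro ⟨n, h⟩; rw [h, Nat.unpair_pair]
      · intro h; exact ⟨(e 0).unpair.2, by rw [h, Nat.pair_unpair]⟩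
  | right =>
    refine ⟨.ex 2 (pairF (.var 2) (.var 1) (.var 0)), by simp [arith_pairF], ?_,
      by simp [freeS_pairF], ?_⟩
    · intro x
      simp only [Fm.free_ex, free_pairF, Tm.occ_var]
      omega
    · intro e E
      simp only [Fm.holds_ex, holds_pairF, Tm.val_var, update_self,
        update_of_ne (show (0 : ℕ) ≠ 2 by norm_num), update_of_ne (show (1 : ℕ) ≠ 2 by norm_num)]
      constructor
      · rintro ⟨n, h⟩; rw [h, Nat.unpair_pair]
      · intro h; exact ⟨(e 0).unpair.1, by rw [h, Nat.pair_unpair]⟩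
  | @pair f g _ _ ihf ihg =>
    obtain ⟨F, aF, fF, sF, hF⟩ := ihf
    obtain ⟨G, aG, fG, sG, hG⟩ := ihg
    refine ⟨.ex 2 (.ex 3 (.ex 4 (.ex 5 (.and (.eq (.var 4) (.var 0)) (.and (.eq (.var 5) (.var 1))
      (.and (at2 F 4 2) (.and (at2 G 4 3) (pairF (.var 2) (.var 3) (.var 5))))))))), ?_, ?_, ?_, ?_⟩
    · simp [arith_pairF, at2, aF, aG]
    · intro x
      simp only [Fm.free_ex, Fm.free_and, free_pairF, Tm.occ_var, Fm.free_eq]
      rintro ⟨h2, h3, h4, h5, (h | h) | (h | h) | h | h | h⟩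
      · exact absurd h h4
      · exact Or.inl h.symm
      · exact absurd h h5
      · exact Or.inr h.symm
      · rcases free_at2 fF x h with h | h
        · exact absurd h.symm h4
        · exact absurd h.symm h2
      · rcases free_at2 fG x h with h | h
        · exact absurd h.symm h4
        · exact absurd h.symm h3
      · omega
    · intro X
      simp only [Fm.freeS_ex, Fm.freeS_and, Fm.freeS_eq, not_or, not_false_eq_true, true_and]
      exact ⟨fun h => sF X (freeS_at2 h), fun h => sG X (freeS_at2 h), freeS_pairF _ _ _ _⟩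
    · intro e E
      simp only [Fm.holds_ex, Fm.holds_and, Fm.holds_eq, holds_at2 (show (4 : ℕ) ≠ 0 by norm_num)
        (show (4 : ℕ) ≠ 1 by norm_num) (show (2 : ℕ) ≠ 0 by norm_num) (show (2 : ℕ) ≠ 1 by norm_num),
        holds_at2 (show (4 : ℕ) ≠ 0 by norm_num)
        (show (4 : ℕ) ≠ 1 by norm_num) (show (3 : ℕ) ≠ 0 by norm_num) (show (3 : ℕ) ≠ 1 by norm_num),
        holds_pairF, hF, hG, Tm.val_var]
      simp [Function.update]
  | @comp f g _ _ ihf ihg =>
    obtain ⟨F, aF, fF, sF, hF⟩ := ihf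
    obtain ⟨G, aG, fG, sG, hG⟩ := ihg
    refine ⟨.ex 2 (.ex 4 (.ex 5 (.and (.eq (.var 4) (.var 0)) (.and (.eq (.var 5) (.var 1))
      (.and (at2 G 4 2) (at2 F 2 5)))))), ?_, ?_, ?_, ?_⟩
    · simp [at2, aF, aG]
    · intro x
      simp only [Fm.free_ex, Fm.free_and, Tm.occ_var, Fm.free_eq]
      rintro ⟨h2, h4, h5, (h | h) | (h | h) | h | h⟩
      · exact absurd h h4
      · exact Or.inl h.symm
      · exact absurd h h5
      · exact Or.inr h.symm
      · rcases free_at2 fG x h with h | h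
        · exact absurd h.symm h4
        · exact absurd h.symm h2
      · rcases free_at2 fF x h with h | h
        · exact absurd h.symm h2
        · exact absurd h.symm h5
    · intro X
      simp only [Fm.freeS_ex, Fm.freeS_and, Fm.freeS_eq, not_or, not_false_eq_true, true_and]
      exact ⟨fun h => sG X (freeS_at2 h), fun h => sF X (freeS_at2 h)⟩
    · intro e E
      simp only [Fm.holds_ex, Fm.holds_and, Fm.holds_eq, holds_at2 (show (4 : ℕ) ≠ 0 by norm_num)
        (show (4 : ℕ) ≠ 1 by norm_num) (show (2 : ℕ) ≠ 0 by norm_num) (show (2 : ℕ) ≠ 1 by norm_num),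
        holds_at2 (show (2 : ℕ) ≠ 0 by norm_num)
        (show (2 : ℕ) ≠ 1 by norm_num) (show (5 : ℕ) ≠ 0 by norm_num) (show (5 : ℕ) ≠ 1 by norm_num),
        hF, hG, Tm.val_var]
      simp [Function.update]
  | @prec f g _ _ ihf ihg =>
    obtain ⟨F, aF, fF, sF, hF⟩ := ihf
    obtain ⟨G, aG, fG, sG, hG⟩ := ihg
    -- variables: 2 = z, 3 = n, 4 = input, 5 = output, 6 = sequence, 7 = i, 8 = v, 9 = w,
    -- 10, 11 auxiliary, 12 for the quotient
    refine ⟨.ex 2 (.ex 3 (.ex 4 (.ex 5 (.ex 6 (.and (.eq (.var 4) (.var 0))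
      (.and (.eq (.var 5) (.var 1)) (.and (pairF (.var 2) (.var 3) (.var 4))
      (.and (.ex 8 (.and (betaF 6 12 .zero (.var 8)) (at2 F 2 8)))
      (.and (.all 7 (.imp (.lt (.var 7) (.var 3)) (.ex 8 (.ex 9 (.ex 10 (.ex 11
        (.and (betaF 6 12 (.var 7) (.var 8)) (.and (betaF 6 12 (.add (.var 7) .one) (.var 9))
        (.and (pairF (.var 7) (.var 8) (.var 10)) (.and (pairF (.var 2) (.var 10) (.var 11))
        (at2 G 11 9))))))))))) (betaF 6 12 (.var 3) (.var 5))))))))))), ?_, ?_, ?_, ?_⟩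
    · simp [at2, aF, aG, arith_pairF, arith_betaF]
    · intro x
      simp only [Fm.free_ex, Fm.free_and, Tm.occ_var, Fm.free_eq, Fm.free_all, Fm.free_imp,
        Fm.free_lt, free_pairF]
      rintro ⟨h2, h3, h4, h5, h6, (h | h) | (h | h) | h | ⟨h8, h | h⟩ |
        ⟨h7, h | ⟨h8, h9, h10, h11, h | h | h | h | h⟩⟩ | h⟩
      · exact absurd h h4
      · exact Or.inl h.symm
      · exact absurd h h5
      · exact Or.inr h.symm
      · omega
      · have := free_betaF x h
        simp only [Tm.occ_var, Tm.occ_zero, false_or] at this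
        omega
      · have := free_at2 fF x h
        omega
      · omega
      · have := free_betaF x h
        simp only [Tm.occ_var] at this
        omega
      · have := free_betaF x h
        simp only [Tm.occ_var, Tm.occ_add, Tm.occ_one, or_false] at this
        omega
      · omega
      · omega
      · have := free_at2 fG x h
        omega
      · have := free_betaF x h
        simp only [Tm.occ_var] at this
        omega
    · intro X
      simp only [Fm.freeS_ex, Fm.freeS_and, Fm.freeS_eq, Fm.freeS_all, Fm.freeS_imp, Fm.freeS_lt,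
        freeS_pairF, freeS_betaF, false_or, or_false]
      rintro (h | h)
      · exact sF X (freeS_at2 h)
      · exact sG X (freeS_at2 h)
    · intro e E
      have hb : ∀ (i v : Tm) (e : ℕ → ℕ), (¬ i.Occ 0) → (¬ i.Occ 1) → (¬ i.Occ 12) →
          (¬ v.Occ 0) → (¬ v.Occ 1) → (¬ v.Occ 12) →
          ((betaF 6 12 i v).Holds e E ↔ v.val e = Nat.beta (e 6) (i.val e)) :=
        fun i v e a b c d f g => holds_betaF (by norm_num) (by norm_num) (by norm_num)
          (by norm_num) a b c d f g e E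
      simp only [Fm.holds_ex, Fm.holds_and, Fm.holds_eq, Fm.holds_all, Fm.holds_imp, Fm.holds_lt,
        holds_pairF,
        holds_at2 (show (2 : ℕ) ≠ 0 by norm_num)
        (show (2 : ℕ) ≠ 1 by norm_num) (show (8 : ℕ) ≠ 0 by norm_num) (show (8 : ℕ) ≠ 1 by norm_num),
        holds_at2 (show (11 : ℕ) ≠ 0 by norm_num)
        (show (11 : ℕ) ≠ 1 by norm_num) (show (9 : ℕ) ≠ 0 by norm_num) (show (9 : ℕ) ≠ 1 by norm_num),
        hF, hG, Tm.val_var,
        hb .zero (.var 8) _ (by simp) (by simp) (by simp) (by simp) (by simp) (by simp),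
        hb (.var 7) (.var 8) _ (by simp) (by simp) (by simp) (by simp) (by simp) (by simp),
        hb (.add (.var 7) .one) (.var 9) _ (by simp) (by simp) (by simp) (by simp) (by simp)
          (by simp),
        hb (.var 3) (.var 5) _ (by simp) (by simp) (by simp) (by simp) (by simp) (by simp)]
      simp only [Function.update, Tm.val_zero, Tm.val_add, Tm.val_var, Tm.val_one]
      norm_num
      set H : ℕ → ℕ → ℕ := fun z n => n.rec (f z) fun y IH => g (Nat.pair z (Nat.pair y IH))
        with hH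
      constructor
      · rintro ⟨z, n, h3, s, h5, h6, h7⟩
        rw [h3, Nat.unpair_pair]
        have key : ∀ k ≤ n, Nat.beta s k = H z k := by
          intro k
          induction k with
          | zero => intro _; exact h5
          | succ k ih =>
            intro hk
            rw [h6 k (by omega), ih (by omega)]
        rw [h7, key n le_rfl]
      · intro h
        obtain ⟨s, hs⟩ := exists_seq (H (e 0).unpair.1) (e 0).unpair.2
        refine ⟨(e 0).unpair.1, (e 0).unpair.2, (Nat.pair_unpair _).symm, s, ?_, ?_, ?_⟩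
        · exact hs 0 (Nat.zero_le _)
        · intro k hk
          rw [hs (k + 1) (by omega), hs k (by omega)]
        · rw [hs _ le_rfl]; exact h

/-- Types all of whose numbers are codes. -/
class Full (α : Type) [Primcodable α] : Prop where
  surj : Function.Surjective (encode : α → ℕ)

instance : Full ℕ := ⟨fun n => ⟨n, rfl⟩⟩

instance {α β : Type} [Primcodable α] [Primcodable β] [Full α] [Full β] : Full (α × β) :=
  ⟨fun n => by
    obtain ⟨a, ha⟩ := Full.surj (α := α) n.unpair.1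
    obtain ⟨b, hb⟩ := Full.surj (α := β) n.unpair.2
    exact ⟨(a, b), by rw [Encodable.encode_prod_val, ha, hb, Nat.pair_unpair]⟩⟩

/-- The relation `R` (with set parameters) is arithmetical; the set variables of the formula belong
to `S`. -/
def AH {α : Type} [Primcodable α] (S : Set ℕ) (R : (ℕ → Set ℕ) → α → Prop) : Prop :=
  ∃ φ : Fm, φ.Arith ∧ (∀ x, φ.Free x → x = 0) ∧ (∀ X, φ.FreeS X → X ∈ S) ∧
    ∀ e E a, e 0 = encode a → (φ.Holds e E ↔ R E a)

namespace AH

variable {α β γ : Type} [Primcodable α] [Primcodable β] [Primcodable γ] {S : Set ℕ}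

theorem congr {R R' : (ℕ → Set ℕ) → α → Prop} (h : AH S R) (hR : ∀ E a, R E a ↔ R' E a) :
    AH S R' := by
  obtain ⟨φ, h1, h2, h3, h4⟩ := h
  exact ⟨φ, h1, h2, h3, fun e E a he => (h4 e E a he).trans (hR E a)⟩

theorem mono {S' : Set ℕ} {R : (ℕ → Set ℕ) → α → Prop} (h : AH S R) (hS : S ⊆ S') :
    AH S' R := by
  obtain ⟨φ, h1, h2, h3, h4⟩ := h
  exact ⟨φ, h1, h2, fun X hX => hS (h3 X hX), h4⟩

theorem not {R : (ℕ → Set ℕ) → α → Prop} (h : AH S R) : AH S (fun E a => ¬ R E a) := by
  obtain ⟨φ, h1, h2, h3, h4⟩ := h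
  exact ⟨φ.neg, by simpa using h1, by simpa using h2, by simpa using h3,
    fun e E a he => by rw [Fm.holds_neg, h4 e E a he]⟩

theorem and {R R' : (ℕ → Set ℕ) → α → Prop} (h : AH S R) (h' : AH S R') :
    AH S (fun E a => R E a ∧ R' E a) := by
  obtain ⟨φ, h1, h2, h3, h4⟩ := h
  obtain ⟨φ', h1', h2', h3', h4'⟩ := h'
  refine ⟨φ.and φ', by simp [h1, h1'], ?_, ?_,
    fun e E a he => by rw [Fm.holds_and, h4 e E a he, h4' e E a he]⟩
  · intro x hx
    rcases (Fm.free_and _ _ _).1 hx with h | h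
    · exact h2 x h
    · exact h2' x h
  · intro x hx
    rcases (Fm.freeS_and _ _ _).1 hx with h | h
    · exact h3 x h
    · exact h3' x h

theorem or {R R' : (ℕ → Set ℕ) → α → Prop} (h : AH S R) (h' : AH S R') :
    AH S (fun E a => R E a ∨ R' E a) :=
  (h.not.and h'.not).not.congr fun E a => by tauto

theorem imp {R R' : (ℕ → Set ℕ) → α → Prop} (h : AH S R) (h' : AH S R') :
    AH S (fun E a => R E a → R' E a) :=
  (h.and h'.not).not.congr fun E a => by tauto

theorem iff {R R' : (ℕ → Set ℕ) → α → Prop} (h : AH S R) (h' : AH S R') :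
    AH S (fun E a => (R E a ↔ R' E a)) :=
  ((h.imp h').and (h'.imp h)).congr fun E a => by tauto

theorem gr_encode {f : β → α} (hf : Primrec f) :
    ∃ F : ℕ → ℕ, Gr F ∧ ∀ b, F (encode b) = encode (f b) := by
  refine ⟨fun n => (encode ((decode (α := β) n).map f)).pred,
    gr_of_primrec (Nat.Primrec.pred.comp hf), fun b => by simp⟩

theorem comp {R : (ℕ → Set ℕ) → α → Prop} (h : AH S R) {f : β → α} (hf : Primrec f) :
    AH S (fun E b => R E (f b)) := by
  obtain ⟨φ, h1, h2, h3, h4⟩ := h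
  obtain ⟨F, ⟨G, g1, g2, g3, g4⟩, hF⟩ := gr_encode hf
  refine ⟨.ex 1 (.and G (at1 φ 1)), by simp [at1, h1, g1], ?_, ?_, ?_⟩
  · intro x hx
    simp only [Fm.free_ex, Fm.free_and] at hx
    rcases hx with ⟨hx1, hx | hx⟩
    · rcases g2 x hx with h | h
      · exact h
      · exact absurd h.symm hx1
    · exact absurd (free_at1 h2 x hx).symm hx1
  · intro X hX
    simp only [Fm.freeS_ex, Fm.freeS_and] at hX
    rcases hX with hX | hX
    · exact absurd hX (g3 X)
    · exact h3 X (freeS_at1 hX)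
  · intro e E b he
    simp only [Fm.holds_ex, Fm.holds_and, g4, holds_at1 (one_ne_zero), update_self,
      update_of_ne (zero_ne_one' ℕ)]
    constructor
    · rintro ⟨n, rfl, hn⟩
      rw [he, hF] at hn
      exact (h4 _ E (f b) (by simp)).1 hn
    · intro hR
      refine ⟨_, rfl, ?_⟩
      rw [he, hF]
      exact (h4 _ E (f b) (by simp)).2 hR

theorem ex [Full β] {R : (ℕ → Set ℕ) → α → β → Prop}
    (h : AH S (fun E (p : α × β) => R E p.1 p.2)) : AH S (fun E a => ∃ b, R E a b) := by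
  obtain ⟨φ, h1, h2, h3, h4⟩ := h
  refine ⟨.ex 1 (.ex 2 (.and (pairF (.var 0) (.var 1) (.var 2)) (at1 φ 2))),
    by simp [at1, h1, arith_pairF], ?_, ?_, ?_⟩
  · intro x hx
    simp only [Fm.free_ex, Fm.free_and, free_pairF, Tm.occ_var] at hx
    rcases hx with ⟨hx1, hx2, hx | hx⟩
    · omega
    · exact absurd (free_at1 h2 x hx).symm hx2
  · intro X hX
    simp only [Fm.freeS_ex, Fm.freeS_and] at hX
    rcases hX with hX | hX
    · exact absurd hX (freeS_pairF _ _ _ _)
    · exact h3 X (freeS_at1 hX)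
  · intro e E a he
    simp only [Fm.holds_ex, Fm.holds_and, holds_pairF, holds_at1 (two_ne_zero), update_self,
      Tm.val_var, update_of_ne (show (0 : ℕ) ≠ 2 by norm_num),
      update_of_ne (show (1 : ℕ) ≠ 2 by norm_num), update_of_ne (show (0 : ℕ) ≠ 1 by norm_num)]
    constructor
    · rintro ⟨m, n, rfl, hn⟩
      obtain ⟨b, rfl⟩ := Full.surj (α := β) m
      refine ⟨b, (h4 _ E (a, b) ?_).1 hn⟩
      simp [he]
    · rintro ⟨b, hb⟩
      refine ⟨encode b, _, rfl, (h4 _ E (a, b) ?_).2 hb⟩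
      simp [he]

theorem all [Full β] {R : (ℕ → Set ℕ) → α → β → Prop}
    (h : AH S (fun E (p : α × β) => R E p.1 p.2)) : AH S (fun E a => ∀ b, R E a b) :=
  (AH.ex (R := fun E a b => ¬ R E a b) h.not).not.congr fun E a => by push Not; rfl

theorem eq {f g : α → β} (hf : Primrec f) (hg : Primrec g) :
    AH S (fun _ a => f a = g a) := by
  obtain ⟨F, ⟨A, a1, a2, a3, a4⟩, hF⟩ := gr_encode hf
  obtain ⟨G, ⟨B, b1, b2, b3, b4⟩, hG⟩ := gr_encode hg
  refine ⟨.ex 1 (.and A B), by simp [a1, b1], ?_, ?_, ?_⟩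
  · intro x hx
    simp only [Fm.free_ex, Fm.free_and] at hx
    rcases hx with ⟨hx1, hx | hx⟩
    · have := a2 x hx; omega
    · have := b2 x hx; omega
  · intro X hX
    simp only [Fm.freeS_ex, Fm.freeS_and] at hX
    rcases hX with hX | hX
    · exact absurd hX (a3 X)
    · exact absurd hX (b3 X)
  · intro e E a he
    simp only [Fm.holds_ex, Fm.holds_and, a4, b4, update_self, update_of_ne (zero_ne_one' ℕ)]
    rw [he]
    constructor
    · rintro ⟨n, h1, h2⟩
      rw [hF] at h1
      rw [hG] at h2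
      exact Encodable.encode_injective (h1.symm.trans h2)
    · intro h
      exact ⟨_, rfl, by rw [hF, hG, h]⟩

theorem le {f g : α → ℕ} (hf : Primrec f) (hg : Primrec g) :
    AH S (fun _ a => f a ≤ g a) := by
  refine (AH.ex (β := ℕ) (R := fun _ a b => f a + b = g a) (AH.eq (Primrec.nat_add.comp
    (hf.comp Primrec.fst) Primrec.snd) (hg.comp Primrec.fst))).congr fun E a => ?_
  constructor
  · rintro ⟨b, hb⟩; omega
  · intro h; exact ⟨g a - f a, by omega⟩

theorem lt {f g : α → ℕ} (hf : Primrec f) (hg : Primrec g) :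
    AH S (fun _ a => f a < g a) :=
  (AH.le (Primrec.succ.comp hf) hg).congr fun E a => by
    show Nat.succ (f a) ≤ g a ↔ _
    exact Nat.succ_le_iff

theorem const (p : Prop) : AH S (fun _ (_ : α) => p) := by
  by_cases h : p
  · exact (AH.eq (α := α) (β := ℕ) (Primrec.const 0) (Primrec.const 0)).congr (by simp [h])
  · exact (AH.eq (α := α) (β := ℕ) (Primrec.const 0) (Primrec.const 1)).congr (by simp [h])

theorem mem {X : ℕ} (hX : X ∈ S) {f : α → ℕ} (hf : Primrec f) :
    AH S (fun E a => f a ∈ E X) := by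
  have h : AH S (fun (E : ℕ → Set ℕ) (n : ℕ) => n ∈ E X) := by
    refine ⟨.mem (.var 0) X, trivial, by simp, ?_, ?_⟩
    · simp only [Fm.freeS_mem]; rintro Y rfl; exact hX
    · intro e E a he
      simp only [Fm.holds_mem, Tm.val_var, he]
      rfl
  exact h.comp hf

end AH

/-- The least fixed point of rules with no or two premises. -/
inductive Lfp {α : Type} (R0 : α → Prop) (R2 : α → α → α → Prop) : α → Prop
  | base {a : α} : R0 a → Lfp R0 R2 a
  | step {a b c : α} : Lfp R0 R2 a → Lfp R0 R2 b → R2 a b c → Lfp R0 R2 c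

theorem beta_primrec : Primrec₂ Nat.beta := by
  unfold Nat.beta
  exact Primrec.nat_mod.comp (Primrec.fst.comp (Primrec.unpair.comp Primrec.fst))
    (Primrec.succ.comp (Primrec.nat_mul.comp (Primrec.succ.comp Primrec.snd)
      (Primrec.snd.comp (Primrec.unpair.comp Primrec.fst))))

/-- a list which is a derivation -/
def Deriv {α : Type} (R0 : α → Prop) (R2 : α → α → α → Prop) (l : ℕ → α) (m : ℕ) : Prop :=
  ∀ i ≤ m, R0 (l i) ∨ ∃ j < i, ∃ k < i, R2 (l j) (l k) (l i)

theorem lfp_iff {α : Type} {R0 : α → Prop} {R2 : α → α → α → Prop} (a : α) :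
    Lfp R0 R2 a ↔ ∃ (l : ℕ → α) (m : ℕ), Deriv R0 R2 l m ∧ l m = a := by
  constructor
  · intro h
    induction h with
    | @base a h => exact ⟨fun _ => a, 0, fun i _ => Or.inl h, rfl⟩
    | @step a b c _ _ h ih1 ih2 =>
      obtain ⟨l, m, h1, h2⟩ := ih1
      obtain ⟨l', m', h1', h2'⟩ := ih2
      let L : ℕ → α := fun i => if i ≤ m then l i else if i ≤ m + m' + 1 then l' (i - (m + 1)) else c
      have L1 : ∀ i, i ≤ m → L i = l i := fun i hi => if_pos hi
      have L2 : ∀ i, i ≤ m' → L (i + (m + 1)) = l' i := fun i hi => by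
        show (if i + (m + 1) ≤ m then _ else if i + (m + 1) ≤ m + m' + 1 then _ else _) = _
        rw [if_neg (by omega), if_pos (by omega), Nat.add_sub_cancel]
      have L3 : L (m + m' + 2) = c := by
        show (if m + m' + 2 ≤ m then _ else if m + m' + 2 ≤ m + m' + 1 then _ else _) = _
        rw [if_neg (by omega), if_neg (by omega)]
      refine ⟨L, m + m' + 2, ?_, L3⟩
      intro i hi
      by_cases hi1 : i ≤ m
      · rw [L1 i hi1]
        rcases h1 i hi1 with h | ⟨j, hj, k, hk, h⟩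
        · exact Or.inl h
        · refine Or.inr ⟨j, hj, k, hk, ?_⟩
          rw [L1 j (by omega), L1 k (by omega)]
          exact h
      · by_cases hi2 : i ≤ m + m' + 1
        · obtain ⟨i', rfl⟩ : ∃ i', i = i' + (m + 1) := ⟨i - (m + 1), by omega⟩
          rw [L2 i' (by omega)]
          rcases h1' i' (by omega) with h | ⟨j, hj, k, hk, h⟩
          · exact Or.inl h
          · refine Or.inr ⟨j + (m + 1), by omega, k + (m + 1), by omega, ?_⟩
            rw [L2 j (by omega), L2 k (by omega)]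
            exact h
        · have : i = m + m' + 2 := by omega
          subst this
          rw [L3]
          refine Or.inr ⟨m, by omega, m' + (m + 1), by omega, ?_⟩
          rw [L1 m le_rfl, L2 m' le_rfl, h2, h2']
          exact h
  · rintro ⟨l, m, h1, rfl⟩
    have : ∀ n, ∀ i ≤ n, i ≤ m → Lfp R0 R2 (l i) := by
      intro n
      induction n with
      | zero =>
        intro i hi him
        rcases h1 i him with h | ⟨j, hj, _⟩
        · exact .base h
        · omega
      | succ n ih =>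
        intro i hi him
        rcases h1 i him with h | ⟨j, hj, k, hk, h⟩
        · exact .base h
        · exact .step (ih j (by omega) (by omega)) (ih k (by omega) (by omega)) h
    exact this m m le_rfl le_rfl

theorem AH.lfp {α : Type} [Primcodable α] [Full α] {S : Set ℕ} {R0 : α → Prop}
    {R2 : α → α → α → Prop} (h0 : AH S (fun _ a => R0 a))
    (h2 : AH S (fun _ (p : α × α × α) => R2 p.1 p.2.1 p.2.2)) :
    AH S (fun _ a => Lfp R0 R2 a) := by
  -- the element with the code `beta s i`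
  have hE : Primrec (encode : α → ℕ) := Primrec.encode
  have key : AH S (fun _ (a : α) => ∃ s m : ℕ, encode a = Nat.beta s m ∧
      ∀ i : ℕ, i ≤ m → ∃ b : α, encode b = Nat.beta s i ∧ (R0 b ∨
        ∃ j : ℕ, j < i ∧ ∃ k : ℕ, k < i ∧ ∃ c d : α, encode c = Nat.beta s j ∧
          encode d = Nat.beta s k ∧ R2 c d b)) := by
    apply AH.ex
    apply AH.ex
    apply AH.and
    · exact AH.eq (hE.comp (Primrec.fst.comp Primrec.fst))
        (beta_primrec.comp (Primrec.snd.comp Primrec.fst) Primrec.snd)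
    apply AH.all
    apply AH.imp
    · exact AH.le Primrec.snd (Primrec.snd.comp Primrec.fst)
    apply AH.ex
    apply AH.and
    · exact AH.eq (hE.comp Primrec.snd) (beta_primrec.comp (Primrec.snd.comp (Primrec.fst.comp
        (Primrec.fst.comp Primrec.fst))) (Primrec.snd.comp Primrec.fst))
    apply AH.or
    · exact h0.comp Primrec.snd
    apply AH.ex
    apply AH.and
    · exact AH.lt Primrec.snd (Primrec.snd.comp (Primrec.fst.comp Primrec.fst))
    apply AH.ex
    apply AH.and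
    · exact AH.lt Primrec.snd (Primrec.snd.comp
        (Primrec.fst.comp (Primrec.fst.comp Primrec.fst)))
    apply AH.ex
    apply AH.ex
    have P : Primrec (fun x : (((((((α × ℕ) × ℕ) × ℕ) × α) × ℕ) × ℕ) × α) × α =>
        x.1.1.1.1.1.1.1.2) :=
      Primrec.snd.comp (Primrec.fst.comp (Primrec.fst.comp (Primrec.fst.comp
        (Primrec.fst.comp (Primrec.fst.comp (Primrec.fst.comp Primrec.fst))))))
    apply AH.and
    · exact AH.eq (hE.comp (Primrec.snd.comp Primrec.fst)) (beta_primrec.comp P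
        (Primrec.snd.comp (Primrec.fst.comp (Primrec.fst.comp Primrec.fst))))
    apply AH.and
    · exact AH.eq (hE.comp Primrec.snd) (beta_primrec.comp P
        (Primrec.snd.comp (Primrec.fst.comp Primrec.fst)))
    exact h2.comp (Primrec.pair (Primrec.snd.comp Primrec.fst) (Primrec.pair Primrec.snd
      (Primrec.snd.comp (Primrec.fst.comp (Primrec.fst.comp (Primrec.fst.comp Primrec.fst))))))
  refine key.congr fun _ a => ?_
  rw [lfp_iff]
  constructor
  · rintro ⟨s, m, ha, h⟩
    haveI : Nonempty α := ⟨a⟩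
    choose! b hb hb' using h
    refine ⟨b, m, ?_, ?_⟩
    · intro i hi
      rcases hb' i hi with h | ⟨j, hj, k, hk, c, d, hc, hd, h⟩
      · exact Or.inl h
      · refine Or.inr ⟨j, hj, k, hk, ?_⟩
        have hc' : c = b j := Encodable.encode_injective (hc.trans (hb j (by omega)).symm)
        have hd' : d = b k := Encodable.encode_injective (hd.trans (hb k (by omega)).symm)
        rwa [← hc', ← hd']
    · exact Encodable.encode_injective ((hb m le_rfl).trans ha.symm)
  · rintro ⟨l, m, h, rfl⟩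
    obtain ⟨s, hs⟩ := exists_seq (fun i => encode (l i)) m
    refine ⟨s, m, (hs m le_rfl).symm, fun i hi => ⟨l i, (hs i hi).symm, ?_⟩⟩
    rcases h i hi with h | ⟨j, hj, k, hk, h⟩
    · exact Or.inl h
    · exact Or.inr ⟨j, hj, k, hk, l j, l k, (hs j (by omega)).symm, (hs k (by omega)).symm, h⟩

end Pool.Agent.H9x.SO
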