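import Pool.Agent.H9x.SO.AH
import Pool.Agent.Lib.helper21.PR

/-! Recursion on terms and formulas is arithmetical -/

set_option autoImplicit false

namespace Pool.Agent.H9x.SO

open Function Encodable Pool.Agent.Lib.helper21.PR

/-- truth value as a number -/
noncomputable def ind (p : Prop) : ℕ := @ite _ p (Classical.propDecidable p) 1 0

@[simp] theorem ind_eq_one {p : Prop} : ind p = 1 ↔ p := by unfold ind; split_ifs <;> simp [*]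

theorem ind_eq {p : Prop} {d : ℕ} : ind p = d ↔ (d = 1 ∧ p) ∨ (d = 0 ∧ ¬ p) := by
  unfold ind
  by_cases h : p
  · simp [h]; exact eq_comm
  · simp [h]; exact eq_comm

section tm

variable {P : Type} [Primcodable P] [Full P] {S : Set ℕ}

theorem AH.tmFold (V : P → Tm → ℕ) {v0 : P → ℕ → ℕ → Prop} {v1 v2 : P → ℕ → Prop}
    {v3 v4 : P → ℕ → ℕ → ℕ → Prop}
    (e0 : ∀ p x d, V p (.var x) = d ↔ v0 p x d) (e1 : ∀ p d, V p .zero = d ↔ v1 p d)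
    (e2 : ∀ p d, V p .one = d ↔ v2 p d)
    (e3 : ∀ p s t d, V p (.add s t) = d ↔ v3 p (V p s) (V p t) d)
    (e4 : ∀ p s t d, V p (.mul s t) = d ↔ v4 p (V p s) (V p t) d)
    (a0 : AH S (fun _ (q : P × ℕ × ℕ) => v0 q.1 q.2.1 q.2.2))
    (a1 : AH S (fun _ (q : P × ℕ) => v1 q.1 q.2))
    (a2 : AH S (fun _ (q : P × ℕ) => v2 q.1 q.2))
    (a3 : AH S (fun _ (q : P × ℕ × ℕ × ℕ) => v3 q.1 q.2.1 q.2.2.1 q.2.2.2))
    (a4 : AH S (fun _ (q : P × ℕ × ℕ × ℕ) => v4 q.1 q.2.1 q.2.2.1 q.2.2.2)) :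
    AH S (fun _ (q : P × ℕ × ℕ) => ∃ t : Tm, q.2.1 = t.code ∧ q.2.2 = V q.1 t) := by
  have h0 : AH S (fun _ (q : P × ℕ × ℕ) => (∃ x, q.2.1 = Nat.pair 0 x ∧ v0 q.1 x q.2.2) ∨
      (q.2.1 = Nat.pair 1 0 ∧ v1 q.1 q.2.2) ∨ (q.2.1 = Nat.pair 2 0 ∧ v2 q.1 q.2.2)) := by
    refine .or (.ex (.and (.eq (by fun_prop) (by fun_prop))
      (a0.comp (f := fun q : (P × ℕ × ℕ) × ℕ => (q.1.1, q.2, q.1.2.2)) (by fun_prop))))
      (.or (.and (.eq (by fun_prop) (by fun_prop))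
      (a1.comp (f := fun q : (P × ℕ × ℕ) => (q.1, q.2.2)) (by fun_prop)))
      (.and (.eq (by fun_prop) (by fun_prop))
      (a2.comp (f := fun q : (P × ℕ × ℕ) => (q.1, q.2.2)) (by fun_prop))))
  let R2 : P × ℕ × ℕ → P × ℕ × ℕ → P × ℕ × ℕ → Prop := fun a b c => a.1 = c.1 ∧ b.1 = c.1 ∧
    ((c.2.1 = Nat.pair 3 (Nat.pair a.2.1 b.2.1) ∧ v3 c.1 a.2.2 b.2.2 c.2.2) ∨
    (c.2.1 = Nat.pair 4 (Nat.pair a.2.1 b.2.1) ∧ v4 c.1 a.2.2 b.2.2 c.2.2))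
  have h2 : AH S (fun _ (r : (P × ℕ × ℕ) × (P × ℕ × ℕ) × (P × ℕ × ℕ)) => R2 r.1 r.2.1 r.2.2) := by
    refine .and (.eq (by fun_prop) (by fun_prop)) (.and (.eq (by fun_prop) (by fun_prop))
      (.or (.and (.eq (by fun_prop) (by fun_prop)) (a3.comp (f := fun r : (P × ℕ × ℕ) ×
        (P × ℕ × ℕ) × (P × ℕ × ℕ) => (r.2.2.1, r.1.2.2, r.2.1.2.2, r.2.2.2.2)) (by fun_prop)))
      (.and (.eq (by fun_prop) (by fun_prop)) (a4.comp (f := fun r : (P × ℕ × ℕ) ×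
        (P × ℕ × ℕ) × (P × ℕ × ℕ) => (r.2.2.1, r.1.2.2, r.2.1.2.2, r.2.2.2.2)) (by fun_prop)))))
  refine (AH.lfp (R2 := R2) h0 h2).congr fun _ q => ?_
  constructor
  · intro h
    induction h with
    | base h =>
      rcases h with ⟨x, h, hv⟩ | ⟨h, hv⟩ | ⟨h, hv⟩
      · exact ⟨.var x, h, ((e0 _ _ _).2 hv).symm⟩
      · exact ⟨.zero, h, ((e1 _ _).2 hv).symm⟩
      · exact ⟨.one, h, ((e2 _ _).2 hv).symm⟩
    | step _ _ h ih1 ih2 =>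
      obtain ⟨s, hs, hs'⟩ := ih1
      obtain ⟨t, ht, ht'⟩ := ih2
      obtain ⟨ha, hb, ⟨hc, hv⟩ | ⟨hc, hv⟩⟩ := h
      · refine ⟨.add s t, by rw [hc, hs, ht]; rfl, ?_⟩
        rw [hs', ht', ha, hb] at hv
        exact ((e3 _ _ _ _).2 hv).symm
      · refine ⟨.mul s t, by rw [hc, hs, ht]; rfl, ?_⟩
        rw [hs', ht', ha, hb] at hv
        exact ((e4 _ _ _ _).2 hv).symm
  · rintro ⟨t, h1, h2⟩
    obtain ⟨p, n, d⟩ := q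
    simp only at h1 h2
    subst h1 h2
    induction t with
    | var x => exact .base (Or.inl ⟨x, rfl, (e0 _ _ _).1 rfl⟩)
    | zero => exact .base (Or.inr (Or.inl ⟨rfl, (e1 _ _).1 rfl⟩))
    | one => exact .base (Or.inr (Or.inr ⟨rfl, (e2 _ _).1 rfl⟩))
    | add s t ih1 ih2 => exact .step ih1 ih2 ⟨rfl, rfl, Or.inl ⟨rfl, (e3 _ _ _ _).1 rfl⟩⟩
    | mul s t ih1 ih2 => exact .step ih1 ih2 ⟨rfl, rfl, Or.inr ⟨rfl, (e4 _ _ _ _).1 rfl⟩⟩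

end tm

/-- atomic formulas -/
def Fm.Atomic : Fm → Prop
  | .eq _ _ => _root_.True
  | .lt _ _ => _root_.True
  | .mem _ _ => _root_.True
  | .bot => _root_.True
  | _ => False

section basic

variable {α : Type} [Primcodable α] {S : Set ℕ}

theorem ah_isTm {f : α → ℕ} (hf : Primrec f) : AH S (fun _ a => ∃ t : Tm, f a = t.code) := by
  have h := AH.tmFold (S := S) (P := ℕ) (fun _ _ => 0) (v0 := fun _ _ d => d = 0)
    (v1 := fun _ d => d = 0) (v2 := fun _ d => d = 0) (v3 := fun _ _ _ d => d = 0)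
    (v4 := fun _ _ _ d => d = 0) (fun _ _ _ => eq_comm) (fun _ _ => eq_comm) (fun _ _ => eq_comm)
    (fun _ _ _ _ => eq_comm) (fun _ _ _ _ => eq_comm) (.eq (by fun_prop) (by fun_prop))
    (.eq (by fun_prop) (by fun_prop)) (.eq (by fun_prop) (by fun_prop))
    (.eq (by fun_prop) (by fun_prop)) (.eq (by fun_prop) (by fun_prop))
  exact (h.comp (f := fun a => (0, f a, 0)) (by fun_prop)).congr (by simp)

theorem ah_atomic {f : α → ℕ} (hf : Primrec f) :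
    AH S (fun _ a => ∃ φ : Fm, f a = φ.code ∧ φ.Atomic) := by
  have h : AH S (fun _ n => (∃ a b, (∃ t : Tm, a = t.code) ∧ (∃ t : Tm, b = t.code) ∧
      (n = Nat.pair 5 (Nat.pair a b) ∨ n = Nat.pair 6 (Nat.pair a b))) ∨
      (∃ a b, (∃ t : Tm, a = t.code) ∧ n = Nat.pair 7 (Nat.pair a b)) ∨ n = Nat.pair 8 0) :=
    .or (.ex (.ex (.and (ah_isTm (by fun_prop)) (.and (ah_isTm (by fun_prop))
      (.or (.eq (by fun_prop) (by fun_prop)) (.eq (by fun_prop) (by fun_prop)))))))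
      (.or (.ex (.ex (.and (ah_isTm (by fun_prop)) (.eq (by fun_prop) (by fun_prop)))))
        (.eq (by fun_prop) (by fun_prop)))
  refine (h.comp hf).congr fun _ a => ?_
  constructor
  · rintro (⟨_, _, ⟨s, rfl⟩, ⟨t, rfl⟩, h | h⟩ | ⟨_, X, ⟨t, rfl⟩, h⟩ | h)
    · exact ⟨.eq s t, h, trivial⟩
    · exact ⟨.lt s t, h, trivial⟩
    · exact ⟨.mem t X, h, trivial⟩
    · exact ⟨.bot, h, trivial⟩
  · rintro ⟨φ, h, h'⟩
    cases φ with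
    | eq s t => exact Or.inl ⟨_, _, ⟨s, rfl⟩, ⟨t, rfl⟩, Or.inl h⟩
    | lt s t => exact Or.inl ⟨_, _, ⟨s, rfl⟩, ⟨t, rfl⟩, Or.inr h⟩
    | mem t X => exact Or.inr (Or.inl ⟨_, _, ⟨t, rfl⟩, h⟩)
    | bot => exact Or.inr (Or.inr h)
    | imp => exact h'.elim
    | all => exact h'.elim
    | allS => exact h'.elim

end basic

section fm

variable {P : Type} [Primcodable P] [Full P] {S : Set ℕ}

theorem AH.fmFold (V : P → Fm → ℕ) {v0 : P → ℕ → ℕ → Prop} {v1 : P → ℕ → ℕ → ℕ → ℕ → ℕ → Prop}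
    {v2 v3 : P → ℕ → ℕ → ℕ → ℕ → Prop}
    (e0 : ∀ p φ d, φ.Atomic → (V p φ = d ↔ v0 p φ.code d))
    (e1 : ∀ p φ ψ d, V p (.imp φ ψ) = d ↔ v1 p φ.code ψ.code (V p φ) (V p ψ) d)
    (e2 : ∀ p x φ d, V p (.all x φ) = d ↔ v2 p x φ.code (V p φ) d)
    (e3 : ∀ p x φ d, V p (.allS x φ) = d ↔ v3 p x φ.code (V p φ) d)
    (a0 : AH S (fun _ (q : P × ℕ × ℕ) => v0 q.1 q.2.1 q.2.2))
    (a1 : AH S (fun _ (q : P × ℕ × ℕ × ℕ × ℕ × ℕ) =>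
      v1 q.1 q.2.1 q.2.2.1 q.2.2.2.1 q.2.2.2.2.1 q.2.2.2.2.2))
    (a2 : AH S (fun _ (q : P × ℕ × ℕ × ℕ × ℕ) => v2 q.1 q.2.1 q.2.2.1 q.2.2.2.1 q.2.2.2.2))
    (a3 : AH S (fun _ (q : P × ℕ × ℕ × ℕ × ℕ) => v3 q.1 q.2.1 q.2.2.1 q.2.2.2.1 q.2.2.2.2)) :
    AH S (fun _ (q : P × ℕ × ℕ) => ∃ φ : Fm, q.2.1 = φ.code ∧ q.2.2 = V q.1 φ) := by
  have h0 : AH S (fun _ (q : P × ℕ × ℕ) => (∃ φ : Fm, q.2.1 = φ.code ∧ φ.Atomic) ∧
      v0 q.1 q.2.1 q.2.2) := .and (ah_atomic (by fun_prop)) a0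
  let R2 : P × ℕ × ℕ → P × ℕ × ℕ → P × ℕ × ℕ → Prop := fun a b c => a.1 = c.1 ∧ b.1 = c.1 ∧
    ((c.2.1 = Nat.pair 9 (Nat.pair a.2.1 b.2.1) ∧ v1 c.1 a.2.1 b.2.1 a.2.2 b.2.2 c.2.2) ∨
    (∃ x, c.2.1 = Nat.pair 10 (Nat.pair x a.2.1) ∧ v2 c.1 x a.2.1 a.2.2 c.2.2) ∨
    (∃ x, c.2.1 = Nat.pair 11 (Nat.pair x a.2.1) ∧ v3 c.1 x a.2.1 a.2.2 c.2.2))
  have h2 : AH S (fun _ (r : (P × ℕ × ℕ) × (P × ℕ × ℕ) × (P × ℕ × ℕ)) => R2 r.1 r.2.1 r.2.2) := by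
    refine .and (.eq (by fun_prop) (by fun_prop)) (.and (.eq (by fun_prop) (by fun_prop))
      (.or (.and (.eq (by fun_prop) (by fun_prop)) (a1.comp (f := fun r : (P × ℕ × ℕ) ×
        (P × ℕ × ℕ) × (P × ℕ × ℕ) => (r.2.2.1, r.1.2.1, r.2.1.2.1, r.1.2.2, r.2.1.2.2,
          r.2.2.2.2)) (by fun_prop)))
      (.or (.ex (.and (.eq (by fun_prop) (by fun_prop)) (a2.comp (f := fun r : ((P × ℕ × ℕ) ×
        (P × ℕ × ℕ) × (P × ℕ × ℕ)) × ℕ => (r.1.2.2.1, r.2, r.1.1.2.1, r.1.1.2.2, r.1.2.2.2.2))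
          (by fun_prop))))
        (.ex (.and (.eq (by fun_prop) (by fun_prop)) (a3.comp (f := fun r : ((P × ℕ × ℕ) ×
        (P × ℕ × ℕ) × (P × ℕ × ℕ)) × ℕ => (r.1.2.2.1, r.2, r.1.1.2.1, r.1.1.2.2, r.1.2.2.2.2))
          (by fun_prop)))))))
  refine (AH.lfp (R2 := R2) h0 h2).congr fun _ q => ?_
  constructor
  · intro h
    induction h with
    | base h =>
      obtain ⟨⟨φ, h, ha⟩, hv⟩ := h
      rw [h] at hv
      exact ⟨φ, h, ((e0 _ _ _ ha).2 hv).symm⟩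
    | step _ _ h ih1 ih2 =>
      obtain ⟨s, hs, hs'⟩ := ih1
      obtain ⟨t, ht, ht'⟩ := ih2
      obtain ⟨ha, hb, ⟨hc, hv⟩ | ⟨x, hc, hv⟩ | ⟨x, hc, hv⟩⟩ := h
      · refine ⟨.imp s t, by rw [hc, hs, ht]; rfl, ?_⟩
        rw [hs', ht', hs, ht, ha, hb] at hv
        exact ((e1 _ _ _ _).2 hv).symm
      · refine ⟨.all x s, by rw [hc, hs]; rfl, ?_⟩
        rw [hs', hs, ha] at hv
        exact ((e2 _ _ _ _).2 hv).symm
      · refine ⟨.allS x s, by rw [hc, hs]; rfl, ?_⟩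
        rw [hs', hs, ha] at hv
        exact ((e3 _ _ _ _).2 hv).symm
  · rintro ⟨t, h1, h2⟩
    obtain ⟨p, n, d⟩ := q
    simp only at h1 h2
    subst h1 h2
    have hat : ∀ φ : Fm, φ.Atomic → Lfp (fun q : P × ℕ × ℕ => (∃ φ : Fm, q.2.1 = φ.code ∧
        φ.Atomic) ∧ v0 q.1 q.2.1 q.2.2) R2
        (p, φ.code, V p φ) := fun φ h => .base ⟨⟨φ, rfl, h⟩, (e0 _ _ _ h).1 rfl⟩
    induction t with
    | eq s t => exact hat _ trivial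
    | lt s t => exact hat _ trivial
    | mem s t => exact hat _ trivial
    | bot => exact hat _ trivial
    | imp s t ih1 ih2 => exact .step ih1 ih2 ⟨rfl, rfl, Or.inl ⟨rfl, (e1 _ _ _ _).1 rfl⟩⟩
    | all x t ih => exact .step ih ih ⟨rfl, rfl, Or.inr (Or.inl ⟨x, rfl, (e2 _ _ _ _).1 rfl⟩)⟩
    | allS x t ih => exact .step ih ih ⟨rfl, rfl, Or.inr (Or.inr ⟨x, rfl, (e3 _ _ _ _).1 rfl⟩)⟩

/-- recursion for relations -/
theorem AH.fmRec (R : P → Fm → Prop) {v0 : P → ℕ → Prop} {v1 : P → ℕ → ℕ → ℕ → ℕ → Prop}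
    {v2 v3 : P → ℕ → ℕ → ℕ → Prop}
    (e0 : ∀ p φ, φ.Atomic → (R p φ ↔ v0 p φ.code))
    (e1 : ∀ p φ ψ, R p (.imp φ ψ) ↔ v1 p φ.code ψ.code (ind (R p φ)) (ind (R p ψ)))
    (e2 : ∀ p x φ, R p (.all x φ) ↔ v2 p x φ.code (ind (R p φ)))
    (e3 : ∀ p x φ, R p (.allS x φ) ↔ v3 p x φ.code (ind (R p φ)))
    (a0 : AH S (fun _ (q : P × ℕ) => v0 q.1 q.2))
    (a1 : AH S (fun _ (q : P × ℕ × ℕ × ℕ × ℕ) => v1 q.1 q.2.1 q.2.2.1 q.2.2.2.1 q.2.2.2.2))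
    (a2 : AH S (fun _ (q : P × ℕ × ℕ × ℕ) => v2 q.1 q.2.1 q.2.2.1 q.2.2.2))
    (a3 : AH S (fun _ (q : P × ℕ × ℕ × ℕ) => v3 q.1 q.2.1 q.2.2.1 q.2.2.2)) :
    AH S (fun _ (q : P × ℕ) => ∃ φ : Fm, q.2 = φ.code ∧ R q.1 φ) := by
  have key := AH.fmFold (S := S) (fun p φ => ind (R p φ))
    (v0 := fun p n d => (d = 1 ∧ v0 p n) ∨ (d = 0 ∧ ¬ v0 p n))
    (v1 := fun p m n a b d => (d = 1 ∧ v1 p m n a b) ∨ (d = 0 ∧ ¬ v1 p m n a b))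
    (v2 := fun p m n a d => (d = 1 ∧ v2 p m n a) ∨ (d = 0 ∧ ¬ v2 p m n a))
    (v3 := fun p m n a d => (d = 1 ∧ v3 p m n a) ∨ (d = 0 ∧ ¬ v3 p m n a))
    (fun p φ d h => by rw [ind_eq, e0 p φ h]) (fun p φ ψ d => by rw [ind_eq, e1])
    (fun p x φ d => by rw [ind_eq, e2]) (fun p x φ d => by rw [ind_eq, e3])
    (.or (.and (.eq (by fun_prop) (by fun_prop)) (a0.comp (f := fun q : P × ℕ × ℕ => (q.1, q.2.1))
      (by fun_prop))) (.and (.eq (by fun_prop) (by fun_prop))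
        (a0.comp (f := fun q : P × ℕ × ℕ => (q.1, q.2.1)) (by fun_prop)).not))
    (.or (.and (.eq (by fun_prop) (by fun_prop)) (a1.comp (f := fun q : P × ℕ × ℕ × ℕ × ℕ × ℕ =>
      (q.1, q.2.1, q.2.2.1, q.2.2.2.1, q.2.2.2.2.1)) (by fun_prop)))
      (.and (.eq (by fun_prop) (by fun_prop)) (a1.comp (f := fun q : P × ℕ × ℕ × ℕ × ℕ × ℕ =>
      (q.1, q.2.1, q.2.2.1, q.2.2.2.1, q.2.2.2.2.1)) (by fun_prop)).not))
    (.or (.and (.eq (by fun_prop) (by fun_prop)) (a2.comp (f := fun q : P × ℕ × ℕ × ℕ × ℕ =>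
      (q.1, q.2.1, q.2.2.1, q.2.2.2.1)) (by fun_prop)))
      (.and (.eq (by fun_prop) (by fun_prop)) (a2.comp (f := fun q : P × ℕ × ℕ × ℕ × ℕ =>
      (q.1, q.2.1, q.2.2.1, q.2.2.2.1)) (by fun_prop)).not))
    (.or (.and (.eq (by fun_prop) (by fun_prop)) (a3.comp (f := fun q : P × ℕ × ℕ × ℕ × ℕ =>
      (q.1, q.2.1, q.2.2.1, q.2.2.2.1)) (by fun_prop)))
      (.and (.eq (by fun_prop) (by fun_prop)) (a3.comp (f := fun q : P × ℕ × ℕ × ℕ × ℕ =>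
      (q.1, q.2.1, q.2.2.1, q.2.2.2.1)) (by fun_prop)).not))
  refine (key.comp (f := fun q : P × ℕ => (q.1, q.2, 1)) (by fun_prop)).congr fun _ q => ?_
  simp only [eq_comm (a := 1), ind_eq_one]

end fm

end Pool.Agent.H9x.SO
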