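import Mathlib

/-!
# Second-order arithmetic: syntax, standard semantics, natural deduction, `Σ¹₁-AC₀`, codes

Number variables and set variables are both named by natural numbers.
-/

set_option autoImplicit false

namespace Pool.Agent.H9x.SO

open Function

/-- Number terms of the language of second-order arithmetic. -/
inductive Tm : Type
  | var (x : ℕ) : Tm
  | zero : Tm
  | one : Tm
  | add (s t : Tm) : Tm
  | mul (s t : Tm) : Tm

/-- Formulas of the language of second-order arithmetic; `mem t X` says that `t` is an element of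
the set variable number `X`, `all x` is the quantifier over numbers and `allS X` the quantifier over
sets. -/
inductive Fm : Type
  | eq (s t : Tm) : Fm
  | lt (s t : Tm) : Fm
  | mem (t : Tm) (X : ℕ) : Fm
  | bot : Fm
  | imp (φ ψ : Fm) : Fm
  | all (x : ℕ) (φ : Fm) : Fm
  | allS (X : ℕ) (φ : Fm) : Fm

namespace Fm

/-- negation -/
def neg (φ : Fm) : Fm := imp φ bot
/-- conjunction -/
def and (φ ψ : Fm) : Fm := neg (imp φ (neg ψ))
/-- disjunction -/
def or (φ ψ : Fm) : Fm := imp (neg φ) ψ
/-- equivalence -/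
def iff (φ ψ : Fm) : Fm := and (imp φ ψ) (imp ψ φ)
/-- existential quantifier over numbers -/
def ex (x : ℕ) (φ : Fm) : Fm := neg (all x (neg φ))
/-- existential quantifier over sets -/
def exS (X : ℕ) (φ : Fm) : Fm := neg (allS X (neg φ))

end Fm

/-- The value of a term in the standard model. -/
def Tm.val (e : ℕ → ℕ) : Tm → ℕ
  | .var x => e x
  | .zero => 0
  | .one => 1
  | .add s t => s.val e + t.val e
  | .mul s t => s.val e * t.val e

/-- Truth in the standard model (`ω` with all subsets of `ω`), under an assignment `e` for the number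
variables and an assignment `E` for the set variables. -/
def Fm.Holds : Fm → (ℕ → ℕ) → (ℕ → Set ℕ) → Prop
  | .eq s t, e, _ => s.val e = t.val e
  | .lt s t, e, _ => s.val e < t.val e
  | .mem t X, e, E => t.val e ∈ E X
  | .bot, _, _ => False
  | .imp φ ψ, e, E => φ.Holds e E → ψ.Holds e E
  | .all x φ, e, E => ∀ n : ℕ, φ.Holds (update e x n) E
  | .allS X φ, e, E => ∀ Z : Set ℕ, φ.Holds e (update E X Z)

/-- The number variable `x` occurs in the term. -/
def Tm.Occ (x : ℕ) : Tm → Prop
  | .var y => y = x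
  | .zero => False
  | .one => False
  | .add s t => s.Occ x ∨ t.Occ x
  | .mul s t => s.Occ x ∨ t.Occ x

/-- The number variable `x` is free in the formula. -/
def Fm.Free (x : ℕ) : Fm → Prop
  | .eq s t => s.Occ x ∨ t.Occ x
  | .lt s t => s.Occ x ∨ t.Occ x
  | .mem t _ => t.Occ x
  | .bot => False
  | .imp φ ψ => φ.Free x ∨ ψ.Free x
  | .all y φ => y ≠ x ∧ φ.Free x
  | .allS _ φ => φ.Free x

/-- The set variable `X` is free in the formula. -/
def Fm.FreeS (X : ℕ) : Fm → Prop
  | .eq _ _ => False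
  | .lt _ _ => False
  | .mem _ Y => Y = X
  | .bot => False
  | .imp φ ψ => φ.FreeS X ∨ ψ.FreeS X
  | .all _ φ => φ.FreeS X
  | .allS Y φ => Y ≠ X ∧ φ.FreeS X

/-- A sentence: a formula without free variables. -/
def Fm.Sentence (φ : Fm) : Prop := (∀ x, ¬ φ.Free x) ∧ ∀ X, ¬ φ.FreeS X

/-- A sentence is true if it holds in the standard model. -/
def Fm.True (φ : Fm) : Prop := ∀ e E, φ.Holds e E

/-- Arithmetical formulas: no set quantifiers (free set variables are allowed). -/
def Fm.Arith : Fm → Prop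
  | .eq _ _ => _root_.True
  | .lt _ _ => _root_.True
  | .mem _ _ => _root_.True
  | .bot => _root_.True
  | .imp φ ψ => φ.Arith ∧ ψ.Arith
  | .all _ φ => φ.Arith
  | .allS _ _ => False

/-- `Π¹₁` formulas: universal set quantifiers in front of an arithmetical formula. -/
inductive Fm.IsPi : Fm → Prop
  | arith {φ : Fm} : φ.Arith → Fm.IsPi φ
  | allS (X : ℕ) {φ : Fm} : Fm.IsPi φ → Fm.IsPi (.allS X φ)

/-- `Σ¹₁` formulas: existential set quantifiers in front of an arithmetical formula. -/
inductive Fm.IsSigma : Fm → Prop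
  | arith {φ : Fm} : φ.Arith → Fm.IsSigma φ
  | exS (X : ℕ) {φ : Fm} : Fm.IsSigma φ → Fm.IsSigma (.exS X φ)

/-- `Π¹₁` formulas in the strictest sense: one universal set quantifier in front of an arithmetical
formula. -/
def Fm.IsStrictPi (φ : Fm) : Prop := ∃ X θ, θ.Arith ∧ φ = .allS X θ

/-! ### Substitution -/

/-- Substitution of the term `r` for the variable `x` in a term. -/
def Tm.subst : Tm → ℕ → Tm → Tm
  | .var y, x, r => if y = x then r else .var y
  | .zero, _, _ => .zero
  | .one, _, _ => .one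
  | .add s t, x, r => .add (s.subst x r) (t.subst x r)
  | .mul s t, x, r => .mul (s.subst x r) (t.subst x r)

/-- Substitution of the term `r` for the free occurrences of the number variable `x`. -/
def Fm.subst (x : ℕ) (r : Tm) : Fm → Fm
  | .eq s t => .eq (s.subst x r) (t.subst x r)
  | .lt s t => .lt (s.subst x r) (t.subst x r)
  | .mem t X => .mem (t.subst x r) X
  | .bot => .bot
  | .imp φ ψ => .imp (φ.subst x r) (ψ.subst x r)
  | .all y φ => if y = x then .all y φ else .all y (φ.subst x r)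
  | .allS X φ => .allS X (φ.subst x r)

/-- The term `r` is free for the number variable `x` in the formula: no variable of `r` is captured
by the substitution. -/
def Fm.FreeFor (x : ℕ) (r : Tm) : Fm → Prop
  | .eq _ _ => _root_.True
  | .lt _ _ => _root_.True
  | .mem _ _ => _root_.True
  | .bot => _root_.True
  | .imp φ ψ => φ.FreeFor x r ∧ ψ.FreeFor x r
  | .all y φ => y = x ∨ ¬ φ.Free x ∨ (¬ r.Occ y ∧ φ.FreeFor x r)
  | .allS _ φ => φ.FreeFor x r

/-- Substitution of the set variable `Y` for the free occurrences of the set variable `X`. -/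
def Fm.substS (X Y : ℕ) : Fm → Fm
  | .eq s t => .eq s t
  | .lt s t => .lt s t
  | .mem t Z => .mem t (if Z = X then Y else Z)
  | .bot => .bot
  | .imp φ ψ => .imp (φ.substS X Y) (ψ.substS X Y)
  | .all y φ => .all y (φ.substS X Y)
  | .allS Z φ => if Z = X then .allS Z φ else .allS Z (φ.substS X Y)

/-- The set variable `Y` is free for the set variable `X` in the formula. -/
def Fm.FreeForS (X Y : ℕ) : Fm → Prop
  | .eq _ _ => _root_.True
  | .lt _ _ => _root_.True
  | .mem _ _ => _root_.True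
  | .bot => _root_.True
  | .imp φ ψ => φ.FreeForS X Y ∧ ψ.FreeForS X Y
  | .all _ φ => φ.FreeForS X Y
  | .allS Z φ => Z = X ∨ ¬ φ.FreeS X ∨ (Z ≠ Y ∧ φ.FreeForS X Y)

/-! ### Proofs -/

/-- Natural deduction for classical two-sorted first-order logic with equality between numbers:
`Prf Γ φ` says that `φ` is derivable from the list `Γ` of assumptions. -/
inductive Prf : List Fm → Fm → Prop
  | hyp {Γ : List Fm} {φ : Fm} : φ ∈ Γ → Prf Γ φ
  | impI {Γ : List Fm} {φ ψ : Fm} : Prf (φ :: Γ) ψ → Prf Γ (.imp φ ψ)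
  | impE {Γ : List Fm} {φ ψ : Fm} : Prf Γ (.imp φ ψ) → Prf Γ φ → Prf Γ ψ
  | botC {Γ : List Fm} {φ : Fm} : Prf (.neg φ :: Γ) .bot → Prf Γ φ
  | allI {Γ : List Fm} {φ : Fm} (x : ℕ) : (∀ ψ ∈ Γ, ¬ ψ.Free x) → Prf Γ φ → Prf Γ (.all x φ)
  | allE {Γ : List Fm} {φ : Fm} (x : ℕ) (r : Tm) : φ.FreeFor x r → Prf Γ (.all x φ) →
      Prf Γ (φ.subst x r)
  | allSI {Γ : List Fm} {φ : Fm} (X : ℕ) : (∀ ψ ∈ Γ, ¬ ψ.FreeS X) → Prf Γ φ → Prf Γ (.allS X φ)
  | allSE {Γ : List Fm} {φ : Fm} (X Y : ℕ) : φ.FreeForS X Y → Prf Γ (.allS X φ) →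
      Prf Γ (φ.substS X Y)
  | eqI {Γ : List Fm} (t : Tm) : Prf Γ (.eq t t)
  | eqE {Γ : List Fm} {φ : Fm} (x : ℕ) (s t : Tm) : φ.FreeFor x s → φ.FreeFor x t →
      Prf Γ (.eq s t) → Prf Γ (φ.subst x s) → Prf Γ (φ.subst x t)

/-- `φ` is provable in the theory `T`. -/
def Provable (T : Set Fm) (φ : Fm) : Prop := ∃ Γ : List Fm, (∀ ψ ∈ Γ, ψ ∈ T) ∧ Prf Γ φ

/-! ### The theory `Σ¹₁-AC₀` -/

/-- The basic axioms of arithmetic, as open formulas in the variables `0` and `1`. -/
def basicAxioms : List Fm :=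
  let m := Tm.var 0
  let n := Tm.var 1
  [ .neg (.eq (.add n .one) .zero),
    .imp (.eq (.add m .one) (.add n .one)) (.eq m n),
    .eq (.add m .zero) m,
    .eq (.add m (.add n .one)) (.add (.add m n) .one),
    .eq (.mul m .zero) .zero,
    .eq (.mul m (.add n .one)) (.add (.mul m n) m),
    .neg (.lt m .zero),
    .iff (.lt m (.add n .one)) (.or (.lt m n) (.eq m n)) ]

/-- The induction axiom `0 ∈ X ∧ ∀ n (n ∈ X → n + 1 ∈ X) → ∀ n (n ∈ X)`. -/
def inductionAxiom : Fm :=
  .imp (.and (.mem .zero 0) (.all 0 (.imp (.mem (.var 0) 0) (.mem (.add (.var 0) .one) 0))))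
    (.all 0 (.mem (.var 0) 0))

/-- The comprehension axiom `∃ X ∀ n (n ∈ X ↔ φ)`. -/
def comprehension (n X : ℕ) (φ : Fm) : Fm := .exS X (.all n (.iff (.mem (.var n) X) φ))

/-- The code `(m + n)² + m` of the pair of the numbers `m` and `n`, as a term. -/
def pairTm (m n : Tm) : Tm := .add (.mul (.add m n) (.add m n)) m

/-- The axiom of choice `∀ n ∃ X φ(n, X) → ∃ Z ∀ n φ(n, (Z)ₙ)`, where `(Z)ₙ` is the set of all `m` with
`(m, n) ∈ Z`; the conclusion is expressed as `∃ Z ∀ n ∃ X (∀ m (m ∈ X ↔ (m, n) ∈ Z) ∧ φ(n, X))`. -/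
def choice (n m X Z : ℕ) (φ : Fm) : Fm :=
  .imp (.all n (.exS X φ))
    (.exS Z (.all n (.exS X
      (.and (.all m (.iff (.mem (.var m) X) (.mem (pairTm (.var m) (.var n)) Z))) φ))))

/-- The axioms of `Σ¹₁-AC₀` before taking universal closures: the basic axioms, the induction axiom,
comprehension for arithmetical formulas and choice for `Σ¹₁` formulas. -/
inductive OpenAxiom : Fm → Prop
  | basic {φ : Fm} : φ ∈ basicAxioms → OpenAxiom φ
  | induction : OpenAxiom inductionAxiom
  | comprehension (n X : ℕ) (φ : Fm) : φ.Arith → ¬ φ.FreeS X → OpenAxiom (comprehension n X φ)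
  | choice (n m X Z : ℕ) (φ : Fm) : φ.IsSigma → n ≠ m → X ≠ Z → ¬ φ.FreeS Z →
      OpenAxiom (choice n m X Z φ)

/-- Formulas obtained by putting universal quantifiers in front of a formula with the property
`P`. -/
inductive Generalization (P : Fm → Prop) : Fm → Prop
  | base {φ : Fm} : P φ → Generalization P φ
  | all (x : ℕ) {φ : Fm} : Generalization P φ → Generalization P (.all x φ)
  | allS (X : ℕ) {φ : Fm} : Generalization P φ → Generalization P (.allS X φ)

/-- The theory `Σ¹₁-AC₀`: the universal closures of the axioms. -/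
def SigmaAC0 : Set Fm := {φ | φ.Sentence ∧ Generalization OpenAxiom φ}

/-! ### Codes -/

/-- The code of a term. -/
def Tm.code : Tm → ℕ
  | .var x => Nat.pair 0 x
  | .zero => Nat.pair 1 0
  | .one => Nat.pair 2 0
  | .add s t => Nat.pair 3 (Nat.pair s.code t.code)
  | .mul s t => Nat.pair 4 (Nat.pair s.code t.code)

/-- The code (Gödel number) of a formula. -/
def Fm.code : Fm → ℕ
  | .eq s t => Nat.pair 5 (Nat.pair s.code t.code)
  | .lt s t => Nat.pair 6 (Nat.pair s.code t.code)
  | .mem t X => Nat.pair 7 (Nat.pair t.code X)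
  | .bot => Nat.pair 8 0
  | .imp φ ψ => Nat.pair 9 (Nat.pair φ.code ψ.code)
  | .all x φ => Nat.pair 10 (Nat.pair x φ.code)
  | .allS X φ => Nat.pair 11 (Nat.pair X φ.code)

/-- The code of a finite list of formulas. -/
def codeList : List Fm → ℕ
  | [] => 0
  | φ :: Γ => Nat.pair φ.code (codeList Γ) + 1

/-- The formulas by which the syntax is expressed in the language. The variables are `x` (number `0`,
for the code of a sentence), `h` (number `1`, for the code of a finite list of axioms) and `a`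
(number `2`, for the code of an axiom). The first three formulas may be any arithmetical formulas that
define the intended relations in the standard model, and `tr` may be any formula `∀ X θ` with an
arithmetical `θ` which defines truth for `Π¹₁` sentences. -/
structure Arithmetization where
  /-- `a` is the code of an element of the list with the code `h` -/
  isElem : Fm
  /-- the sentence with the code `x` is derivable from the list with the code `h` -/
  derives : Fm
  /-- `x` is the code of a `Π¹₁` sentence -/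
  isPi : Fm
  /-- the `Π¹₁` sentence with the code `x` is true -/
  tr : Fm
  isElem_arith : isElem.Arith
  derives_arith : derives.Arith
  isPi_arith : isPi.Arith
  tr_pi : tr.IsStrictPi
  isElem_free : ∀ x, isElem.Free x → x = 1 ∨ x = 2
  derives_free : ∀ x, derives.Free x → x = 0 ∨ x = 1
  isPi_free : ∀ x, isPi.Free x → x = 0
  tr_free : ∀ x, tr.Free x → x = 0
  isElem_freeS : ∀ X, ¬ isElem.FreeS X
  derives_freeS : ∀ X, ¬ derives.FreeS X
  isPi_freeS : ∀ X, ¬ isPi.FreeS X
  tr_freeS : ∀ X, ¬ tr.FreeS X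
  isElem_spec : ∀ e E, isElem.Holds e E ↔ ∃ Γ φ, e 1 = codeList Γ ∧ e 2 = φ.code ∧ φ ∈ Γ
  derives_spec : ∀ e E, derives.Holds e E ↔ ∃ Γ φ, e 1 = codeList Γ ∧ e 0 = φ.code ∧ Prf Γ φ
  isPi_spec : ∀ e E, isPi.Holds e E ↔ ∃ φ : Fm, φ.Sentence ∧ φ.IsPi ∧ e 0 = φ.code
  tr_spec : ∀ φ : Fm, φ.Sentence → φ.IsPi → ∀ e E, e 0 = φ.code → (tr.Holds e E ↔ φ.True)

/-- The provability predicate `Pr_τ(x)` of the theory whose axioms are defined by the formula `τ(a)`:
there is (the code `h` of) a finite list of formulas satisfying `τ` from which `x` is derivable. -/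
def Arithmetization.prov (𝒜 : Arithmetization) (τ : Fm) : Fm :=
  .ex 1 (.and 𝒜.derives (.all 2 (.imp 𝒜.isElem τ)))

/-- The sentence `∀ x ∈ Π¹₁ (Pr_τ(x) → True_{Π¹₁}(x))`. -/
def Arithmetization.reflection (𝒜 : Arithmetization) (τ : Fm) : Fm :=
  .all 0 (.imp 𝒜.isPi (.imp (𝒜.prov τ) 𝒜.tr))

end Pool.Agent.H9x.SO
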