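import Pool.Agent.H9x.SO.Syn

/-! Existence of the arithmetization, and a definition of the axioms -/

set_option autoImplicit false

namespace Pool.Agent.H9x.SO

open Function Encodable Pool.Agent.Lib.helper21.PR

section
variable {α : Type} [Primcodable α] {S : Set ℕ} {f g h k : α → ℕ}

/-! ### Codes of compound formulas -/

def cneg (a : ℕ) : ℕ := Nat.pair 9 (Nat.pair a (Nat.pair 8 0))
def cimp (a b : ℕ) : ℕ := Nat.pair 9 (Nat.pair a b)
def cand (a b : ℕ) : ℕ := cneg (cimp a (cneg b))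
def ciff (a b : ℕ) : ℕ := cand (cimp a b) (cimp b a)
def call (x a : ℕ) : ℕ := Nat.pair 10 (Nat.pair x a)
def cexS (X a : ℕ) : ℕ := cneg (Nat.pair 11 (Nat.pair X (cneg a)))

@[fun_prop] theorem p_cneg (hf : Primrec f) : Primrec fun a => cneg (f a) := by
  unfold cneg; fun_prop
@[fun_prop] theorem p_cimp (hf : Primrec f) (hg : Primrec g) :
    Primrec fun a => cimp (f a) (g a) := by
  unfold cimp; fun_prop
@[fun_prop] theorem p_cand (hf : Primrec f) (hg : Primrec g) :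
    Primrec fun a => cand (f a) (g a) := by
  unfold cand; fun_prop
@[fun_prop] theorem p_ciff (hf : Primrec f) (hg : Primrec g) :
    Primrec fun a => ciff (f a) (g a) := by
  unfold ciff; fun_prop
@[fun_prop] theorem p_call (hf : Primrec f) (hg : Primrec g) :
    Primrec fun a => call (f a) (g a) := by
  unfold call; fun_prop
@[fun_prop] theorem p_cexS (hf : Primrec f) (hg : Primrec g) :
    Primrec fun a => cexS (f a) (g a) := by
  unfold cexS; fun_prop

/-- the code of `comprehension` -/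
def ccomp (n X a : ℕ) : ℕ := cexS X (call n (ciff (Nat.pair 7 (Nat.pair (Nat.pair 0 n) X)) a))

theorem ccomp_eq (n X : ℕ) (φ : Fm) : (comprehension n X φ).code = ccomp n X φ.code := rfl

@[fun_prop] theorem p_ccomp (hf : Primrec f) (hg : Primrec g) (hh : Primrec h) :
    Primrec fun a => ccomp (f a) (g a) (h a) := by
  unfold ccomp; fun_prop

/-- the code of `pairTm` -/
def cpt (m n : ℕ) : ℕ := Nat.pair 3 (Nat.pair (Nat.pair 4 (Nat.pair
  (Nat.pair 3 (Nat.pair m n)) (Nat.pair 3 (Nat.pair m n)))) m)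

@[fun_prop] theorem p_cpt (hf : Primrec f) (hg : Primrec g) :
    Primrec fun a => cpt (f a) (g a) := by
  unfold cpt; fun_prop

/-- the code of `choice` -/
def cchoice (n m X Z a : ℕ) : ℕ :=
  cimp (call n (cexS X a)) (cexS Z (call n (cexS X (cand (call m (ciff
    (Nat.pair 7 (Nat.pair (Nat.pair 0 m) X))
    (Nat.pair 7 (Nat.pair (cpt (Nat.pair 0 m) (Nat.pair 0 n)) Z)))) a))))

theorem cchoice_eq (n m X Z : ℕ) (φ : Fm) :
    (choice n m X Z φ).code = cchoice n m X Z φ.code := rfl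

@[fun_prop] theorem p_cchoice {l : α → ℕ} (hf : Primrec f) (hg : Primrec g) (hh : Primrec h)
    (hk : Primrec k) (hl : Primrec l) :
    Primrec fun a => cchoice (f a) (g a) (h a) (k a) (l a) := by
  have h1 : Primrec fun a => Nat.pair 7 (Nat.pair (Nat.pair 0 (g a)) (h a)) := by fun_prop
  have h2 : Primrec fun a => Nat.pair 7 (Nat.pair (cpt (Nat.pair 0 (g a)) (Nat.pair 0 (f a)))
    (k a)) := by fun_prop
  exact p_cimp (p_call hf (p_cexS hh hl)) (p_cexS hk (p_call hf (p_cexS hh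
    (p_cand (p_call hg (p_ciff h1 h2)) hl))))

attribute [irreducible] cchoice ccomp

theorem ah_mem0 (hf : Primrec f) : AH {0} (fun E a => f a ∈ E 0) :=
  AH.mem (Set.mem_singleton 0) hf

theorem ah_list (l : List Fm) (hf : Primrec f) : AH S (fun _ a => ∃ φ ∈ l, f a = φ.code) := by
  induction l with
  | nil => exact (AH.const False).congr (by simp)
  | cons φ l ih =>
    exact ((AH.eq hf (.const φ.code)).or ih).congr (by simp)

theorem ah_openAxiom (hf : Primrec f) :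
    AH S (fun _ a => ∃ φ : Fm, f a = φ.code ∧ OpenAxiom φ) := by
  have h : AH S (fun _ (n : ℕ) => (∃ φ ∈ basicAxioms, n = φ.code) ∨ n = inductionAxiom.code ∨
      (∃ x X a, (∃ φ : Fm, a = φ.code ∧ φ.Arith) ∧ ¬ (∃ φ : Fm, a = φ.code ∧ φ.FreeS X) ∧
        n = ccomp x X a) ∨
      (∃ x y X Z a, (∃ φ : Fm, a = φ.code ∧ φ.IsSigma) ∧ x ≠ y ∧ X ≠ Z ∧
        ¬ (∃ φ : Fm, a = φ.code ∧ φ.FreeS Z) ∧ n = cchoice x y X Z a)) := by
    refine .or (ah_list _ (by fun_prop)) (.or (.eq (by fun_prop) (by fun_prop)) (.or ?_ ?_))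
    · exact .ex (.ex (.ex (.and (ah_arith (by fun_prop)) (.and
        (.not (ah_freeS (by fun_prop) (by fun_prop))) (.eq (by fun_prop) (by fun_prop))))))
    · refine .ex (.ex (.ex (.ex (.ex ?_))))
      refine .and (ah_isSigma (by fun_prop)) ?_
      refine .and (.not (.eq (by fun_prop) (by fun_prop))) ?_
      refine .and (.not (.eq (by fun_prop) (by fun_prop))) ?_
      refine .and (.not (ah_freeS (by fun_prop) (by fun_prop))) ?_
      exact .eq (by fun_prop) (p_cchoice (by fun_prop) (by fun_prop) (by fun_prop) (by fun_prop)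
          (by fun_prop))
  refine (h.comp hf).congr fun _ a => ?_
  generalize f a = n
  constructor
  · rintro (⟨φ, h, rfl⟩ | rfl | ⟨x, X, _, ⟨φ, rfl, h1⟩, h2, rfl⟩ |
      ⟨x, y, X, Z, _, ⟨φ, rfl, h1⟩, h2, h3, h4, rfl⟩)
    · exact ⟨φ, rfl, .basic h⟩
    · exact ⟨_, rfl, .induction⟩
    · exact ⟨_, (ccomp_eq _ _ _).symm, .comprehension x X φ h1 fun h => h2 ⟨φ, rfl, h⟩⟩
    · exact ⟨_, (cchoice_eq _ _ _ _ _).symm, .choice x y X Z φ h1 h2 h3 fun h => h4 ⟨φ, rfl, h⟩⟩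
  · rintro ⟨φ, rfl, h⟩
    cases h with
    | basic h => exact Or.inl ⟨_, h, rfl⟩
    | induction => exact Or.inr (Or.inl rfl)
    | comprehension x X φ h1 h2 =>
      refine Or.inr (Or.inr (Or.inl ⟨x, X, _, ⟨φ, rfl, h1⟩, ?_, ccomp_eq _ _ _⟩))
      rintro ⟨ψ, h, h'⟩
      rw [← Fm.code_injective h] at h'
      exact h2 h'
    | choice x y X Z φ h1 h2 h3 h4 =>
      refine Or.inr (Or.inr (Or.inr ⟨x, y, X, Z, _, ⟨φ, rfl, h1⟩, h2, h3, ?_,
        cchoice_eq _ _ _ _ _⟩))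
      rintro ⟨ψ, h, h'⟩
      rw [← Fm.code_injective h] at h'
      exact h4 h'

theorem ah_sigmaAC0 (hf : Primrec f) : AH S (fun _ a => ∃ φ ∈ SigmaAC0, f a = φ.code) := by
  have h := AH.lfp1 (S := S) (R0 := fun n : ℕ => ∃ φ : Fm, n = φ.code ∧ OpenAxiom φ)
    (R1 := fun a b => ∃ x, b = Nat.pair 10 (Nat.pair x a) ∨ b = Nat.pair 11 (Nat.pair x a))
    (ah_openAxiom (by fun_prop))
    (.ex (.or (.eq (by fun_prop) (by fun_prop)) (.eq (by fun_prop) (by fun_prop))))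
  have h' : ∀ n, Lfp (fun n : ℕ => ∃ φ : Fm, n = φ.code ∧ OpenAxiom φ) (fun a _ b =>
      ∃ x, b = Nat.pair 10 (Nat.pair x a) ∨ b = Nat.pair 11 (Nat.pair x a)) n ↔
      ∃ φ : Fm, n = φ.code ∧ Generalization OpenAxiom φ := by
    intro n
    constructor
    · intro h
      induction h with
      | base h =>
        obtain ⟨φ, h, h'⟩ := h
        exact ⟨φ, h, .base h'⟩
      | step _ _ h ih _ =>
        obtain ⟨φ, h1, h2⟩ := ih
        obtain ⟨x, h | h⟩ := h
        · exact ⟨.all x φ, by rw [h, h1]; rfl, .all x h2⟩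
        · exact ⟨.allS x φ, by rw [h, h1]; rfl, .allS x h2⟩
    · rintro ⟨φ, rfl, h2⟩
      induction h2 with
      | base h => exact .base ⟨_, rfl, h⟩
      | all X h ih => exact .step ih ih ⟨X, Or.inl rfl⟩
      | allS X h ih => exact .step ih ih ⟨X, Or.inr rfl⟩
  refine ((ah_sentence hf).and (h.comp hf)).congr fun _ a => ?_
  rw [h']
  constructor
  · rintro ⟨⟨φ, h1, h2⟩, ψ, h3, h4⟩
    have := Fm.code_injective (h1.symm.trans h3)
    subst this
    exact ⟨φ, ⟨h2, h4⟩, h1⟩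
  · rintro ⟨φ, ⟨h1, h2⟩, h3⟩
    exact ⟨⟨φ, h3, h1⟩, φ, h3, h2⟩

/-! ### Assignments -/

/-- the assignment with the code `s` -/
def asg : ℕ → ℕ → ℕ
  | 0, _ => 0
  | k + 1, x => if x = k.unpair.1.unpair.1 then k.unpair.1.unpair.2 else asg k.unpair.2 x
termination_by s => s
decreasing_by exact Nat.lt_succ_of_le (Nat.unpair_right_le k)

theorem asg_zero (x : ℕ) : asg 0 x = 0 := by rw [asg]

theorem asg_upd (s x n : ℕ) : asg (Nat.pair (Nat.pair x n) s + 1) = update (asg s) x n := by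
  funext y
  rw [asg]
  simp only [Nat.unpair_pair, update_apply]

theorem ah_asg (hf : Primrec f) (hg : Primrec g) (hh : Primrec h) :
    AH S (fun _ a => h a = asg (f a) (g a)) := by
  have h1 := AH.lfp1 (S := S) (R0 := fun p : ℕ × ℕ × ℕ => p.1 = 0 ∧ p.2.2 = 0)
    (R1 := fun p q : ℕ × ℕ × ℕ => p.2.1 = q.2.1 ∧ ∃ y n, q.1 = Nat.pair (Nat.pair y n) p.1 + 1 ∧
      ((q.2.1 = y ∧ q.2.2 = n) ∨ (¬ q.2.1 = y ∧ q.2.2 = p.2.2)))
    (.and (.eq (by fun_prop) (by fun_prop)) (.eq (by fun_prop) (by fun_prop)))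
    (.and (.eq (by fun_prop) (by fun_prop)) (.ex (.ex (.and (.eq (by fun_prop) (by fun_prop))
      (.or (.and (.eq (by fun_prop) (by fun_prop)) (.eq (by fun_prop) (by fun_prop)))
      (.and (.not (.eq (by fun_prop) (by fun_prop))) (.eq (by fun_prop) (by fun_prop))))))))
  refine (h1.comp (f := fun a => (f a, g a, h a)) (by fun_prop)).congr fun _ a => ?_
  generalize f a = s
  generalize g a = x
  generalize h a = v
  constructor
  · intro hL
    generalize hp : (s, x, v) = p at hL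
    have : p.2.2 = asg p.1 p.2.1 := by
      clear hp
      induction hL with
      | base h => rw [h.1, h.2, asg_zero]
      | step _ _ h ih _ =>
        obtain ⟨h1, y, n, h2, h3⟩ := h
        rw [h2, asg_upd]
        rcases h3 with ⟨h3, h4⟩ | ⟨h3, h4⟩
        · rw [h3, update_self, h4]
        · rw [update_of_ne h3, h4, ih, h1]
    subst hp
    exact this
  · rintro rfl
    induction s using Nat.strong_induction_on with
    | _ s ih =>
      rcases s with _ | s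
      · exact .base ⟨rfl, asg_zero x⟩
      · have ih' := ih s.unpair.2 (Nat.lt_succ_of_le (Nat.unpair_right_le s))
        have e : s + 1 = Nat.pair (Nat.pair s.unpair.1.unpair.1 s.unpair.1.unpair.2) s.unpair.2 + 1 := by
          simp
        refine .step ih' ih' ⟨rfl, s.unpair.1.unpair.1, s.unpair.1.unpair.2, e, ?_⟩
        simp only
        rw [e, asg_upd]
        by_cases h : x = s.unpair.1.unpair.1
        · exact Or.inl ⟨h, by rw [h, update_self]⟩
        · exact Or.inr ⟨h, by rw [update_of_ne h]⟩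

theorem ah_val (hf : Primrec f) (hg : Primrec g) (hh : Primrec h) :
    AH S (fun _ a => ∃ t : Tm, g a = t.code ∧ h a = t.val (asg (f a))) := by
  have h' := AH.tmFold (S := S) (P := ℕ) (fun s t => t.val (asg s))
    (v0 := fun s x d => d = asg s x) (v1 := fun _ d => d = 0) (v2 := fun _ d => d = 1)
    (v3 := fun _ a b d => d = a + b) (v4 := fun _ a b d => d = a * b)
    (fun _ _ _ => eq_comm) (fun _ _ => eq_comm) (fun _ _ => eq_comm)
    (fun _ _ _ _ => eq_comm) (fun _ _ _ _ => eq_comm)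
    (ah_asg (by fun_prop) (by fun_prop) (by fun_prop))
    (.eq (by fun_prop) (by fun_prop)) (.eq (by fun_prop) (by fun_prop))
    (.eq (by fun_prop) (by fun_prop)) (.eq (by fun_prop) (by fun_prop))
  exact h'.comp (f := fun a => (f a, g a, h a)) (by fun_prop)

theorem exists_asg (e : ℕ → ℕ) (n : ℕ) : ∃ s, ∀ x < n, asg s x = e x := by
  induction n with
  | zero => exact ⟨0, by simp⟩
  | succ n ih =>
    obtain ⟨s, hs⟩ := ih
    refine ⟨Nat.pair (Nat.pair n (e n)) s + 1, fun x hx => ?_⟩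
    rw [asg_upd]
    by_cases h : x = n
    · rw [h, update_self]
    · rw [update_of_ne h]
      exact hs x (by omega)

theorem Tm.bound (t : Tm) : ∃ n, ∀ x, t.Occ x → x < n := by
  induction t with
  | var y => exact ⟨y + 1, fun x h => by rw [Tm.occ_var] at h; omega⟩
  | zero => exact ⟨0, fun x h => h.elim⟩
  | one => exact ⟨0, fun x h => h.elim⟩
  | add s t ih1 ih2 =>
    obtain ⟨m, hm⟩ := ih1
    obtain ⟨n, hn⟩ := ih2
    exact ⟨max m n, fun x h => h.elim (fun h => lt_max_of_lt_left (hm x h))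
      (fun h => lt_max_of_lt_right (hn x h))⟩
  | mul s t ih1 ih2 =>
    obtain ⟨m, hm⟩ := ih1
    obtain ⟨n, hn⟩ := ih2
    exact ⟨max m n, fun x h => h.elim (fun h => lt_max_of_lt_left (hm x h))
      (fun h => lt_max_of_lt_right (hn x h))⟩

theorem Fm.bound (φ : Fm) : ∃ n, ∀ x, φ.Free x → x < n := by
  induction φ with
  | eq s t =>
    obtain ⟨m, hm⟩ := s.bound
    obtain ⟨n, hn⟩ := t.bound
    exact ⟨max m n, fun x h => h.elim (fun h => lt_max_of_lt_left (hm x h))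
      (fun h => lt_max_of_lt_right (hn x h))⟩
  | lt s t =>
    obtain ⟨m, hm⟩ := s.bound
    obtain ⟨n, hn⟩ := t.bound
    exact ⟨max m n, fun x h => h.elim (fun h => lt_max_of_lt_left (hm x h))
      (fun h => lt_max_of_lt_right (hn x h))⟩
  | mem t X => exact t.bound
  | bot => exact ⟨0, fun x h => h.elim⟩
  | imp φ ψ ih1 ih2 =>
    obtain ⟨m, hm⟩ := ih1
    obtain ⟨n, hn⟩ := ih2
    exact ⟨max m n, fun x h => h.elim (fun h => lt_max_of_lt_left (hm x h))
      (fun h => lt_max_of_lt_right (hn x h))⟩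
  | all y φ ih =>
    obtain ⟨m, hm⟩ := ih
    exact ⟨m, fun x h => hm x h.2⟩
  | allS y φ ih => exact ih

theorem Fm.exists_asg (φ : Fm) (e : ℕ → ℕ) (E : ℕ → Set ℕ) :
    ∃ s, φ.Holds (asg s) E ↔ φ.Holds e E := by
  obtain ⟨n, hn⟩ := φ.bound
  obtain ⟨s, hs⟩ := SO.exists_asg e n
  exact ⟨s, Fm.holds_congr φ (fun x hx => hs x (hn x hx)) fun _ _ => rfl⟩

/-! ### Satisfaction classes -/

/-- `W` codes a set assignment and the satisfaction relation of arithmetical formulas for this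
assignment -/
def Clauses (W : Set ℕ) : Prop :=
  (∀ s a b, (∃ t : Tm, a = t.code) → (∃ t : Tm, b = t.code) →
    (Nat.pair 0 (Nat.pair (Nat.pair 5 (Nat.pair a b)) s) ∈ W ↔
    ∃ v, (∃ t : Tm, a = t.code ∧ v = t.val (asg s)) ∧ ∃ t : Tm, b = t.code ∧ v = t.val (asg s))) ∧
  (∀ s a b, (∃ t : Tm, a = t.code) → (∃ t : Tm, b = t.code) →
    (Nat.pair 0 (Nat.pair (Nat.pair 6 (Nat.pair a b)) s) ∈ W ↔
    ∃ v w, (∃ t : Tm, a = t.code ∧ v = t.val (asg s)) ∧ (∃ t : Tm, b = t.code ∧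
      w = t.val (asg s)) ∧ v < w)) ∧
  (∀ s a X, (∃ t : Tm, a = t.code) → (Nat.pair 0 (Nat.pair (Nat.pair 7 (Nat.pair a X)) s) ∈ W ↔
    ∃ v, (∃ t : Tm, a = t.code ∧ v = t.val (asg s)) ∧ Nat.pair (X + 1) v ∈ W)) ∧
  (∀ s, ¬ Nat.pair 0 (Nat.pair (Nat.pair 8 0) s) ∈ W) ∧
  (∀ s a b, (∃ φ : Fm, a = φ.code) → (∃ φ : Fm, b = φ.code) →
    (Nat.pair 0 (Nat.pair (Nat.pair 9 (Nat.pair a b)) s) ∈ W ↔
    (Nat.pair 0 (Nat.pair a s) ∈ W → Nat.pair 0 (Nat.pair b s) ∈ W))) ∧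
  (∀ s x a, (∃ φ : Fm, a = φ.code) →
    (Nat.pair 0 (Nat.pair (Nat.pair 10 (Nat.pair x a)) s) ∈ W ↔
    ∀ v, Nat.pair 0 (Nat.pair a (Nat.pair (Nat.pair x v) s + 1)) ∈ W))

theorem ah_clauses : AH {0} (fun E (_ : α) => Clauses (E 0)) := by
  refine .and ?_ (.and ?_ (.and ?_ (.and ?_ (.and ?_ ?_))))
  · exact .all (.all (.all (.imp (ah_isTm (by fun_prop)) (.imp (ah_isTm (by fun_prop))
      (.iff (ah_mem0 (by fun_prop)) (.ex (.and (ah_val (by fun_prop) (by fun_prop) (by fun_prop))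
      (ah_val (by fun_prop) (by fun_prop) (by fun_prop)))))))))
  · exact .all (.all (.all (.imp (ah_isTm (by fun_prop)) (.imp (ah_isTm (by fun_prop))
      (.iff (ah_mem0 (by fun_prop)) (.ex (.ex (.and
      (ah_val (by fun_prop) (by fun_prop) (by fun_prop))
      (.and (ah_val (by fun_prop) (by fun_prop) (by fun_prop))
      (.lt (by fun_prop) (by fun_prop)))))))))))
  · exact .all (.all (.all (.imp (ah_isTm (by fun_prop)) (.iff (ah_mem0 (by fun_prop))
      (.ex (.and (ah_val (by fun_prop) (by fun_prop) (by fun_prop))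
      (ah_mem0 (by fun_prop))))))))
  · exact .all (.not (ah_mem0 (by fun_prop)))
  · exact .all (.all (.all (.imp (ah_isFm (by fun_prop)) (.imp (ah_isFm (by fun_prop))
      (.iff (ah_mem0 (by fun_prop)) (.imp (ah_mem0 (by fun_prop))
      (ah_mem0 (by fun_prop))))))))
  · exact .all (.all (.all (.imp (ah_isFm (by fun_prop)) (.iff (ah_mem0 (by fun_prop))
      (.all (ah_mem0 (by fun_prop)))))))

theorem Clauses.truth {W : Set ℕ} (hW : Clauses W) (φ : Fm) (hφ : φ.Arith) : ∀ s,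
    Nat.pair 0 (Nat.pair φ.code s) ∈ W ↔ φ.Holds (asg s) (fun X => {m | Nat.pair (X + 1) m ∈ W}) := by
  obtain ⟨h1, h2, h3, h4, h5, h6⟩ := hW
  induction φ with
  | eq a b =>
    intro s
    rw [Fm.code, h1 s _ _ ⟨a, rfl⟩ ⟨b, rfl⟩]
    simp
  | lt a b =>
    intro s
    rw [Fm.code, h2 s _ _ ⟨a, rfl⟩ ⟨b, rfl⟩]
    simp
  | mem a X =>
    intro s
    rw [Fm.code, h3 s _ _ ⟨a, rfl⟩]
    simp
  | bot =>
    intro s
    rw [Fm.code]
    simpa using h4 s
  | imp φ ψ ih1 ih2 =>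
    intro s
    rw [Fm.code, h5 s _ _ ⟨φ, rfl⟩ ⟨ψ, rfl⟩, ih1 hφ.1, ih2 hφ.2]
    rfl
  | all x φ ih =>
    intro s
    rw [Fm.code, h6 s _ _ ⟨φ, rfl⟩]
    simp only [ih hφ, asg_upd]
    rfl
  | allS X φ => exact hφ.elim

/-- the code of a set assignment together with its satisfaction relation -/
def codeAsg (E : ℕ → Set ℕ) : Set ℕ :=
  {k | (∃ (φ : Fm) (s : ℕ), k = Nat.pair 0 (Nat.pair φ.code s) ∧ φ.Holds (asg s) E) ∨
    ∃ X v, k = Nat.pair (X + 1) v ∧ v ∈ E X}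

theorem codeAsg_sec (E : ℕ → Set ℕ) (X v : ℕ) : Nat.pair (X + 1) v ∈ codeAsg E ↔ v ∈ E X := by
  simp [codeAsg, Nat.pair_eq_pair]

theorem codeAsg_sat (E : ℕ → Set ℕ) (φ : Fm) (s : ℕ) :
    Nat.pair 0 (Nat.pair φ.code s) ∈ codeAsg E ↔ φ.Holds (asg s) E := by
  constructor
  · rintro (⟨ψ, t, h, h'⟩ | ⟨X, v, h, -⟩)
    · simp only [Nat.pair_eq_pair, Fm.code_inj] at h
      rw [h.2.1, h.2.2]
      exact h'
    · simp only [Nat.pair_eq_pair] at h
      omega
  · intro h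
    exact Or.inl ⟨φ, s, rfl, h⟩

theorem codeAsg_clauses (E : ℕ → Set ℕ) : Clauses (codeAsg E) := by
  refine ⟨?_, ?_, ?_, ?_, ?_, ?_⟩
  · rintro s _ _ ⟨a, rfl⟩ ⟨b, rfl⟩
    have := codeAsg_sat E (.eq a b) s
    rw [Fm.code] at this
    rw [this]
    simp
  · rintro s _ _ ⟨a, rfl⟩ ⟨b, rfl⟩
    have := codeAsg_sat E (.lt a b) s
    rw [Fm.code] at this
    rw [this]
    simp
  · rintro s _ X ⟨a, rfl⟩
    have := codeAsg_sat E (.mem a X) s
    rw [Fm.code] at this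
    rw [this]
    simp [codeAsg_sec]
  · intro s
    have := codeAsg_sat E .bot s
    rw [Fm.code] at this
    rw [this]
    simp
  · rintro s _ _ ⟨a, rfl⟩ ⟨b, rfl⟩
    have := codeAsg_sat E (.imp a b) s
    rw [Fm.code] at this
    rw [this, codeAsg_sat, codeAsg_sat]
    rfl
  · rintro s x _ ⟨a, rfl⟩
    have := codeAsg_sat E (.all x a) s
    rw [Fm.code] at this
    rw [this]
    simp only [codeAsg_sat, asg_upd]
    rfl

/-- `q` is the matrix of `p`, on codes -/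
def Matrix' (p : ℕ × ℕ) : Prop :=
  Lfp (fun p : ℕ × ℕ => p.1 = p.2 ∧ ∃ φ : Fm, p.1 = φ.code ∧ φ.Arith)
    (fun p _ q => p.2 = q.2 ∧ ∃ X, q.1 = Nat.pair 11 (Nat.pair X p.1)) p

theorem Fm.true_allS {X : ℕ} {φ : Fm} : (Fm.allS X φ).True ↔ φ.True := by
  constructor
  · intro h e E
    have := h e E (E X)
    rwa [update_eq_self] at this
  · intro h e E Z
    exact h _ _

theorem Matrix'.spec {p : ℕ × ℕ} (h : Matrix' p) : ∃ φ ψ : Fm, p.1 = φ.code ∧ p.2 = ψ.code ∧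
    ψ.Arith ∧ (φ.True ↔ ψ.True) := by
  induction h with
  | base h =>
    obtain ⟨h1, φ, h2, h3⟩ := h
    exact ⟨φ, φ, h2, h1 ▸ h2, h3, Iff.rfl⟩
  | step _ _ h ih _ =>
    obtain ⟨φ, ψ, h1, h2, h3, h4⟩ := ih
    obtain ⟨h5, X, h6⟩ := h
    exact ⟨.allS X φ, ψ, by rw [h6, h1]; rfl, h5 ▸ h2, h3, by rw [Fm.true_allS, h4]⟩

theorem Matrix'.exists {φ : Fm} (h : φ.IsPi) : ∃ m, Matrix' (φ.code, m) := by
  induction h with
  | @arith φ h => exact ⟨φ.code, .base ⟨rfl, φ, rfl, h⟩⟩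
  | allS X h ih =>
    obtain ⟨m, hm⟩ := ih
    exact ⟨m, .step hm hm ⟨rfl, X, rfl⟩⟩

theorem ah_matrix (hf : Primrec f) (hg : Primrec g) :
    AH S (fun _ a => Matrix' (f a, g a)) := by
  have h := AH.lfp1 (S := S) (R0 := fun p : ℕ × ℕ => p.1 = p.2 ∧ ∃ φ : Fm, p.1 = φ.code ∧ φ.Arith)
    (R1 := fun p q => p.2 = q.2 ∧ ∃ X, q.1 = Nat.pair 11 (Nat.pair X p.1))
    (.and (.eq (by fun_prop) (by fun_prop)) (ah_arith (by fun_prop)))
    (.and (.eq (by fun_prop) (by fun_prop)) (.ex (.eq (by fun_prop) (by fun_prop))))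
  exact h.comp (f := fun a => (f a, g a)) (by fun_prop)

theorem ah_truth (hf : Primrec f) : AH {0} (fun E a => Clauses (E 0) →
    ∀ m, Matrix' (f a, m) → ∀ s, Nat.pair 0 (Nat.pair m s) ∈ E 0) :=
  .imp ah_clauses (.all (.imp (ah_matrix (by fun_prop) (by fun_prop))
    (.all (ah_mem0 (by fun_prop)))))

theorem truth_spec {φ : Fm} (hφ : φ.IsPi) : φ.True ↔ ∀ W : Set ℕ, Clauses W →
    ∀ m, Matrix' (φ.code, m) → ∀ s, Nat.pair 0 (Nat.pair m s) ∈ W := by
  constructor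
  · intro h W hW m hm s
    obtain ⟨φ', ψ, h1, h2, h3, h4⟩ := hm.spec
    simp only at h1 h2
    rw [← Fm.code_injective h1] at h4
    rw [h2, hW.truth ψ h3]
    exact h4.1 h _ _
  · intro h
    obtain ⟨m, hm⟩ := Matrix'.exists hφ
    obtain ⟨φ', ψ, h1, h2, h3, h4⟩ := hm.spec
    simp only at h1 h2
    rw [← Fm.code_injective h1] at h4
    refine h4.2 fun e E => ?_
    obtain ⟨s, hs⟩ := ψ.exists_asg e E
    have := h (codeAsg E) (codeAsg_clauses E) m hm s
    rw [h2, codeAsg_sat] at this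
    exact hs.1 this

end

/-- a formula with the variables `i`, `j` for a relation between numbers -/
def pairAt (φ : Fm) (i j : ℕ) : Fm :=
  .ex 3 (.and (pairF (.var i) (.var j) (.var 3)) (at1 φ 3))

theorem holds_pairAt {φ : Fm} {i j : ℕ} (hi : i ≠ 3) (hj : j ≠ 3) {R : (ℕ → Set ℕ) → ℕ × ℕ → Prop}
    (h : ∀ e E a, e 0 = encode a → (φ.Holds e E ↔ R E a)) (e : ℕ → ℕ) (E : ℕ → Set ℕ) :
    (pairAt φ i j).Holds e E ↔ R E (e i, e j) := by
  simp only [pairAt, Fm.holds_ex, Fm.holds_and, holds_pairF, Tm.val_var, update_self,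
    update_of_ne hi, update_of_ne hj, holds_at1 (show (3 : ℕ) ≠ 0 by norm_num)]
  constructor
  · rintro ⟨n, rfl, hn⟩
    exact (h _ E (e i, e j) (by simp)).1 hn
  · intro hR
    exact ⟨_, rfl, (h _ E (e i, e j) (by simp)).2 hR⟩

theorem free_pairAt {φ : Fm} {i j : ℕ} (h : ∀ x, φ.Free x → x = 0) (x : ℕ)
    (hx : (pairAt φ i j).Free x) : x = i ∨ x = j := by
  simp only [pairAt, Fm.free_ex, Fm.free_and, free_pairF, Tm.occ_var] at hx
  rcases hx with ⟨h3, hx | hx⟩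
  · omega
  · exact absurd (free_at1 h x hx).symm h3

/-- The definitions of the structure `Arithmetization` can be satisfied. -/
theorem nonempty_arithmetization : Nonempty Arithmetization := by
  obtain ⟨M, m1, m2, m3, m4⟩ := ah_mem (S := ∅) (α := ℕ × ℕ) (f := fun p => p.1)
    (g := fun p => p.2) (by fun_prop) (by fun_prop)
  obtain ⟨D, d1, d2, d3, d4⟩ := ah_prf (S := ∅) (α := ℕ × ℕ) (f := fun p => p.2)
    (g := fun p => p.1) (by fun_prop) (by fun_prop)
  obtain ⟨P, p1, p2, p3, p4⟩ := (ah_sentence (S := ∅) (α := ℕ) (f := fun p => p)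
    (by fun_prop)).and (ah_isPi (S := ∅) (α := ℕ) (f := fun p => p) (by fun_prop))
  obtain ⟨θ, t1, t2, t3, t4⟩ := ah_truth (α := ℕ) (f := fun p => p) (by fun_prop)
  refine ⟨⟨pairAt M 1 2, pairAt D 0 1, P, .allS 0 θ, ?_, ?_, p1, ⟨0, θ, t1, rfl⟩,
    free_pairAt m2, free_pairAt d2, p2, t2, ?_, ?_, ?_, ?_, ?_, ?_, ?_, ?_⟩⟩
  · simp [pairAt, arith_pairF, at1, m1]
  · simp [pairAt, arith_pairF, at1, d1]
  · intro X hX
    simp only [pairAt, Fm.freeS_ex, Fm.freeS_and] at hX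
    rcases hX with hX | hX
    · exact freeS_pairF _ _ _ _ hX
    · exact m3 X (freeS_at1 hX)
  · intro X hX
    simp only [pairAt, Fm.freeS_ex, Fm.freeS_and] at hX
    rcases hX with hX | hX
    · exact freeS_pairF _ _ _ _ hX
    · exact d3 X (freeS_at1 hX)
  · exact fun X hX => p3 X hX
  · intro X hX
    exact hX.1 (t3 X hX.2).symm
  · intro e E
    exact holds_pairAt (by norm_num) (by norm_num) m4 e E
  · intro e E
    exact holds_pairAt (by norm_num) (by norm_num) d4 e E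
  · intro e E
    rw [p4 e E (e 0) rfl]
    constructor
    · rintro ⟨⟨φ, h1, h2⟩, ψ, h3, h4⟩
      have := Fm.code_injective (h1.symm.trans h3)
      subst this
      exact ⟨φ, h2, h4, h1⟩
    · rintro ⟨φ, h1, h2, h3⟩
      exact ⟨⟨φ, h3, h1⟩, φ, h3, h2⟩
  · intro φ hs hpi e E he
    rw [truth_spec hpi, Fm.holds_allS]
    refine forall_congr' fun W => ?_
    rw [t4 e (update E 0 W) (e 0) rfl, he]
    simp only [update_self]

theorem exists_definition (σ : Fm) : ∃ τ₀ : Fm, τ₀.Arith ∧ (∀ x, τ₀.Free x → x = 2) ∧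
    (∀ X, ¬ τ₀.FreeS X) ∧ ∀ e E, τ₀.Holds e E ↔ ∃ φ ∈ insert σ SigmaAC0, e 2 = φ.code := by
  obtain ⟨A, a1, a2, a3, a4⟩ := (ah_sigmaAC0 (S := ∅) (α := ℕ) (f := fun p => p)
    (by fun_prop)).or (AH.eq (α := ℕ) (f := fun p => p) (g := fun _ => σ.code) (by fun_prop)
      (by fun_prop))
  refine ⟨at1 A 2, by simp [at1, a1], free_at1 a2, fun X hX => a3 X (freeS_at1 hX), ?_⟩
  intro e E
  rw [holds_at1 (show (2 : ℕ) ≠ 0 by norm_num), a4 _ E (e 2) (by simp)]
  constructor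
  · rintro (⟨φ, h1, h2⟩ | h)
    · exact ⟨φ, Or.inr h1, h2⟩
    · exact ⟨σ, Or.inl rfl, h⟩
  · rintro ⟨φ, rfl | h, h'⟩
    · exact Or.inr h'
    · exact Or.inl ⟨φ, h, h'⟩

end Pool.Agent.H9x.SO
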