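import Pool.Agent.H9x.SO.Sound

/-! The reflection sentence is provable -/

set_option autoImplicit false

namespace Pool.Agent.H9x.SO

open Function

/-! ### Injectivity of the coding -/

theorem Tm.code_injective : Function.Injective Tm.code := by
  intro s
  induction s with
  | var x =>
    intro t h
    cases t <;> simp [Tm.code, Nat.pair_eq_pair] at h
    rw [h]
  | zero =>
    intro t h
    cases t <;> simp [Tm.code, Nat.pair_eq_pair] at h
    rfl
  | one =>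
    intro t h
    cases t <;> simp [Tm.code, Nat.pair_eq_pair] at h
    rfl
  | add a b ih1 ih2 =>
    intro t h
    cases t <;> simp [Tm.code, Nat.pair_eq_pair] at h
    rw [ih1 h.1, ih2 h.2]
  | mul a b ih1 ih2 =>
    intro t h
    cases t <;> simp [Tm.code, Nat.pair_eq_pair] at h
    rw [ih1 h.1, ih2 h.2]

theorem Fm.code_injective : Function.Injective Fm.code := by
  intro s
  induction s with
  | eq a b =>
    intro t h
    cases t <;> simp [Fm.code, Nat.pair_eq_pair] at h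
    rw [Tm.code_injective h.1, Tm.code_injective h.2]
  | lt a b =>
    intro t h
    cases t <;> simp [Fm.code, Nat.pair_eq_pair] at h
    rw [Tm.code_injective h.1, Tm.code_injective h.2]
  | mem a X =>
    intro t h
    cases t <;> simp [Fm.code, Nat.pair_eq_pair] at h
    rw [Tm.code_injective h.1, h.2]
  | bot =>
    intro t h
    cases t <;> simp [Fm.code, Nat.pair_eq_pair] at h
    rfl
  | imp a b ih1 ih2 =>
    intro t h
    cases t <;> simp [Fm.code, Nat.pair_eq_pair] at h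
    rw [ih1 h.1, ih2 h.2]
  | all x a ih =>
    intro t h
    cases t <;> simp [Fm.code, Nat.pair_eq_pair] at h
    rw [h.1, ih h.2]
  | allS x a ih =>
    intro t h
    cases t <;> simp [Fm.code, Nat.pair_eq_pair] at h
    rw [h.1, ih h.2]

theorem codeList_injective : Function.Injective codeList := by
  intro Γ
  induction Γ with
  | nil =>
    intro Δ h
    cases Δ with
    | nil => rfl
    | cons a Δ => simp [codeList] at h
  | cons φ Γ ih =>
    intro Δ h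
    cases Δ with
    | nil => simp [codeList] at h
    | cons ψ Δ =>
      simp only [codeList, Nat.add_right_cancel_iff, Nat.pair_eq_pair] at h
      rw [Fm.code_injective h.1, ih h.2]

/-! ### Free variables of the defined connectives -/

@[simp] theorem Fm.free_imp (φ ψ : Fm) (x : ℕ) : (Fm.imp φ ψ).Free x ↔ φ.Free x ∨ ψ.Free x :=
  Iff.rfl
@[simp] theorem Fm.free_all (y : ℕ) (φ : Fm) (x : ℕ) :
    (Fm.all y φ).Free x ↔ y ≠ x ∧ φ.Free x := Iff.rfl
@[simp] theorem Fm.free_allS (Y : ℕ) (φ : Fm) (x : ℕ) :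
    (Fm.allS Y φ).Free x ↔ φ.Free x := Iff.rfl
@[simp] theorem Fm.free_bot (x : ℕ) : Fm.bot.Free x ↔ False := Iff.rfl
@[simp] theorem Fm.free_neg (φ : Fm) (x : ℕ) : φ.neg.Free x ↔ φ.Free x := by
  simp [Fm.neg]
@[simp] theorem Fm.free_and (φ ψ : Fm) (x : ℕ) : (φ.and ψ).Free x ↔ φ.Free x ∨ ψ.Free x := by
  simp [Fm.and]
@[simp] theorem Fm.free_or (φ ψ : Fm) (x : ℕ) : (φ.or ψ).Free x ↔ φ.Free x ∨ ψ.Free x := by
  simp [Fm.or]
@[simp] theorem Fm.free_iff (φ ψ : Fm) (x : ℕ) : (φ.iff ψ).Free x ↔ φ.Free x ∨ ψ.Free x := by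
  simp [Fm.iff]; tauto
@[simp] theorem Fm.free_ex (y : ℕ) (φ : Fm) (x : ℕ) :
    (Fm.ex y φ).Free x ↔ y ≠ x ∧ φ.Free x := by simp [Fm.ex]
@[simp] theorem Fm.free_exS (y : ℕ) (φ : Fm) (x : ℕ) :
    (Fm.exS y φ).Free x ↔ φ.Free x := by simp [Fm.exS]

@[simp] theorem Fm.freeS_imp (φ ψ : Fm) (x : ℕ) : (Fm.imp φ ψ).FreeS x ↔ φ.FreeS x ∨ ψ.FreeS x :=
  Iff.rfl
@[simp] theorem Fm.freeS_all (y : ℕ) (φ : Fm) (x : ℕ) :
    (Fm.all y φ).FreeS x ↔ φ.FreeS x := Iff.rfl
@[simp] theorem Fm.freeS_allS (Y : ℕ) (φ : Fm) (x : ℕ) :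
    (Fm.allS Y φ).FreeS x ↔ Y ≠ x ∧ φ.FreeS x := Iff.rfl
@[simp] theorem Fm.freeS_bot (x : ℕ) : Fm.bot.FreeS x ↔ False := Iff.rfl
@[simp] theorem Fm.freeS_neg (φ : Fm) (x : ℕ) : φ.neg.FreeS x ↔ φ.FreeS x := by
  simp [Fm.neg]
@[simp] theorem Fm.freeS_and (φ ψ : Fm) (x : ℕ) : (φ.and ψ).FreeS x ↔ φ.FreeS x ∨ ψ.FreeS x := by
  simp [Fm.and]
@[simp] theorem Fm.freeS_or (φ ψ : Fm) (x : ℕ) : (φ.or ψ).FreeS x ↔ φ.FreeS x ∨ ψ.FreeS x := by
  simp [Fm.or]
@[simp] theorem Fm.freeS_iff (φ ψ : Fm) (x : ℕ) : (φ.iff ψ).FreeS x ↔ φ.FreeS x ∨ ψ.FreeS x := by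
  simp [Fm.iff]; tauto
@[simp] theorem Fm.freeS_ex (y : ℕ) (φ : Fm) (x : ℕ) :
    (Fm.ex y φ).FreeS x ↔ φ.FreeS x := by simp [Fm.ex]
@[simp] theorem Fm.freeS_exS (y : ℕ) (φ : Fm) (x : ℕ) :
    (Fm.exS y φ).FreeS x ↔ y ≠ x ∧ φ.FreeS x := by simp [Fm.exS]

@[simp] theorem Fm.arith_imp (φ ψ : Fm) : (Fm.imp φ ψ).Arith ↔ φ.Arith ∧ ψ.Arith := Iff.rfl
@[simp] theorem Fm.arith_all (y : ℕ) (φ : Fm) : (Fm.all y φ).Arith ↔ φ.Arith := Iff.rfl
@[simp] theorem Fm.arith_neg (φ : Fm) : φ.neg.Arith ↔ φ.Arith := by simp [Fm.neg, Fm.Arith]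
@[simp] theorem Fm.arith_and (φ ψ : Fm) : (φ.and ψ).Arith ↔ φ.Arith ∧ ψ.Arith := by
  simp [Fm.and]
@[simp] theorem Fm.arith_or (φ ψ : Fm) : (φ.or ψ).Arith ↔ φ.Arith ∧ ψ.Arith := by
  simp [Fm.or]
@[simp] theorem Fm.arith_iff (φ ψ : Fm) : (φ.iff ψ).Arith ↔ φ.Arith ∧ ψ.Arith := by
  simp [Fm.iff]; tauto
@[simp] theorem Fm.arith_ex (y : ℕ) (φ : Fm) : (Fm.ex y φ).Arith ↔ φ.Arith := by simp [Fm.ex]

/-! ### Some derived rules -/

theorem Tm.subst_self (x : ℕ) : ∀ t : Tm, t.subst x (.var x) = t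
  | .var y => by
    by_cases h : y = x
    · subst h; simp [Tm.subst]
    · simp [Tm.subst, h]
  | .zero => rfl
  | .one => rfl
  | .add s t => by simp [Tm.subst, Tm.subst_self x s, Tm.subst_self x t]
  | .mul s t => by simp [Tm.subst, Tm.subst_self x s, Tm.subst_self x t]

theorem Fm.subst_self (x : ℕ) (φ : Fm) : φ.subst x (.var x) = φ := by
  induction φ with
  | eq s t => simp [Fm.subst, Tm.subst_self]
  | lt s t => simp [Fm.subst, Tm.subst_self]
  | mem t X => simp [Fm.subst, Tm.subst_self]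
  | bot => rfl
  | imp φ ψ ih1 ih2 => simp [Fm.subst, ih1, ih2]
  | all y φ ih => simp [Fm.subst, ih]
  | allS Y φ ih => simp [Fm.subst, ih]

theorem Fm.freeFor_self (x : ℕ) (φ : Fm) : φ.FreeFor x (.var x) := by
  induction φ with
  | eq s t => trivial
  | lt s t => trivial
  | mem t X => trivial
  | bot => trivial
  | imp φ ψ ih1 ih2 => exact ⟨ih1, ih2⟩
  | all y φ ih =>
    by_cases h : y = x
    · exact Or.inl h
    · exact Or.inr (Or.inr ⟨fun hh => h hh.symm, ih⟩)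
  | allS Y φ ih => exact ih

theorem Fm.substS_self (X : ℕ) (φ : Fm) : φ.substS X X = φ := by
  induction φ with
  | eq s t => rfl
  | lt s t => rfl
  | mem t Z =>
    simp only [Fm.substS]
    by_cases h : Z = X
    · subst h; simp
    · rw [if_neg h]
  | bot => rfl
  | imp φ ψ ih1 ih2 => simp [Fm.substS, ih1, ih2]
  | all y φ ih => simp [Fm.substS, ih]
  | allS Y φ ih => simp [Fm.substS, ih]

theorem Fm.freeForS_self (X : ℕ) (φ : Fm) : φ.FreeForS X X := by
  induction φ with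
  | eq s t => trivial
  | lt s t => trivial
  | mem t X => trivial
  | bot => trivial
  | imp φ ψ ih1 ih2 => exact ⟨ih1, ih2⟩
  | all y φ ih => exact ih
  | allS Y φ ih =>
    by_cases h : Y = X
    · exact Or.inl h
    · exact Or.inr (Or.inr ⟨h, ih⟩)

namespace Prf

variable {Γ : List Fm} {φ ψ χ : Fm}

theorem self {x : ℕ} (h : Prf Γ (.all x φ)) : Prf Γ φ := by
  have := Prf.allE x (.var x) (Fm.freeFor_self x φ) h
  rwa [Fm.subst_self] at this

theorem selfS {X : ℕ} (h : Prf Γ (.allS X φ)) : Prf Γ φ := by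
  have := Prf.allSE X X (Fm.freeForS_self X φ) h
  rwa [Fm.substS_self] at this

theorem h0 : Prf (φ :: Γ) φ := .hyp (by simp)
theorem h1 : Prf (ψ :: φ :: Γ) φ := .hyp (by simp)

theorem andE1 (h : Prf Γ (.and φ ψ)) : Prf Γ φ := by
  refine .impE (.impI (.botC (.impE (φ := .imp φ (.neg ψ)) h1 (.impI ?_)))) h
  exact .impI (.impE (φ := φ) (.hyp (by simp [Fm.neg])) (.hyp (by simp)))

theorem andE2 (h : Prf Γ (.and φ ψ)) : Prf Γ ψ := by
  refine .impE (.impI (.botC (.impE (φ := .imp φ (.neg ψ)) h1 (.impI ?_)))) h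
  exact .hyp (by simp)

theorem cases (h1' : Prf Γ (.imp φ χ)) (h2 : Prf Γ (.imp (.neg φ) χ)) : Prf Γ χ := by
  refine .impE (.impE (.impI (.impI (.botC ?_))) h1') h2
  -- context: neg χ, imp (neg φ) χ, imp φ χ, Γ
  refine .impE (φ := χ) h0 ?_
  refine .impE (φ := .neg φ) (.hyp (by simp)) (.impI ?_)
  exact .impE (φ := χ) (.hyp (by simp [Fm.neg])) (.impE (φ := φ) (.hyp (by simp)) h0)

end Prf

/-! ### The theory -/

section

variable (𝒜 : Arithmetization) (τ₀ : Fm)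

/-- pure logic is `Π¹₁`-sound -/
def logicSound : Fm :=
  .all 0 (.all 1 (.imp 𝒜.isPi (.imp 𝒜.derives (.imp (.all 2 (.neg 𝒜.isElem)) 𝒜.tr))))

/-- the arithmetical part of the `Π¹₁` definition: the theory defined by `τ₀` is sound -/
def rho (θ : Fm) : Fm :=
  .all 0 (.all 1 (.imp 𝒜.isPi (.imp 𝒜.derives (.imp (.all 2 (.imp 𝒜.isElem τ₀)) θ))))

/-- `a` is an axiom and the theory is `Π¹₁`-sound -/
def tau (Z : ℕ) (θ : Fm) : Fm := .allS Z (.and τ₀ (rho 𝒜 τ₀ θ))

end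

theorem logicSound_sentence (𝒜 : Arithmetization) : (logicSound 𝒜).Sentence := by
  have a1 := 𝒜.isElem_free
  have a2 := 𝒜.derives_free
  have a3 := 𝒜.isPi_free
  have a4 := 𝒜.tr_free
  have b1 := 𝒜.isElem_freeS
  have b2 := 𝒜.derives_freeS
  have b3 := 𝒜.isPi_freeS
  have b4 := 𝒜.tr_freeS
  constructor
  · intro x
    simp only [logicSound, Fm.free_all, Fm.free_imp, Fm.free_neg, not_and, not_or]
    intro h0 h1
    refine ⟨fun h => h0 (a3 x h).symm, fun h => ?_, fun h2 h => ?_, fun h => h0 (a4 x h).symm⟩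
    · rcases a2 x h with h | h
      · exact h0 h.symm
      · exact h1 h.symm
    · rcases a1 x h with h | h
      · exact h1 h.symm
      · exact h2 h.symm
  · intro x
    simp only [logicSound, Fm.freeS_all, Fm.freeS_imp, Fm.freeS_neg, not_or]
    exact ⟨b3 x, b2 x, b1 x, b4 x⟩

theorem logicSound_true (𝒜 : Arithmetization) : (logicSound 𝒜).True := by
  intro e E
  simp only [logicSound, Fm.holds_all, Fm.holds_imp, Fm.holds_neg]
  intro x h hpi hd hm
  rw [𝒜.isPi_spec] at hpi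
  rw [𝒜.derives_spec] at hd
  obtain ⟨φ, hs, hpi, hx⟩ := hpi
  obtain ⟨Γ, ψ, hΓ, hψ, hp⟩ := hd
  have hφψ : φ = ψ := Fm.code_injective (hx.symm.trans hψ)
  subst hφψ
  rw [𝒜.tr_spec φ hs hpi _ _ hx]
  intro e' E'
  refine hp.sound e' E' fun χ hχ => ?_
  exfalso
  refine hm χ.code ((𝒜.isElem_spec _ _).2 ⟨Γ, χ, ?_, ?_, hχ⟩)
  · simpa using hΓ
  · simp

section deriv

variable {𝒜 : Arithmetization} {τ₀ θ : Fm} {Z : ℕ}

theorem derivation (htr : 𝒜.tr = .allS Z θ) (ht : ∀ x, τ₀.Free x → x = 2)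
    (htS : ∀ X, ¬ τ₀.FreeS X) :
    Prf [logicSound 𝒜] (𝒜.reflection (tau 𝒜 τ₀ Z θ)) := by
  have a1 := 𝒜.isElem_free
  have a2 := 𝒜.derives_free
  have a3 := 𝒜.isPi_free
  have a4 : ∀ x, θ.Free x → x = 0 := fun x hx => 𝒜.tr_free x (by rw [htr]; exact hx)
  have b1 := 𝒜.isElem_freeS
  have b2 := 𝒜.derives_freeS
  have b3 := 𝒜.isPi_freeS
  have b4 : ∀ X, θ.FreeS X → X = Z := by
    intro X hX
    by_contra hne
    refine 𝒜.tr_freeS X ?_
    rw [htr]
    exact ⟨fun h => hne h.symm, hX⟩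
  have hS := logicSound_sentence 𝒜
  -- number variables
  have c1 : ∀ x, (rho 𝒜 τ₀ θ).Free x → False := by
    intro x
    simp only [rho, Fm.free_all, Fm.free_imp]
    rintro ⟨h0, h1, h | h | ⟨h2, h | h⟩ | h⟩
    · exact h0 (a3 x h).symm
    · rcases a2 x h with h | h
      · exact h0 h.symm
      · exact h1 h.symm
    · rcases a1 x h with h | h
      · exact h1 h.symm
      · exact h2 h.symm
    · exact h2 (ht x h).symm
    · exact h0 (a4 x h).symm
  have c2 : ∀ x, (tau 𝒜 τ₀ Z θ).Free x → x = 2 := by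
    intro x
    simp only [tau, Fm.free_allS, Fm.free_and]
    rintro (h | h)
    · exact ht x h
    · exact (c1 x h).elim
  have d2 : ∀ X, ¬ (tau 𝒜 τ₀ Z θ).FreeS X := by
    intro X
    simp only [tau, rho, Fm.freeS_allS, Fm.freeS_and, Fm.freeS_all, Fm.freeS_imp, not_and, not_or]
    intro hne
    exact ⟨htS X, b3 X, b2 X, ⟨b1 X, htS X⟩, fun h => hne (b4 X h).symm⟩
  have c3 : ∀ x, (Fm.and 𝒜.derives (.all 2 (.imp 𝒜.isElem (tau 𝒜 τ₀ Z θ)))).Free x →
      x = 0 ∨ x = 1 := by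
    intro x
    simp only [Fm.free_and, Fm.free_all, Fm.free_imp]
    rintro (h | ⟨h2, h | h⟩)
    · exact a2 x h
    · rcases a1 x h with h | h
      · exact Or.inr h
      · exact absurd h.symm h2
    · exact absurd (c2 x h).symm h2
  have d3 : ∀ X, ¬ (Fm.and 𝒜.derives (.all 2 (.imp 𝒜.isElem (tau 𝒜 τ₀ Z θ)))).FreeS X := by
    intro X
    simp only [Fm.freeS_and, Fm.freeS_all, Fm.freeS_imp, not_or]
    exact ⟨b2 X, b1 X, d2 X⟩
  have c4 : ∀ x, (𝒜.prov (tau 𝒜 τ₀ Z θ)).Free x → x = 0 := by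
    intro x
    simp only [Arithmetization.prov, Fm.free_ex]
    rintro ⟨h1, h⟩
    rcases c3 x h with h | h
    · exact h
    · exact absurd h.symm h1
  have d4 : ∀ X, ¬ (𝒜.prov (tau 𝒜 τ₀ Z θ)).FreeS X := by
    intro X
    simp only [Arithmetization.prov, Fm.freeS_ex]
    exact d3 X
  set P := 𝒜.isPi with hP
  set D := 𝒜.derives with hD
  set M := 𝒜.isElem with hM
  set τ := tau 𝒜 τ₀ Z θ with hτ
  set σ := logicSound 𝒜 with hσ
  set A := Fm.and D (.all 2 (.imp M τ)) with hA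
  have eA : 𝒜.prov τ = .neg (.all 1 (.neg A)) := rfl
  have f20 : ¬ (2 : ℕ) = 0 := by norm_num
  have f21 : ¬ (2 : ℕ) = 1 := by norm_num
  have f10 : ¬ (1 : ℕ) = 0 := by norm_num
  -- from A and M we get τ
  have getτ : ∀ Γ : List Fm, A ∈ Γ → M ∈ Γ → Prf Γ (.and τ₀ (rho 𝒜 τ₀ θ)) := fun Γ hA hM =>
    Prf.selfS (Prf.impE (Prf.self (Prf.andE2 (Prf.hyp hA))) (Prf.hyp hM))
  unfold Arithmetization.reflection
  rw [htr, ← hP]
  refine .allI 0 ?_ (.impI (.impI (.allSI Z ?_ (.botC ?_))))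
  · intro ψ hψ
    rw [List.mem_singleton] at hψ
    subst hψ
    exact hS.1 0
  · intro ψ hψ
    simp only [List.mem_cons, List.not_mem_nil, or_false] at hψ
    rcases hψ with rfl | rfl | rfl
    · exact d4 Z
    · exact b3 Z
    · exact hS.2 Z
  -- context: ¬θ, prov τ, P, σ
  refine .impE (φ := .all 1 (.neg A)) (.hyp (by rw [eA]; simp [Fm.neg])) (.allI 1 ?_ (.impI ?_))
  · intro ψ hψ
    simp only [List.mem_cons, List.not_mem_nil, or_false] at hψ
    rcases hψ with rfl | rfl | rfl | rfl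
    · rw [Fm.free_neg]; exact fun h => f10 (a4 _ h)
    · exact fun h => f10 (c4 _ h)
    · exact fun h => f10 (a3 _ h)
    · exact hS.1 1
  refine .impE (φ := θ) (.hyp (by simp [Fm.neg])) ?_
  -- context Γ3: A, ¬θ, prov τ, P, σ; goal θ
  have key1 : Prf [A, .neg θ, 𝒜.prov τ, P, σ] (.all 2 (.imp M τ₀)) := by
    refine .allI 2 ?_ (.impI (Prf.andE1 (getτ _ (by simp) (by simp))))
    intro ψ hψ
    simp only [List.mem_cons, List.not_mem_nil, or_false] at hψ
    rcases hψ with rfl | rfl | rfl | rfl | rfl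
    · intro h
      rcases c3 _ h with h | h
      · exact f20 h
      · exact f21 h
    · rw [Fm.free_neg]; exact fun h => f20 (a4 _ h)
    · exact fun h => f20 (c4 _ h)
    · exact fun h => f20 (a3 _ h)
    · exact hS.1 2
  refine .impE (.impI ?_) key1
  -- context Γ5: F1, A, ¬θ, prov τ, P, σ
  set F1 := Fm.all 2 (.imp M τ₀) with hF1
  refine Prf.cases (φ := .all 2 (.neg M)) (.impI ?_) (.impI (.botC ?_))
  · -- no axioms
    have e1 : Prf [.all 2 (.neg M), F1, A, .neg θ, 𝒜.prov τ, P, σ]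
        (.imp P (.imp D (.imp (.all 2 (.neg M)) 𝒜.tr))) :=
      Prf.self (x := 1) (Prf.self (x := 0) (Prf.hyp (φ := σ) (by simp)))
    rw [htr] at e1
    exact Prf.selfS (.impE (.impE (.impE e1 (.hyp (by simp))) (Prf.andE1 (φ := D)
      (ψ := .all 2 (.imp M τ)) (.hyp (by simp [hA])))) (.hyp (by simp)))
  · refine .impE (φ := .all 2 (.neg M)) (.hyp (by simp [Fm.neg])) (.allI 2 ?_ (.impI ?_))
    · intro ψ hψ
      simp only [List.mem_cons, List.not_mem_nil, or_false] at hψ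
      rcases hψ with rfl | rfl | rfl | rfl | rfl | rfl | rfl | rfl
      · rw [Fm.free_neg]; exact fun h => f20 (a4 _ h)
      · simp
      · simp [hF1]
      · intro h
        rcases c3 _ h with h | h
        · exact f20 h
        · exact f21 h
      · rw [Fm.free_neg]; exact fun h => f20 (a4 _ h)
      · exact fun h => f20 (c4 _ h)
      · exact fun h => f20 (a3 _ h)
      · exact hS.1 2
    · refine .impE (φ := θ) (.hyp (by simp [Fm.neg])) ?_
      have e1 : Prf [M, .neg θ, .neg (.all 2 (.neg M)), F1, A, .neg θ, 𝒜.prov τ, P, σ]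
          (.imp P (.imp D (.imp F1 θ))) :=
        Prf.self (Prf.self (Prf.andE2 (getτ _ (by simp) (by simp))))
      exact .impE (.impE (.impE e1 (.hyp (by simp))) (Prf.andE1 (φ := D)
        (ψ := .all 2 (.imp M τ)) (.hyp (by simp [hA])))) (.hyp (by simp))

end deriv

/-- The main theorem, given a definition `τ₀` of the axioms. -/
theorem main (𝒜 : Arithmetization) (T : Set Fm) (hT : ∀ φ ∈ T, φ.True)
    (hL : logicSound 𝒜 ∈ T) (τ₀ : Fm) (hτ : τ₀.Arith) (ht : ∀ x, τ₀.Free x → x = 2)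
    (htS : ∀ X, ¬ τ₀.FreeS X) (hspec : ∀ e E, τ₀.Holds e E ↔ ∃ φ ∈ T, e 2 = φ.code) :
    ∃ τ : Fm, τ.IsStrictPi ∧ (∀ x, τ.Free x → x = 2) ∧ (∀ X, ¬ τ.FreeS X) ∧
      (∀ e E, τ.Holds e E ↔ ∃ φ ∈ T, e 2 = φ.code) ∧ Provable T (𝒜.reflection τ) := by
  obtain ⟨Z, θ, hθ, htr⟩ := 𝒜.tr_pi
  have a4 : ∀ x, θ.Free x → x = 0 := fun x hx => 𝒜.tr_free x (by rw [htr]; exact hx)
  have b4 : ∀ X, θ.FreeS X → X = Z := by
    intro X hX
    by_contra hne
    refine 𝒜.tr_freeS X ?_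
    rw [htr]
    exact ⟨fun h => hne h.symm, hX⟩
  refine ⟨tau 𝒜 τ₀ Z θ, ⟨Z, _, ?_, rfl⟩, ?_, ?_, ?_, ?_⟩
  · simp only [rho, Fm.arith_and, Fm.arith_all, Fm.arith_imp]
    exact ⟨hτ, 𝒜.isPi_arith, 𝒜.derives_arith, ⟨𝒜.isElem_arith, hτ⟩, hθ⟩
  · intro x
    simp only [tau, rho, Fm.free_allS, Fm.free_and, Fm.free_all, Fm.free_imp]
    rintro (h | ⟨h0, h1, h | h | ⟨h2, h | h⟩ | h⟩)
    · exact ht x h
    · exact absurd (𝒜.isPi_free x h).symm h0
    · rcases 𝒜.derives_free x h with h | h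
      · exact absurd h.symm h0
      · exact absurd h.symm h1
    · rcases 𝒜.isElem_free x h with h | h
      · exact absurd h.symm h1
      · exact absurd h.symm h2
    · exact absurd (ht x h).symm h2
    · exact absurd (a4 x h).symm h0
  · intro X
    simp only [tau, rho, Fm.freeS_allS, Fm.freeS_and, Fm.freeS_all, Fm.freeS_imp, not_and, not_or]
    intro hne
    exact ⟨htS X, 𝒜.isPi_freeS X, 𝒜.derives_freeS X, ⟨𝒜.isElem_freeS X, htS X⟩,
      fun h => hne (b4 X h).symm⟩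
  · intro e E
    simp only [tau, Fm.holds_allS, Fm.holds_and]
    constructor
    · intro h
      exact (hspec _ _).1 (h ∅).1
    · intro h W
      refine ⟨(hspec _ _).2 h, ?_⟩
      simp only [rho, Fm.holds_all, Fm.holds_imp]
      intro x k hpi hd hm
      rw [𝒜.isPi_spec] at hpi
      rw [𝒜.derives_spec] at hd
      obtain ⟨φ, hs, hpi, hx⟩ := hpi
      obtain ⟨Γ, ψ, hΓ, hψ, hp⟩ := hd
      have hφψ : φ = ψ := Fm.code_injective (hx.symm.trans hψ)
      subst hφψ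
      have htrue : φ.True := by
        intro e' E'
        refine hp.sound e' E' fun χ hχ => ?_
        have h1 := hm χ.code ((𝒜.isElem_spec _ _).2 ⟨Γ, χ, by simpa using hΓ, by simp, hχ⟩)
        rw [hspec] at h1
        obtain ⟨χ', hχ', h2⟩ := h1
        simp only [update_self] at h2
        rw [Fm.code_injective h2]
        exact hT χ' hχ' e' E'
      have h3 := (𝒜.tr_spec φ hs hpi (update (update e 0 x) 1 k) (update E Z W) hx).2 htrue
      rw [htr] at h3
      have h4 := h3 W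
      simpa using h4
  · exact ⟨[logicSound 𝒜], by simpa using hL, derivation htr ht htS⟩

end Pool.Agent.H9x.SO
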