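import Pool.Agent.H9x.SO.Defs

/-! Soundness of the calculus; the axioms of `Σ¹₁-AC₀` are true -/

set_option autoImplicit false

namespace Pool.Agent.H9x.SO

open Function

theorem Tm.val_congr {e e' : ℕ → ℕ} : ∀ t : Tm, (∀ x, t.Occ x → e x = e' x) → t.val e = t.val e'
  | .var x, h => h x rfl
  | .zero, _ => rfl
  | .one, _ => rfl
  | .add s t, h => by
    simp only [Tm.val, Tm.val_congr s (fun x hx => h x (Or.inl hx)),
      Tm.val_congr t (fun x hx => h x (Or.inr hx))]
  | .mul s t, h => by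
    simp only [Tm.val, Tm.val_congr s (fun x hx => h x (Or.inl hx)),
      Tm.val_congr t (fun x hx => h x (Or.inr hx))]

theorem Fm.holds_congr : ∀ (φ : Fm) {e e' : ℕ → ℕ} {E E' : ℕ → Set ℕ},
    (∀ x, φ.Free x → e x = e' x) → (∀ X, φ.FreeS X → E X = E' X) →
    (φ.Holds e E ↔ φ.Holds e' E')
  | .eq s t, e, e', E, E', h, _ => by
    simp only [Fm.Holds]
    rw [Tm.val_congr s (fun x hx => h x (Or.inl hx)), Tm.val_congr t (fun x hx => h x (Or.inr hx))]
  | .lt s t, e, e', E, E', h, _ => by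
    simp only [Fm.Holds]
    rw [Tm.val_congr s (fun x hx => h x (Or.inl hx)), Tm.val_congr t (fun x hx => h x (Or.inr hx))]
  | .mem t X, e, e', E, E', h, h' => by
    simp only [Fm.Holds]
    rw [Tm.val_congr t (fun x hx => h x hx), h' X rfl]
  | .bot, e, e', E, E', _, _ => Iff.rfl
  | .imp φ ψ, e, e', E, E', h, h' => by
    simp only [Fm.Holds]
    rw [Fm.holds_congr φ (fun x hx => h x (Or.inl hx)) (fun x hx => h' x (Or.inl hx)),
      Fm.holds_congr ψ (fun x hx => h x (Or.inr hx)) (fun x hx => h' x (Or.inr hx))]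
  | .all y φ, e, e', E, E', h, h' => by
    simp only [Fm.Holds]
    refine forall_congr' fun n => Fm.holds_congr φ (fun x hx => ?_) h'
    by_cases hxy : x = y
    · subst hxy; simp
    · rw [update_of_ne hxy, update_of_ne hxy]
      exact h x ⟨fun h => hxy h.symm, hx⟩
  | .allS Y φ, e, e', E, E', h, h' => by
    simp only [Fm.Holds]
    refine forall_congr' fun n => Fm.holds_congr φ h (fun x hx => ?_)
    by_cases hxy : x = Y
    · subst hxy; simp
    · rw [update_of_ne hxy, update_of_ne hxy]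
      exact h' x ⟨fun h => hxy h.symm, hx⟩

theorem Fm.Sentence.holds_iff {φ : Fm} (h : φ.Sentence) {e e' : ℕ → ℕ} {E E' : ℕ → Set ℕ} :
    φ.Holds e E ↔ φ.Holds e' E' :=
  Fm.holds_congr φ (fun x hx => absurd hx (h.1 x)) (fun X hX => absurd hX (h.2 X))

theorem Tm.val_subst (x : ℕ) (r : Tm) (e : ℕ → ℕ) : ∀ t : Tm,
    (t.subst x r).val e = t.val (update e x (r.val e))
  | .var y => by
    by_cases h : y = x
    · subst h; simp [Tm.subst, Tm.val]
    · simp [Tm.subst, Tm.val, h]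
  | .zero => rfl
  | .one => rfl
  | .add s t => by simp only [Tm.subst, Tm.val, Tm.val_subst x r e s, Tm.val_subst x r e t]
  | .mul s t => by simp only [Tm.subst, Tm.val, Tm.val_subst x r e s, Tm.val_subst x r e t]

theorem Fm.subst_of_not_free (x : ℕ) (r : Tm) : ∀ φ : Fm, ¬ φ.Free x → φ.subst x r = φ := by
  have hT : ∀ t : Tm, ¬ t.Occ x → t.subst x r = t := by
    intro t
    induction t with
    | var y => intro h; exact if_neg h
    | zero => intro _; rfl
    | one => intro _; rfl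
    | add s t ih1 ih2 =>
      intro h
      simp only [Tm.Occ, not_or] at h
      simp only [Tm.subst, ih1 h.1, ih2 h.2]
    | mul s t ih1 ih2 =>
      intro h
      simp only [Tm.Occ, not_or] at h
      simp only [Tm.subst, ih1 h.1, ih2 h.2]
  intro φ
  induction φ with
  | eq s t =>
    intro h
    simp only [Fm.Free, not_or] at h
    simp only [Fm.subst, hT s h.1, hT t h.2]
  | lt s t =>
    intro h
    simp only [Fm.Free, not_or] at h
    simp only [Fm.subst, hT s h.1, hT t h.2]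
  | mem t X =>
    intro h
    simp only [Fm.subst, hT t h]
  | bot => intro _; rfl
  | imp φ ψ ih1 ih2 =>
    intro h
    simp only [Fm.Free, not_or] at h
    simp only [Fm.subst, ih1 h.1, ih2 h.2]
  | all y φ ih =>
    intro h
    simp only [Fm.subst]
    by_cases hy : y = x
    · rw [if_pos hy]
    · rw [if_neg hy, ih (fun hf => h ⟨hy, hf⟩)]
  | allS Y φ ih =>
    intro h
    simp only [Fm.subst, ih h]

theorem Fm.substS_of_not_free (X Y : ℕ) : ∀ φ : Fm, ¬ φ.FreeS X → φ.substS X Y = φ := by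
  intro φ
  induction φ with
  | eq s t => intro _; rfl
  | lt s t => intro _; rfl
  | mem t Z =>
    intro h
    simp only [Fm.FreeS] at h
    simp only [Fm.substS]
    rw [if_neg h]
  | bot => intro _; rfl
  | imp φ ψ ih1 ih2 =>
    intro h
    simp only [Fm.FreeS, not_or] at h
    simp only [Fm.substS, ih1 h.1, ih2 h.2]
  | all y φ ih =>
    intro h
    simp only [Fm.substS, ih h]
  | allS Z φ ih =>
    intro h
    simp only [Fm.substS]
    by_cases hy : Z = X
    · rw [if_pos hy]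
    · rw [if_neg hy, ih (fun hf => h ⟨hy, hf⟩)]

theorem Fm.holds_subst (x : ℕ) (r : Tm) : ∀ (φ : Fm) (e : ℕ → ℕ) (E : ℕ → Set ℕ),
    φ.FreeFor x r → ((φ.subst x r).Holds e E ↔ φ.Holds (update e x (r.val e)) E)
  | .eq s t, e, E, _ => by simp only [Fm.subst, Fm.Holds, Tm.val_subst]
  | .lt s t, e, E, _ => by simp only [Fm.subst, Fm.Holds, Tm.val_subst]
  | .mem t X, e, E, _ => by simp only [Fm.subst, Fm.Holds, Tm.val_subst]
  | .bot, e, E, _ => Iff.rfl
  | .imp φ ψ, e, E, h => by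
    simp only [Fm.subst, Fm.Holds, Fm.holds_subst x r φ e E h.1, Fm.holds_subst x r ψ e E h.2]
  | .all y φ, e, E, h => by
    simp only [Fm.subst]
    by_cases hy : y = x
    · rw [if_pos hy]
      subst hy
      simp only [Fm.Holds, update_idem]
    · rw [if_neg hy]
      simp only [Fm.Holds]
      refine forall_congr' fun n => ?_
      rcases h with h | h | ⟨h1, h2⟩
      · exact absurd h hy
      · rw [Fm.subst_of_not_free x r φ h]
        refine Fm.holds_congr φ (fun z hz => ?_) (fun _ _ => rfl)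
        have hzx : z ≠ x := fun hh => h (hh ▸ hz)
        by_cases hzy : z = y
        · subst hzy; simp
        · rw [update_of_ne hzy, update_of_ne hzy, update_of_ne hzx]
      · rw [Fm.holds_subst x r φ _ E h2]
        have : r.val (update e y n) = r.val e := by
          refine Tm.val_congr r fun z hz => ?_
          have : z ≠ y := fun hh => h1 (hh ▸ hz)
          rw [update_of_ne this]
        rw [this, update_comm hy]
  | .allS Y φ, e, E, h => by
    simp only [Fm.subst, Fm.Holds]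
    exact forall_congr' fun Z => Fm.holds_subst x r φ e _ h

theorem Fm.holds_substS (X Y : ℕ) : ∀ (φ : Fm) (e : ℕ → ℕ) (E : ℕ → Set ℕ),
    φ.FreeForS X Y → ((φ.substS X Y).Holds e E ↔ φ.Holds e (update E X (E Y)))
  | .eq s t, e, E, _ => by simp only [Fm.substS, Fm.Holds]
  | .lt s t, e, E, _ => by simp only [Fm.substS, Fm.Holds]
  | .mem t Z, e, E, _ => by
    simp only [Fm.substS, Fm.Holds]
    by_cases h : Z = X
    · subst h; simp
    · rw [if_neg h, update_of_ne h]
  | .bot, e, E, _ => Iff.rfl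
  | .imp φ ψ, e, E, h => by
    simp only [Fm.substS, Fm.Holds, Fm.holds_substS X Y φ e E h.1, Fm.holds_substS X Y ψ e E h.2]
  | .all y φ, e, E, h => by
    simp only [Fm.substS, Fm.Holds]
    exact forall_congr' fun n => Fm.holds_substS X Y φ _ E h
  | .allS Z φ, e, E, h => by
    simp only [Fm.substS]
    by_cases hy : Z = X
    · rw [if_pos hy]
      subst hy
      simp only [Fm.Holds, update_idem]
    · rw [if_neg hy]
      simp only [Fm.Holds]
      refine forall_congr' fun n => ?_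
      rcases h with h | h | ⟨h1, h2⟩
      · exact absurd h hy
      · rw [Fm.substS_of_not_free X Y φ h]
        refine Fm.holds_congr φ (fun _ _ => rfl) (fun z hz => ?_)
        have hzx : z ≠ X := fun hh => h (hh ▸ hz)
        by_cases hzy : z = Z
        · subst hzy; simp
        · rw [update_of_ne hzy, update_of_ne hzy, update_of_ne hzx]
      · rw [Fm.holds_substS X Y φ _ _ h2, update_of_ne (fun hh => h1 hh.symm), update_comm hy]

theorem Prf.sound {Γ : List Fm} {φ : Fm} (h : Prf Γ φ) : ∀ e E, (∀ ψ ∈ Γ, ψ.Holds e E) →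
    φ.Holds e E := by
  induction h with
  | hyp h => intro e E hΓ; exact hΓ _ h
  | impI _ ih =>
    intro e E hΓ h
    exact ih e E (by simpa using ⟨h, hΓ⟩)
  | impE _ _ ih1 ih2 => intro e E hΓ; exact ih1 e E hΓ (ih2 e E hΓ)
  | @botC Γ φ _ ih =>
    intro e E hΓ
    by_contra hφ
    exact ih e E (by
      intro ψ hψ
      rcases List.mem_cons.1 hψ with rfl | hψ
      · exact hφ
      · exact hΓ _ hψ)
  | allI x hx _ ih =>
    intro e E hΓ n
    refine ih _ E fun ψ hψ => ?_
    refine (Fm.holds_congr ψ (fun z hz => ?_) fun _ _ => rfl).1 (hΓ ψ hψ)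
    have : z ≠ x := fun hh => hx ψ hψ (hh ▸ hz)
    rw [update_of_ne this]
  | allE x r hr _ ih =>
    intro e E hΓ
    rw [Fm.holds_subst _ _ _ _ _ hr]
    exact ih e E hΓ _
  | allSI X hX _ ih =>
    intro e E hΓ Z
    refine ih _ _ fun ψ hψ => ?_
    refine (Fm.holds_congr ψ (fun _ _ => rfl) (fun z hz => ?_)).1 (hΓ ψ hψ)
    have : z ≠ X := fun hh => hX ψ hψ (hh ▸ hz)
    rw [update_of_ne this]
  | allSE X Y hr _ ih =>
    intro e E hΓ
    rw [Fm.holds_substS _ _ _ _ _ hr]
    exact ih e E hΓ _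
  | eqI t => intro e E _; rfl
  | eqE x s t hs ht _ _ ih1 ih2 =>
    intro e E hΓ
    have h1 : s.val e = t.val e := ih1 e E hΓ
    have h2 := ih2 e E hΓ
    rw [Fm.holds_subst _ _ _ _ _ hs] at h2
    rw [Fm.holds_subst _ _ _ _ _ ht, ← h1]
    exact h2

theorem Provable.sound {T : Set Fm} (hT : ∀ ψ ∈ T, ψ.True) {φ : Fm} (h : Provable T φ) :
    φ.True := by
  obtain ⟨Γ, hΓ, hp⟩ := h
  exact fun e E => hp.sound e E fun ψ hψ => hT ψ (hΓ ψ hψ) e E

@[simp] theorem Fm.holds_imp (φ ψ : Fm) (e : ℕ → ℕ) (E : ℕ → Set ℕ) :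
    (Fm.imp φ ψ).Holds e E ↔ (φ.Holds e E → ψ.Holds e E) := Iff.rfl

@[simp] theorem Fm.holds_neg (φ : Fm) (e : ℕ → ℕ) (E : ℕ → Set ℕ) :
    φ.neg.Holds e E ↔ ¬ φ.Holds e E := Iff.rfl

@[simp] theorem Fm.holds_and (φ ψ : Fm) (e : ℕ → ℕ) (E : ℕ → Set ℕ) :
    (φ.and ψ).Holds e E ↔ φ.Holds e E ∧ ψ.Holds e E := by
  simp only [Fm.and, Fm.holds_neg, Fm.holds_imp]; tauto

@[simp] theorem Fm.holds_or (φ ψ : Fm) (e : ℕ → ℕ) (E : ℕ → Set ℕ) :
    (φ.or ψ).Holds e E ↔ φ.Holds e E ∨ ψ.Holds e E := by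
  simp only [Fm.or, Fm.holds_neg, Fm.holds_imp]; tauto

@[simp] theorem Fm.holds_iff (φ ψ : Fm) (e : ℕ → ℕ) (E : ℕ → Set ℕ) :
    (φ.iff ψ).Holds e E ↔ (φ.Holds e E ↔ ψ.Holds e E) := by
  simp only [Fm.iff, Fm.holds_and, Fm.holds_imp]; tauto

@[simp] theorem Fm.holds_all (x : ℕ) (φ : Fm) (e : ℕ → ℕ) (E : ℕ → Set ℕ) :
    (Fm.all x φ).Holds e E ↔ ∀ n, φ.Holds (update e x n) E := Iff.rfl

@[simp] theorem Fm.holds_allS (X : ℕ) (φ : Fm) (e : ℕ → ℕ) (E : ℕ → Set ℕ) :
    (Fm.allS X φ).Holds e E ↔ ∀ Z, φ.Holds e (update E X Z) := Iff.rfl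

@[simp] theorem Fm.holds_ex (x : ℕ) (φ : Fm) (e : ℕ → ℕ) (E : ℕ → Set ℕ) :
    (Fm.ex x φ).Holds e E ↔ ∃ n, φ.Holds (update e x n) E := by
  simp only [Fm.ex, Fm.holds_neg, Fm.holds_all]; push Not; rfl

@[simp] theorem Fm.holds_exS (X : ℕ) (φ : Fm) (e : ℕ → ℕ) (E : ℕ → Set ℕ) :
    (Fm.exS X φ).Holds e E ↔ ∃ Z, φ.Holds e (update E X Z) := by
  simp only [Fm.exS, Fm.holds_neg, Fm.holds_allS]; push Not; rfl

@[simp] theorem Fm.holds_mem (t : Tm) (X : ℕ) (e : ℕ → ℕ) (E : ℕ → Set ℕ) :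
    (Fm.mem t X).Holds e E ↔ t.val e ∈ E X := Iff.rfl

@[simp] theorem Fm.holds_eq (s t : Tm) (e : ℕ → ℕ) (E : ℕ → Set ℕ) :
    (Fm.eq s t).Holds e E ↔ s.val e = t.val e := Iff.rfl

@[simp] theorem Fm.holds_lt (s t : Tm) (e : ℕ → ℕ) (E : ℕ → Set ℕ) :
    (Fm.lt s t).Holds e E ↔ s.val e < t.val e := Iff.rfl

theorem pairTm_inj {m n m' n' : ℕ} (h : (m + n) * (m + n) + m = (m' + n') * (m' + n') + m') :
    m = m' ∧ n = n' := by
  have h1 : m + n = m' + n' := by
    rcases lt_trichotomy (m + n) (m' + n') with hlt | heq | hgt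
    · exfalso
      have h2 : m + n + 1 ≤ m' + n' := hlt
      have h3 : (m + n + 1) * (m + n + 1) ≤ (m' + n') * (m' + n') := Nat.mul_le_mul h2 h2
      nlinarith
    · exact heq
    · exfalso
      have h2 : m' + n' + 1 ≤ m + n := hgt
      have h3 : (m' + n' + 1) * (m' + n' + 1) ≤ (m + n) * (m + n) := Nat.mul_le_mul h2 h2
      nlinarith
  rw [h1] at h
  omega

theorem comprehension_true (n X : ℕ) (φ : Fm) (hX : ¬ φ.FreeS X) :
    (comprehension n X φ).True := by
  intro e E
  simp only [comprehension, Fm.holds_exS, Fm.holds_all, Fm.holds_iff, Fm.holds_mem, Tm.val,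
    update_self]
  refine ⟨{k | φ.Holds (update e n k) E}, fun k => ?_⟩
  rw [Set.mem_ofPred_eq]
  refine Fm.holds_congr φ (fun _ _ => rfl) fun Y hY => ?_
  have : Y ≠ X := fun h => hX (h ▸ hY)
  rw [update_of_ne this]

theorem choice_true (n m X Z : ℕ) (φ : Fm) (hnm : n ≠ m) (hXZ : X ≠ Z) (hZ : ¬ φ.FreeS Z) :
    (choice n m X Z φ).True := by
  intro e E
  simp only [choice, Fm.holds_imp, Fm.holds_all, Fm.holds_exS, Fm.holds_and, Fm.holds_iff,
    Fm.holds_mem, pairTm, Tm.val, update_self, update_of_ne hnm, update_of_ne (Ne.symm hXZ)]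
  intro h
  choose F hF using h
  refine ⟨{c | ∃ k j, c = (k + j) * (k + j) + k ∧ k ∈ F j}, fun k => ⟨F k, fun j => ?_, ?_⟩⟩
  · simp only [Set.mem_ofPred_eq]
    constructor
    · intro hj
      exact ⟨j, k, rfl, hj⟩
    · rintro ⟨k', j', hc, hk⟩
      obtain ⟨rfl, rfl⟩ := pairTm_inj hc
      exact hk
  · refine (Fm.holds_congr φ (fun _ _ => rfl) fun Y hY => ?_).1 (hF k)
    have hYZ : Y ≠ Z := fun h => hZ (h ▸ hY)
    by_cases hYX : Y = X
    · subst hYX; simp
    · rw [update_of_ne hYX, update_of_ne hYX, update_of_ne hYZ]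

theorem OpenAxiom.true {φ : Fm} (h : OpenAxiom φ) : φ.True := by
  cases h with
  | basic h =>
    intro e E
    simp only [basicAxioms, List.mem_cons, List.not_mem_nil, or_false] at h
    rcases h with rfl | rfl | rfl | rfl | rfl | rfl | rfl | rfl <;>
      simp only [Fm.holds_neg, Fm.holds_imp, Fm.holds_eq, Fm.holds_lt, Fm.holds_iff, Fm.holds_or,
        Tm.val]
    · omega
    · omega
    · omega
    · omega
    · omega
    · ring
    · omega
    · omega
  | induction =>
    intro e E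
    simp only [inductionAxiom, Fm.holds_imp, Fm.holds_and, Fm.holds_mem, Fm.holds_all, Tm.val,
      update_self]
    rintro ⟨h0, h1⟩ n
    induction n with
    | zero => exact h0
    | succ n ih => exact h1 n ih
  | comprehension n X φ _ hX => exact comprehension_true n X φ hX
  | choice n m X Z φ _ hnm hXZ hZ => exact choice_true n m X Z φ hnm hXZ hZ

theorem Generalization.true {P : Fm → Prop} (hP : ∀ φ, P φ → φ.True) {φ : Fm}
    (h : Generalization P φ) : φ.True := by
  induction h with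
  | base h => exact hP _ h
  | all x _ ih => intro e E n; exact ih _ _
  | allS X _ ih => intro e E n; exact ih _ _

theorem sigmaAC0_true {φ : Fm} (h : φ ∈ SigmaAC0) : φ.True :=
  Generalization.true (fun _ h => h.true) h.2

end Pool.Agent.H9x.SO
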