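import Pool.Agent.H9x.SO.Codes

/-! The syntactic relations are arithmetical -/

set_option autoImplicit false

namespace Pool.Agent.H9x.SO

open Function Encodable Pool.Agent.Lib.helper21.PR

@[simp] theorem Tm.code_inj {s t : Tm} : s.code = t.code ↔ s = t := Tm.code_injective.eq_iff
@[simp] theorem Fm.code_inj {s t : Fm} : s.code = t.code ↔ s = t := Fm.code_injective.eq_iff

section

variable {α : Type} [Primcodable α] {S : Set ℕ} {f g h k : α → ℕ}

theorem ah_isFm (hf : Primrec f) : AH S (fun _ a => ∃ φ : Fm, f a = φ.code) := by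
  have h := AH.fmRec (S := S) (P := ℕ) (fun _ _ => True) (v0 := fun _ _ => True)
    (v1 := fun _ _ _ _ _ => True) (v2 := fun _ _ _ _ => True) (v3 := fun _ _ _ _ => True)
    (by simp) (by simp) (by simp) (by simp) (.const _) (.const _) (.const _) (.const _)
  exact (h.comp (f := fun a => (0, f a)) (by fun_prop)).congr (by simp)

theorem ah_occ (hf : Primrec f) (hg : Primrec g) :
    AH S (fun _ a => ∃ t : Tm, g a = t.code ∧ t.Occ (f a)) := by
  have h := AH.tmFold (S := S) (P := ℕ) (fun x t => ind (t.Occ x))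
    (v0 := fun x y d => (d = 1 ∧ y = x) ∨ (d = 0 ∧ ¬ y = x))
    (v1 := fun _ d => d = 0) (v2 := fun _ d => d = 0)
    (v3 := fun _ a b d => (d = 1 ∧ (a = 1 ∨ b = 1)) ∨ (d = 0 ∧ ¬ (a = 1 ∨ b = 1)))
    (v4 := fun _ a b d => (d = 1 ∧ (a = 1 ∨ b = 1)) ∨ (d = 0 ∧ ¬ (a = 1 ∨ b = 1)))
    (by simp [ind_eq]) (by simp [ind_eq]) (by simp [ind_eq])
    (by simp [ind_eq]) (by simp [ind_eq])
    (.or (.and (.eq (by fun_prop) (by fun_prop)) (.eq (by fun_prop) (by fun_prop)))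
      (.and (.eq (by fun_prop) (by fun_prop)) (.not (.eq (by fun_prop) (by fun_prop)))))
    (.eq (by fun_prop) (by fun_prop)) (.eq (by fun_prop) (by fun_prop))
    (.or (.and (.eq (by fun_prop) (by fun_prop)) (.or (.eq (by fun_prop) (by fun_prop))
      (.eq (by fun_prop) (by fun_prop))))
      (.and (.eq (by fun_prop) (by fun_prop)) (.not (.or (.eq (by fun_prop) (by fun_prop))
      (.eq (by fun_prop) (by fun_prop))))))
    (.or (.and (.eq (by fun_prop) (by fun_prop)) (.or (.eq (by fun_prop) (by fun_prop))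
      (.eq (by fun_prop) (by fun_prop))))
      (.and (.eq (by fun_prop) (by fun_prop)) (.not (.or (.eq (by fun_prop) (by fun_prop))
      (.eq (by fun_prop) (by fun_prop))))))
  refine (h.comp (f := fun a => (f a, g a, 1)) (by fun_prop)).congr fun _ a => ?_
  simp [eq_comm (a := 1)]

theorem ah_free (hf : Primrec f) (hg : Primrec g) :
    AH S (fun _ a => ∃ φ : Fm, g a = φ.code ∧ φ.Free (f a)) := by
  have h := AH.fmRec (S := S) (P := ℕ) (fun x φ => φ.Free x)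
    (v0 := fun x n => (∃ a b, (n = Nat.pair 5 (Nat.pair a b) ∨ n = Nat.pair 6 (Nat.pair a b)) ∧
      ((∃ t : Tm, a = t.code ∧ t.Occ x) ∨ (∃ t : Tm, b = t.code ∧ t.Occ x))) ∨
      (∃ a b, n = Nat.pair 7 (Nat.pair a b) ∧ ∃ t : Tm, a = t.code ∧ t.Occ x))
    (v1 := fun _ _ _ a b => a = 1 ∨ b = 1) (v2 := fun x y _ a => y ≠ x ∧ a = 1)
    (v3 := fun _ _ _ a => a = 1)
    (fun p φ hφ => by cases φ <;> first | exact hφ.elim | simp [Fm.code]) (by simp) (by simp) (by simp)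
    (.or (.ex (.ex (.and (.or (.eq (by fun_prop) (by fun_prop)) (.eq (by fun_prop) (by fun_prop)))
      (.or (ah_occ (by fun_prop) (by fun_prop)) (ah_occ (by fun_prop) (by fun_prop))))))
      (.ex (.ex (.and (.eq (by fun_prop) (by fun_prop)) (ah_occ (by fun_prop) (by fun_prop))))))
    (.or (.eq (by fun_prop) (by fun_prop)) (.eq (by fun_prop) (by fun_prop)))
    (.and (.not (.eq (by fun_prop) (by fun_prop))) (.eq (by fun_prop) (by fun_prop)))
    (.eq (by fun_prop) (by fun_prop))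
  exact h.comp (f := fun a => (f a, g a)) (by fun_prop)

theorem ah_freeS (hf : Primrec f) (hg : Primrec g) :
    AH S (fun _ a => ∃ φ : Fm, g a = φ.code ∧ φ.FreeS (f a)) := by
  have h := AH.fmRec (S := S) (P := ℕ) (fun x φ => φ.FreeS x)
    (v0 := fun x n => ∃ a, n = Nat.pair 7 (Nat.pair a x))
    (v1 := fun _ _ _ a b => a = 1 ∨ b = 1) (v2 := fun _ _ _ a => a = 1)
    (v3 := fun x y _ a => y ≠ x ∧ a = 1)
    (fun p φ hφ => by cases φ <;> first | exact hφ.elim | simp [Fm.code]) (by simp) (by simp) (by simp)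
    (.ex (.eq (by fun_prop) (by fun_prop)))
    (.or (.eq (by fun_prop) (by fun_prop)) (.eq (by fun_prop) (by fun_prop)))
    (.eq (by fun_prop) (by fun_prop))
    (.and (.not (.eq (by fun_prop) (by fun_prop))) (.eq (by fun_prop) (by fun_prop)))
  exact h.comp (f := fun a => (f a, g a)) (by fun_prop)

theorem ah_sentence (hf : Primrec f) :
    AH S (fun _ a => ∃ φ : Fm, f a = φ.code ∧ φ.Sentence) := by
  have h : AH S (fun _ a => (∃ φ : Fm, f a = φ.code) ∧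
      (∀ x : ℕ, ¬ ∃ φ : Fm, f a = φ.code ∧ φ.Free x) ∧
      ∀ x : ℕ, ¬ ∃ φ : Fm, f a = φ.code ∧ φ.FreeS x) :=
    .and (ah_isFm hf) (.and (.all (.not (ah_free (by fun_prop) (by fun_prop))))
      (.all (.not (ah_freeS (by fun_prop) (by fun_prop)))))
  refine h.congr fun _ a => ?_
  constructor
  · rintro ⟨⟨φ, h⟩, h1, h2⟩
    exact ⟨φ, h, fun x hx => h1 x ⟨φ, h, hx⟩, fun x hx => h2 x ⟨φ, h, hx⟩⟩
  · rintro ⟨φ, h, h1, h2⟩
    refine ⟨⟨φ, h⟩, fun x => ?_, fun x => ?_⟩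
    · rintro ⟨ψ, h', hx⟩
      rw [h, Fm.code_inj] at h'
      subst h'
      exact h1 x hx
    · rintro ⟨ψ, h', hx⟩
      rw [h, Fm.code_inj] at h'
      subst h'
      exact h2 x hx

theorem ah_arith (hf : Primrec f) :
    AH S (fun _ a => ∃ φ : Fm, f a = φ.code ∧ φ.Arith) := by
  have h := AH.fmRec (S := S) (P := ℕ) (fun _ φ => φ.Arith)
    (v0 := fun _ _ => True)
    (v1 := fun _ _ _ a b => a = 1 ∧ b = 1) (v2 := fun _ _ _ a => a = 1)
    (v3 := fun _ _ _ _ => False)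
    (fun p φ hφ => by cases φ <;> first | exact hφ.elim | simp [Fm.Arith]) (by simp) (by simp)
    (by simp [Fm.Arith]) (.const _)
    (.and (.eq (by fun_prop) (by fun_prop)) (.eq (by fun_prop) (by fun_prop)))
    (.eq (by fun_prop) (by fun_prop)) (.const _)
  exact h.comp (f := fun a => (0, f a)) (by fun_prop)

theorem AH.lfp1 {α : Type} [Primcodable α] [Full α] {S : Set ℕ} {R0 : α → Prop}
    {R1 : α → α → Prop} (h0 : AH S (fun _ a => R0 a))
    (h1 : AH S (fun _ (p : α × α) => R1 p.1 p.2)) :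
    AH S (fun _ a => Lfp R0 (fun a _ c => R1 a c) a) :=
  AH.lfp h0 (h1.comp (f := fun p : α × α × α => (p.1, p.2.2)) (by fun_prop))

theorem ah_isPi (hf : Primrec f) : AH S (fun _ a => ∃ φ : Fm, f a = φ.code ∧ φ.IsPi) := by
  have h := AH.lfp1 (S := S) (R0 := fun n : ℕ => ∃ φ : Fm, n = φ.code ∧ φ.Arith)
    (R1 := fun a b => ∃ x, b = Nat.pair 11 (Nat.pair x a)) (ah_arith (by fun_prop))
    (.ex (.eq (by fun_prop) (by fun_prop)))
  refine (h.comp hf).congr fun _ a => ?_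
  generalize f a = n
  constructor
  · intro h
    induction h with
    | base h =>
      obtain ⟨φ, h, h'⟩ := h
      exact ⟨φ, h, .arith h'⟩
    | step _ _ h ih _ =>
      obtain ⟨φ, h1, h2⟩ := ih
      obtain ⟨x, h⟩ := h
      exact ⟨.allS x φ, by rw [h, h1]; rfl, .allS x h2⟩
  · rintro ⟨φ, h1, h2⟩
    rw [h1]
    clear h1
    induction h2 with
    | arith h => exact .base ⟨_, rfl, h⟩
    | allS X h ih => exact .step ih ih ⟨X, rfl⟩

theorem ah_isSigma (hf : Primrec f) : AH S (fun _ a => ∃ φ : Fm, f a = φ.code ∧ φ.IsSigma) := by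
  have h := AH.lfp1 (S := S) (R0 := fun n : ℕ => ∃ φ : Fm, n = φ.code ∧ φ.Arith)
    (R1 := fun a b => ∃ x, b = Nat.pair 9 (Nat.pair (Nat.pair 11 (Nat.pair x
      (Nat.pair 9 (Nat.pair a (Nat.pair 8 0))))) (Nat.pair 8 0))) (ah_arith (by fun_prop))
    (.ex (.eq (by fun_prop) (by fun_prop)))
  refine (h.comp hf).congr fun _ a => ?_
  generalize f a = n
  constructor
  · intro h
    induction h with
    | base h =>
      obtain ⟨φ, h, h'⟩ := h
      exact ⟨φ, h, .arith h'⟩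
    | step _ _ h ih _ =>
      obtain ⟨φ, h1, h2⟩ := ih
      obtain ⟨x, h⟩ := h
      exact ⟨.exS x φ, by rw [h, h1]; rfl, .exS x h2⟩
  · rintro ⟨φ, h1, h2⟩
    rw [h1]
    clear h1
    induction h2 with
    | arith h => exact .base ⟨_, rfl, h⟩
    | exS X h ih => exact .step ih ih ⟨X, rfl⟩

/-- the code of `t` with the term with the code `r` for `x` -/
def Tm.subC (x r : ℕ) : Tm → ℕ
  | .var y => if y = x then r else Nat.pair 0 y
  | .zero => Nat.pair 1 0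
  | .one => Nat.pair 2 0
  | .add s t => Nat.pair 3 (Nat.pair (s.subC x r) (t.subC x r))
  | .mul s t => Nat.pair 4 (Nat.pair (s.subC x r) (t.subC x r))

theorem Tm.subC_eq (x : ℕ) (r : Tm) (t : Tm) : t.subC x r.code = (t.subst x r).code := by
  induction t with
  | var y => simp only [Tm.subC, Tm.subst]; split_ifs <;> rfl
  | zero => rfl
  | one => rfl
  | add s t ih1 ih2 => simp only [Tm.subC, Tm.subst, ih1, ih2, Tm.code]
  | mul s t ih1 ih2 => simp only [Tm.subC, Tm.subst, ih1, ih2, Tm.code]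

theorem ah_subT (hf : Primrec f) (hg : Primrec g) (hh : Primrec h) (hk : Primrec k) :
    AH S (fun _ a => ∃ t : Tm, h a = t.code ∧ k a = t.subC (f a) (g a)) := by
  have h' := AH.tmFold (S := S) (P := ℕ × ℕ) (fun p t => t.subC p.1 p.2)
    (v0 := fun p y d => (y = p.1 ∧ d = p.2) ∨ (¬ y = p.1 ∧ d = Nat.pair 0 y))
    (v1 := fun _ d => d = Nat.pair 1 0) (v2 := fun _ d => d = Nat.pair 2 0)
    (v3 := fun _ a b d => d = Nat.pair 3 (Nat.pair a b))
    (v4 := fun _ a b d => d = Nat.pair 4 (Nat.pair a b))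
    (fun p x d => by
      simp only [Tm.subC]
      by_cases h : x = p.1
      · simp [h, eq_comm]
      · simp [h, eq_comm])
    (fun _ _ => eq_comm) (fun _ _ => eq_comm) (fun _ _ _ _ => eq_comm) (fun _ _ _ _ => eq_comm)
    (.or (.and (.eq (by fun_prop) (by fun_prop)) (.eq (by fun_prop) (by fun_prop)))
      (.and (.not (.eq (by fun_prop) (by fun_prop))) (.eq (by fun_prop) (by fun_prop))))
    (.eq (by fun_prop) (by fun_prop)) (.eq (by fun_prop) (by fun_prop))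
    (.eq (by fun_prop) (by fun_prop)) (.eq (by fun_prop) (by fun_prop))
  exact h'.comp (f := fun a => ((f a, g a), h a, k a)) (by fun_prop)

/-- the code of `φ` with the term with the code `r` for `x` -/
def Fm.subC (x r : ℕ) : Fm → ℕ
  | .eq s t => Nat.pair 5 (Nat.pair (s.subC x r) (t.subC x r))
  | .lt s t => Nat.pair 6 (Nat.pair (s.subC x r) (t.subC x r))
  | .mem t X => Nat.pair 7 (Nat.pair (t.subC x r) X)
  | .bot => Nat.pair 8 0
  | .imp φ ψ => Nat.pair 9 (Nat.pair (φ.subC x r) (ψ.subC x r))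
  | .all y φ => if y = x then Nat.pair 10 (Nat.pair y φ.code) else
      Nat.pair 10 (Nat.pair y (φ.subC x r))
  | .allS X φ => Nat.pair 11 (Nat.pair X (φ.subC x r))

theorem Fm.subC_eq (x : ℕ) (r : Tm) (t : Fm) : t.subC x r.code = (t.subst x r).code := by
  induction t with
  | eq s t => simp only [Fm.subC, Fm.subst, Tm.subC_eq, Fm.code]
  | lt s t => simp only [Fm.subC, Fm.subst, Tm.subC_eq, Fm.code]
  | mem s t => simp only [Fm.subC, Fm.subst, Tm.subC_eq, Fm.code]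
  | bot => rfl
  | imp s t ih1 ih2 => simp only [Fm.subC, Fm.subst, ih1, ih2, Fm.code]
  | all s t ih => simp only [Fm.subC, Fm.subst, ih]; split_ifs <;> rfl
  | allS s t ih => simp only [Fm.subC, Fm.subst, ih, Fm.code]

theorem ah_subF (hf : Primrec f) (hg : Primrec g) (hh : Primrec h) (hk : Primrec k) :
    AH S (fun _ a => ∃ φ : Fm, h a = φ.code ∧ k a = φ.subC (f a) (g a)) := by
  have h' := AH.fmFold (S := S) (P := ℕ × ℕ) (fun p t => t.subC p.1 p.2)
    (v0 := fun p n d => (∃ a b a' b', n = Nat.pair 5 (Nat.pair a b) ∧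
        d = Nat.pair 5 (Nat.pair a' b') ∧ (∃ t : Tm, a = t.code ∧ a' = t.subC p.1 p.2) ∧
        (∃ t : Tm, b = t.code ∧ b' = t.subC p.1 p.2)) ∨
        (∃ a b a' b', n = Nat.pair 6 (Nat.pair a b) ∧
        d = Nat.pair 6 (Nat.pair a' b') ∧ (∃ t : Tm, a = t.code ∧ a' = t.subC p.1 p.2) ∧
        (∃ t : Tm, b = t.code ∧ b' = t.subC p.1 p.2)) ∨
        (∃ a b a', n = Nat.pair 7 (Nat.pair a b) ∧
        d = Nat.pair 7 (Nat.pair a' b) ∧ (∃ t : Tm, a = t.code ∧ a' = t.subC p.1 p.2)) ∨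
        n = Nat.pair 8 0 ∧ d = Nat.pair 8 0)
    (v1 := fun _ _ _ a b d => d = Nat.pair 9 (Nat.pair a b))
    (v2 := fun p x n a d => (x = p.1 ∧ d = Nat.pair 10 (Nat.pair x n)) ∨
      (¬ x = p.1 ∧ d = Nat.pair 10 (Nat.pair x a)))
    (v3 := fun _ x _ a d => d = Nat.pair 11 (Nat.pair x a))
    (fun p φ d hφ => by
      cases φ <;> first | exact hφ.elim | (simp [Fm.code, Fm.subC]; exact eq_comm))
    (fun p φ ψ d => eq_comm)
    (fun p x φ d => by
      simp only [Fm.subC]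
      by_cases h : x = p.1
      · simp [h, eq_comm]
      · simp [h, eq_comm])
    (fun p φ ψ d => eq_comm)
    (.or (.ex (.ex (.ex (.ex (.and (.eq (by fun_prop) (by fun_prop))
      (.and (.eq (by fun_prop) (by fun_prop))
      (.and (ah_subT (by fun_prop) (by fun_prop) (by fun_prop) (by fun_prop))
      (ah_subT (by fun_prop) (by fun_prop) (by fun_prop) (by fun_prop)))))))))
    (.or (.ex (.ex (.ex (.ex (.and (.eq (by fun_prop) (by fun_prop))
      (.and (.eq (by fun_prop) (by fun_prop))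
      (.and (ah_subT (by fun_prop) (by fun_prop) (by fun_prop) (by fun_prop))
      (ah_subT (by fun_prop) (by fun_prop) (by fun_prop) (by fun_prop)))))))))
    (.or (.ex (.ex (.ex (.and (.eq (by fun_prop) (by fun_prop))
      (.and (.eq (by fun_prop) (by fun_prop))
      (ah_subT (by fun_prop) (by fun_prop) (by fun_prop) (by fun_prop)))))))
    (.and (.eq (by fun_prop) (by fun_prop)) (.eq (by fun_prop) (by fun_prop))))))
    (.eq (by fun_prop) (by fun_prop))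
    (.or (.and (.eq (by fun_prop) (by fun_prop)) (.eq (by fun_prop) (by fun_prop)))
      (.and (.not (.eq (by fun_prop) (by fun_prop))) (.eq (by fun_prop) (by fun_prop))))
    (.eq (by fun_prop) (by fun_prop))
  exact h'.comp (f := fun a => ((f a, g a), h a, k a)) (by fun_prop)

theorem ah_subS (hf : Primrec f) (hg : Primrec g) (hh : Primrec h) (hk : Primrec k) :
    AH S (fun _ a => ∃ φ : Fm, h a = φ.code ∧ k a = (φ.substS (f a) (g a)).code) := by
  have h' := AH.fmFold (S := S) (P := ℕ × ℕ) (fun p t => (t.substS p.1 p.2).code)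
    (v0 := fun p n d => (∃ a b, (n = Nat.pair 5 (Nat.pair a b) ∨ n = Nat.pair 6 (Nat.pair a b)) ∧
        d = n) ∨ (∃ a b, n = Nat.pair 7 (Nat.pair a b) ∧
        ((b = p.1 ∧ d = Nat.pair 7 (Nat.pair a p.2)) ∨ (¬ b = p.1 ∧ d = n))) ∨
        (n = Nat.pair 8 0 ∧ d = n))
    (v1 := fun _ _ _ a b d => d = Nat.pair 9 (Nat.pair a b))
    (v2 := fun _ x _ a d => d = Nat.pair 10 (Nat.pair x a))
    (v3 := fun p x n a d => (x = p.1 ∧ d = Nat.pair 11 (Nat.pair x n)) ∨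
      (¬ x = p.1 ∧ d = Nat.pair 11 (Nat.pair x a)))
    (fun p φ d hφ => by
      cases φ <;> first | exact hφ.elim | skip
      · simp [Fm.code, Fm.substS]; exact eq_comm
      · simp [Fm.code, Fm.substS]; exact eq_comm
      · rename_i t X
        simp only [Fm.substS, Fm.code]
        by_cases h : X = p.1
        · simp [h, eq_comm]
        · simp [h, eq_comm]
      · simp [Fm.code, Fm.substS]; exact eq_comm)
    (fun p φ ψ d => eq_comm) (fun p φ ψ d => eq_comm)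
    (fun p x φ d => by
      simp only [Fm.substS]
      by_cases h : x = p.1
      · simp [h, eq_comm, Fm.code]
      · simp [h, eq_comm, Fm.code])
    (.or (.ex (.ex (.and (.or (.eq (by fun_prop) (by fun_prop)) (.eq (by fun_prop) (by fun_prop)))
      (.eq (by fun_prop) (by fun_prop))))) (.or (.ex (.ex (.and (.eq (by fun_prop) (by fun_prop))
      (.or (.and (.eq (by fun_prop) (by fun_prop)) (.eq (by fun_prop) (by fun_prop)))
      (.and (.not (.eq (by fun_prop) (by fun_prop))) (.eq (by fun_prop) (by fun_prop)))))))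
      (.and (.eq (by fun_prop) (by fun_prop)) (.eq (by fun_prop) (by fun_prop)))))
    (.eq (by fun_prop) (by fun_prop)) (.eq (by fun_prop) (by fun_prop))
    (.or (.and (.eq (by fun_prop) (by fun_prop)) (.eq (by fun_prop) (by fun_prop)))
      (.and (.not (.eq (by fun_prop) (by fun_prop))) (.eq (by fun_prop) (by fun_prop))))
  exact h'.comp (f := fun a => ((f a, g a), h a, k a)) (by fun_prop)

/-- `FreeFor` for the term with the code `r` -/
def Fm.FreeForC (x r : ℕ) : Fm → Prop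
  | .eq _ _ => _root_.True
  | .lt _ _ => _root_.True
  | .mem _ _ => _root_.True
  | .bot => _root_.True
  | .imp φ ψ => φ.FreeForC x r ∧ ψ.FreeForC x r
  | .all y φ => y = x ∨ ¬ φ.Free x ∨ (¬ (∃ t : Tm, r = t.code ∧ t.Occ y) ∧ φ.FreeForC x r)
  | .allS _ φ => φ.FreeForC x r

theorem Fm.freeForC_iff (x : ℕ) (r : Tm) (φ : Fm) : φ.FreeForC x r.code ↔ φ.FreeFor x r := by
  induction φ with
  | eq s t => exact Iff.rfl
  | lt s t => exact Iff.rfl
  | mem s t => exact Iff.rfl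
  | bot => exact Iff.rfl
  | imp s t ih1 ih2 => simp only [Fm.FreeForC, Fm.FreeFor, ih1, ih2]
  | all s t ih => simp [Fm.FreeForC, Fm.FreeFor, ih]
  | allS s t ih => simp only [Fm.FreeForC, Fm.FreeFor, ih]

theorem ah_freeFor (hf : Primrec f) (hg : Primrec g) (hh : Primrec h) :
    AH S (fun _ a => ∃ φ : Fm, h a = φ.code ∧ φ.FreeForC (f a) (g a)) := by
  have h' := AH.fmRec (S := S) (P := ℕ × ℕ) (fun p φ => φ.FreeForC p.1 p.2)
    (v0 := fun _ _ => True)
    (v1 := fun _ _ _ a b => a = 1 ∧ b = 1)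
    (v2 := fun p y n a => y = p.1 ∨ ¬ (∃ φ : Fm, n = φ.code ∧ φ.Free p.1) ∨
      (¬ (∃ t : Tm, p.2 = t.code ∧ t.Occ y) ∧ a = 1))
    (v3 := fun _ _ _ a => a = 1)
    (fun p φ hφ => by cases φ <;> first | exact hφ.elim | simp [Fm.FreeForC])
    (by simp [Fm.FreeForC]) (by simp [Fm.FreeForC]) (by simp [Fm.FreeForC]) (.const _)
    (.and (.eq (by fun_prop) (by fun_prop)) (.eq (by fun_prop) (by fun_prop)))
    (.or (.eq (by fun_prop) (by fun_prop)) (.or (.not (ah_free (by fun_prop) (by fun_prop)))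
      (.and (.not (ah_occ (by fun_prop) (by fun_prop))) (.eq (by fun_prop) (by fun_prop)))))
    (.eq (by fun_prop) (by fun_prop))
  exact h'.comp (f := fun a => ((f a, g a), h a)) (by fun_prop)

theorem ah_freeForS (hf : Primrec f) (hg : Primrec g) (hh : Primrec h) :
    AH S (fun _ a => ∃ φ : Fm, h a = φ.code ∧ φ.FreeForS (f a) (g a)) := by
  have h' := AH.fmRec (S := S) (P := ℕ × ℕ) (fun p φ => φ.FreeForS p.1 p.2)
    (v0 := fun _ _ => True)
    (v1 := fun _ _ _ a b => a = 1 ∧ b = 1)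
    (v2 := fun _ _ _ a => a = 1)
    (v3 := fun p y n a => y = p.1 ∨ ¬ (∃ φ : Fm, n = φ.code ∧ φ.FreeS p.1) ∨
      (y ≠ p.2 ∧ a = 1))
    (fun p φ hφ => by cases φ <;> first | exact hφ.elim | simp [Fm.FreeForS])
    (by simp [Fm.FreeForS]) (by simp [Fm.FreeForS]) (by simp [Fm.FreeForS]) (.const _)
    (.and (.eq (by fun_prop) (by fun_prop)) (.eq (by fun_prop) (by fun_prop)))
    (.eq (by fun_prop) (by fun_prop))
    (.or (.eq (by fun_prop) (by fun_prop)) (.or (.not (ah_freeS (by fun_prop) (by fun_prop)))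
      (.and (.not (.eq (by fun_prop) (by fun_prop))) (.eq (by fun_prop) (by fun_prop)))))
  exact h'.comp (f := fun a => ((f a, g a), h a)) (by fun_prop)

/-! ### Lists and proofs -/

theorem ah_isL (hf : Primrec f) : AH S (fun _ a => ∃ Γ, f a = codeList Γ) := by
  have h := AH.lfp1 (S := S) (R0 := fun n : ℕ => n = 0)
    (R1 := fun a b => ∃ x, (∃ φ : Fm, x = φ.code) ∧ b = Nat.pair x a + 1)
    (.eq (by fun_prop) (by fun_prop))
    (.ex (.and (ah_isFm (by fun_prop)) (.eq (by fun_prop) (by fun_prop))))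
  refine (h.comp hf).congr fun _ a => ?_
  generalize f a = n
  constructor
  · intro h
    induction h with
    | base h => exact ⟨[], h⟩
    | step _ _ h ih _ =>
      obtain ⟨Γ, h1⟩ := ih
      obtain ⟨_, ⟨φ, rfl⟩, h⟩ := h
      exact ⟨φ :: Γ, by rw [h, h1]; rfl⟩
  · rintro ⟨Γ, rfl⟩
    induction Γ with
    | nil => exact .base rfl
    | cons φ Γ ih => exact .step ih ih ⟨_, ⟨φ, rfl⟩, rfl⟩

theorem ah_mem (hf : Primrec f) (hg : Primrec g) :
    AH S (fun _ a => ∃ Γ φ, f a = codeList Γ ∧ g a = φ.code ∧ φ ∈ Γ) := by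
  have h := AH.lfp1 (S := S) (R0 := fun p : ℕ × ℕ => (∃ φ : Fm, p.2 = φ.code) ∧
      ∃ k, (∃ Γ, k = codeList Γ) ∧ p.1 = Nat.pair p.2 k + 1)
    (R1 := fun a b : ℕ × ℕ => a.2 = b.2 ∧ ∃ x, (∃ φ : Fm, x = φ.code) ∧ b.1 = Nat.pair x a.1 + 1)
    (.and (ah_isFm (by fun_prop)) (.ex (.and (ah_isL (by fun_prop))
      (.eq (by fun_prop) (by fun_prop)))))
    (.and (.eq (by fun_prop) (by fun_prop))
      (.ex (.and (ah_isFm (by fun_prop)) (.eq (by fun_prop) (by fun_prop)))))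
  refine (h.comp (f := fun a => (f a, g a)) (by fun_prop)).congr fun _ a => ?_
  generalize f a = n
  generalize g a = m
  constructor
  · intro h
    generalize hp : (n, m) = p at h
    have : ∃ Γ φ, p.1 = codeList Γ ∧ p.2 = φ.code ∧ φ ∈ Γ := by
      clear hp
      induction h with
      | base h =>
        obtain ⟨⟨φ, h1⟩, k, ⟨Γ, rfl⟩, h2⟩ := h
        exact ⟨φ :: Γ, φ, by rw [h2, h1]; rfl, h1, by simp⟩
      | step _ _ h ih _ =>
        obtain ⟨Γ, φ, h1, h2, h3⟩ := ih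
        obtain ⟨h4, _, ⟨ψ, rfl⟩, h⟩ := h
        exact ⟨ψ :: Γ, φ, by rw [h, h1]; rfl, h4 ▸ h2, by simp [h3]⟩
    subst hp
    exact this
  · rintro ⟨Γ, φ, rfl, rfl, h⟩
    induction Γ with
    | nil => simp at h
    | cons ψ Γ ih =>
      by_cases hφ : φ ∈ Γ
      · exact .step (ih hφ) (ih hφ) ⟨rfl, _, ⟨ψ, rfl⟩, rfl⟩
      · have : φ = ψ := by
          rcases List.mem_cons.1 h with h | h
          · exact h
          · exact absurd h hφ
        subst this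
        exact .base ⟨⟨φ, rfl⟩, _, ⟨Γ, rfl⟩, rfl⟩

/-- a code of a list is the code of a list of the form `φ :: Γ` -/
theorem codeList_eq {Γ : List Fm} {a b : ℕ} (h : codeList Γ = Nat.pair a b + 1) :
    ∃ φ Δ, Γ = φ :: Δ ∧ a = φ.code ∧ b = codeList Δ := by
  cases Γ with
  | nil => simp [codeList] at h
  | cons φ Γ =>
    simp only [codeList, Nat.add_right_cancel_iff, Nat.pair_eq_pair] at h
    exact ⟨φ, Γ, rfl, h.1.symm, h.2.symm⟩

theorem Fm.code_eq9 {φ : Fm} {a b : ℕ} (h : φ.code = Nat.pair 9 (Nat.pair a b)) :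
    ∃ φ₁ φ₂, φ = .imp φ₁ φ₂ ∧ a = φ₁.code ∧ b = φ₂.code := by
  cases φ <;> simp [Fm.code, Nat.pair_eq_pair] at h
  rename_i φ ψ
  exact ⟨φ, ψ, rfl, h.1.symm, h.2.symm⟩

theorem Fm.code_eq10 {φ : Fm} {a b : ℕ} (h : φ.code = Nat.pair 10 (Nat.pair a b)) :
    ∃ φ₂, φ = .all a φ₂ ∧ b = φ₂.code := by
  cases φ <;> simp [Fm.code, Nat.pair_eq_pair] at h
  rename_i x ψ
  obtain ⟨rfl, h⟩ := h
  exact ⟨ψ, rfl, h.symm⟩

theorem Fm.code_eq11 {φ : Fm} {a b : ℕ} (h : φ.code = Nat.pair 11 (Nat.pair a b)) :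
    ∃ φ₂, φ = .allS a φ₂ ∧ b = φ₂.code := by
  cases φ <;> simp [Fm.code, Nat.pair_eq_pair] at h
  rename_i x ψ
  obtain ⟨rfl, h⟩ := h
  exact ⟨ψ, rfl, h.symm⟩

theorem Fm.code_eq5 {φ : Fm} {a b : ℕ} (h : φ.code = Nat.pair 5 (Nat.pair a b)) :
    ∃ s t, φ = .eq s t ∧ a = s.code ∧ b = t.code := by
  cases φ <;> simp [Fm.code, Nat.pair_eq_pair] at h
  rename_i x ψ
  exact ⟨x, ψ, rfl, h.1.symm, h.2.symm⟩

/-- axioms of the proof relation, on codes -/
def P0 (p : ℕ × ℕ) : Prop :=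
  (∃ Γ φ, p.1 = codeList Γ ∧ p.2 = φ.code ∧ φ ∈ Γ) ∨
  ((∃ Γ, p.1 = codeList Γ) ∧ ∃ t, (∃ s : Tm, t = s.code) ∧ p.2 = Nat.pair 5 (Nat.pair t t))

/-- rules of the proof relation, on codes -/
def P2 (p q r : ℕ × ℕ) : Prop :=
  (∃ φ, p.1 = Nat.pair φ r.1 + 1 ∧ r.2 = Nat.pair 9 (Nat.pair φ p.2)) ∨
  (p.1 = r.1 ∧ q.1 = r.1 ∧ p.2 = Nat.pair 9 (Nat.pair q.2 r.2)) ∨
  (p.1 = Nat.pair (Nat.pair 9 (Nat.pair r.2 (Nat.pair 8 0))) r.1 + 1 ∧ p.2 = Nat.pair 8 0) ∨
  (p.1 = r.1 ∧ ∃ y, r.2 = Nat.pair 10 (Nat.pair y p.2) ∧ ∀ a, (∃ Γ φ, r.1 = codeList Γ ∧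
    a = φ.code ∧ φ ∈ Γ) → ¬ ∃ φ : Fm, a = φ.code ∧ φ.Free y) ∨
  (p.1 = r.1 ∧ ∃ y t n, (∃ s : Tm, t = s.code) ∧ p.2 = Nat.pair 10 (Nat.pair y n) ∧
    (∃ φ : Fm, n = φ.code ∧ φ.FreeForC y t) ∧ ∃ φ : Fm, n = φ.code ∧ r.2 = φ.subC y t) ∨
  (p.1 = r.1 ∧ ∃ y, r.2 = Nat.pair 11 (Nat.pair y p.2) ∧ ∀ a, (∃ Γ φ, r.1 = codeList Γ ∧
    a = φ.code ∧ φ ∈ Γ) → ¬ ∃ φ : Fm, a = φ.code ∧ φ.FreeS y) ∨
  (p.1 = r.1 ∧ ∃ y t n, p.2 = Nat.pair 11 (Nat.pair y n) ∧
    (∃ φ : Fm, n = φ.code ∧ φ.FreeForS y t) ∧ ∃ φ : Fm, n = φ.code ∧ r.2 = (φ.substS y t).code) ∨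
  (p.1 = r.1 ∧ q.1 = r.1 ∧ ∃ y s t n, (∃ s' : Tm, s = s'.code) ∧ (∃ t' : Tm, t = t'.code) ∧
    (∃ φ : Fm, n = φ.code ∧ φ.FreeForC y s) ∧ (∃ φ : Fm, n = φ.code ∧ φ.FreeForC y t) ∧
    p.2 = Nat.pair 5 (Nat.pair s t) ∧ (∃ φ : Fm, n = φ.code ∧ q.2 = φ.subC y s) ∧
    ∃ φ : Fm, n = φ.code ∧ r.2 = φ.subC y t)

theorem ah_P0 : AH S (fun _ p => P0 p) :=
  .or (ah_mem (by fun_prop) (by fun_prop)) (.and (ah_isL (by fun_prop)) (.ex
    (.and (ah_isTm (by fun_prop)) (.eq (by fun_prop) (by fun_prop)))))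

theorem ah_P2 : AH S (fun _ (p : (ℕ × ℕ) × (ℕ × ℕ) × (ℕ × ℕ)) => P2 p.1 p.2.1 p.2.2) := by
  refine .or ?_ (.or ?_ (.or ?_ (.or ?_ (.or ?_ (.or ?_ (.or ?_ ?_))))))
  · exact .ex (.and (.eq (by fun_prop) (by fun_prop)) (.eq (by fun_prop) (by fun_prop)))
  · exact .and (.eq (by fun_prop) (by fun_prop)) (.and (.eq (by fun_prop) (by fun_prop))
      (.eq (by fun_prop) (by fun_prop)))
  · exact .and (.eq (by fun_prop) (by fun_prop)) (.eq (by fun_prop) (by fun_prop))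
  · exact .and (.eq (by fun_prop) (by fun_prop)) (.ex (.and (.eq (by fun_prop) (by fun_prop))
      (.all (.imp (ah_mem (by fun_prop) (by fun_prop))
      (.not (ah_free (by fun_prop) (by fun_prop)))))))
  · exact .and (.eq (by fun_prop) (by fun_prop)) (.ex (.ex (.ex (.and (ah_isTm (by fun_prop))
      (.and (.eq (by fun_prop) (by fun_prop))
      (.and (ah_freeFor (by fun_prop) (by fun_prop) (by fun_prop))
      (ah_subF (by fun_prop) (by fun_prop) (by fun_prop) (by fun_prop))))))))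
  · exact .and (.eq (by fun_prop) (by fun_prop)) (.ex (.and (.eq (by fun_prop) (by fun_prop))
      (.all (.imp (ah_mem (by fun_prop) (by fun_prop))
      (.not (ah_freeS (by fun_prop) (by fun_prop)))))))
  · exact .and (.eq (by fun_prop) (by fun_prop)) (.ex (.ex (.ex
      (.and (.eq (by fun_prop) (by fun_prop))
      (.and (ah_freeForS (by fun_prop) (by fun_prop) (by fun_prop))
      (ah_subS (by fun_prop) (by fun_prop) (by fun_prop) (by fun_prop)))))))
  · exact .and (.eq (by fun_prop) (by fun_prop)) (.and (.eq (by fun_prop) (by fun_prop))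
      (.ex (.ex (.ex (.ex (.and (ah_isTm (by fun_prop)) (.and (ah_isTm (by fun_prop))
      (.and (ah_freeFor (by fun_prop) (by fun_prop) (by fun_prop))
      (.and (ah_freeFor (by fun_prop) (by fun_prop) (by fun_prop))
      (.and (.eq (by fun_prop) (by fun_prop))
      (.and (ah_subF (by fun_prop) (by fun_prop) (by fun_prop) (by fun_prop))
      (ah_subF (by fun_prop) (by fun_prop) (by fun_prop) (by fun_prop)))))))))))))

theorem lfp_prf (p : ℕ × ℕ) :
    Lfp P0 P2 p ↔ ∃ Γ φ, p.1 = codeList Γ ∧ p.2 = φ.code ∧ Prf Γ φ := by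
  constructor
  · intro h
    induction h with
    | base h =>
      rcases h with ⟨Γ, φ, h1, h2, h3⟩ | ⟨⟨Γ, h1⟩, _, ⟨t, rfl⟩, h2⟩
      · exact ⟨Γ, φ, h1, h2, .hyp h3⟩
      · exact ⟨Γ, .eq t t, h1, h2, .eqI t⟩
    | @step p q r _ _ h ih1 ih2 =>
      obtain ⟨p1, p2⟩ := p
      obtain ⟨q1, q2⟩ := q
      obtain ⟨r1, r2⟩ := r
      obtain ⟨Γ, φ, h1, h2, h3⟩ := ih1
      obtain ⟨Γ', φ', h1', h2', h3'⟩ := ih2
      simp only at h1 h2 h1' h2' ⊢
      subst h1 h2 h1' h2'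
      rcases h with ⟨a, h4, h5⟩ | ⟨h4, h5, h6⟩ | ⟨h4, h5⟩ | ⟨h4, y, h5, h6⟩ |
        ⟨h4, y, _, _, ⟨s, rfl⟩, h5, ⟨ψ, rfl, h6⟩, ⟨ψ', h7, h8⟩⟩ | ⟨h4, y, h5, h6⟩ |
        ⟨h4, y, Y, _, h5, ⟨ψ, rfl, h6⟩, ⟨ψ', h7, h8⟩⟩ |
        ⟨h4, h5, y, _, _, _, ⟨s, rfl⟩, ⟨t, rfl⟩, ⟨ψ, rfl, h6⟩, ⟨ψ1, e1, h7⟩, h8, ⟨ψ2, e2, h9⟩,
          ⟨ψ3, e3, h10⟩⟩
      · simp only at h4 h5
        obtain ⟨χ, Δ, rfl, rfl, rfl⟩ := codeList_eq h4
        exact ⟨Δ, .imp χ φ, rfl, h5, .impI h3⟩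
      · simp only at h4 h5 h6
        obtain ⟨φ₁, φ₂, rfl, h7, h8⟩ := Fm.code_eq9 h6
        have e1 : Γ = Γ' := codeList_injective (h4.trans h5.symm)
        subst e1
        have e2 : φ' = φ₁ := Fm.code_injective h7
        subst e2
        exact ⟨Γ, φ₂, h4.symm, h8, .impE h3 h3'⟩
      · simp only at h4 h5
        obtain ⟨χ, Δ, rfl, h6, rfl⟩ := codeList_eq h4
        obtain ⟨φ₁, φ₂, rfl, h7, h8⟩ := Fm.code_eq9 h6.symm
        have e1 : φ₂ = .bot := Fm.code_injective h8.symm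
        subst e1
        have e2 : φ = .bot := Fm.code_injective h5
        subst e2
        exact ⟨Δ, φ₁, rfl, h7, .botC h3⟩
      · simp only at h4 h5 h6
        refine ⟨Γ, .all y φ, h4.symm, h5, .allI y (fun ψ hψ hy => ?_) h3⟩
        exact h6 ψ.code ⟨Γ, ψ, h4.symm, rfl, hψ⟩ ⟨ψ, rfl, hy⟩
      · simp only at h4 h5 h7 h8
        obtain ⟨φ₂, rfl, e1⟩ := Fm.code_eq10 h5
        have e1 := Fm.code_injective e1
        subst e1
        have e2 := Fm.code_injective h7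
        subst e2
        rw [Fm.subC_eq] at h8
        rw [Fm.freeForC_iff] at h6
        exact ⟨Γ, _, h4.symm, h8, .allE y s h6 h3⟩
      · simp only at h4 h5 h6
        refine ⟨Γ, .allS y φ, h4.symm, h5, .allSI y (fun ψ hψ hy => ?_) h3⟩
        exact h6 ψ.code ⟨Γ, ψ, h4.symm, rfl, hψ⟩ ⟨ψ, rfl, hy⟩
      · simp only at h4 h5 h7 h8
        obtain ⟨φ₂, rfl, e1⟩ := Fm.code_eq11 h5
        have e1 := Fm.code_injective e1
        subst e1
        have e2 := Fm.code_injective h7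
        subst e2
        exact ⟨Γ, _, h4.symm, h8, .allSE y Y h6 h3⟩
      · simp only at h4 h5 h7 h8 h9 h10
        have e1 := Fm.code_injective e1
        subst e1
        have e2 := Fm.code_injective e2
        subst e2
        have e3 := Fm.code_injective e3
        subst e3
        obtain ⟨s', t', rfl, e4, e5⟩ := Fm.code_eq5 h8
        have e4 := Tm.code_injective e4
        subst e4
        have e5 := Tm.code_injective e5
        subst e5
        rw [Fm.subC_eq] at h9 h10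
        rw [Fm.freeForC_iff] at h6 h7
        have e6 : Γ = Γ' := codeList_injective (h4.trans h5.symm)
        subst e6
        have e7 := Fm.code_injective h9
        subst e7
        exact ⟨Γ, _, h4.symm, h10, .eqE y s t h6 h7 h3 h3'⟩
  · obtain ⟨p1, p2⟩ := p
    rintro ⟨Γ, φ, h1, h2, h⟩
    simp only at h1 h2
    subst h1 h2
    induction h with
    | hyp h => exact .base (Or.inl ⟨_, _, rfl, rfl, h⟩)
    | impI _ ih => exact .step ih ih (Or.inl ⟨_, rfl, rfl⟩)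
    | impE _ _ ih1 ih2 => exact .step ih1 ih2 (Or.inr (Or.inl ⟨rfl, rfl, rfl⟩))
    | botC _ ih => exact .step ih ih (Or.inr (Or.inr (Or.inl ⟨rfl, rfl⟩)))
    | allI x h _ ih =>
      refine .step ih ih (Or.inr (Or.inr (Or.inr (Or.inl ⟨rfl, x, rfl, ?_⟩))))
      rintro _ ⟨Δ, ψ, h1, rfl, h2⟩ ⟨χ, h3, h4⟩
      rw [← Fm.code_injective h3] at h4
      rw [← codeList_injective h1] at h2
      exact h ψ h2 h4
    | allE x r h _ ih =>
      refine .step ih ih (Or.inr (Or.inr (Or.inr (Or.inr (Or.inl ⟨rfl, x, _, _, ⟨r, rfl⟩, rfl,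
        ⟨_, rfl, (Fm.freeForC_iff _ _ _).2 h⟩, ⟨_, rfl, (Fm.subC_eq _ _ _).symm⟩⟩)))))
    | allSI x h _ ih =>
      refine .step ih ih (Or.inr (Or.inr (Or.inr (Or.inr (Or.inr (Or.inl ⟨rfl, x, rfl, ?_⟩))))))
      rintro _ ⟨Δ, ψ, h1, rfl, h2⟩ ⟨χ, h3, h4⟩
      rw [← Fm.code_injective h3] at h4
      rw [← codeList_injective h1] at h2
      exact h ψ h2 h4
    | allSE X Y h _ ih =>
      exact .step ih ih (Or.inr (Or.inr (Or.inr (Or.inr (Or.inr (Or.inr (Or.inl ⟨rfl, X, Y, _, rfl,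
        ⟨_, rfl, h⟩, ⟨_, rfl, rfl⟩⟩)))))))
    | eqI t => exact .base (Or.inr ⟨⟨_, rfl⟩, _, ⟨t, rfl⟩, rfl⟩)
    | eqE x s t h1 h2 _ _ ih1 ih2 =>
      exact .step ih1 ih2 (Or.inr (Or.inr (Or.inr (Or.inr (Or.inr (Or.inr (Or.inr ⟨rfl, rfl, x, _,
        _, _, ⟨s, rfl⟩, ⟨t, rfl⟩, ⟨_, rfl, (Fm.freeForC_iff _ _ _).2 h1⟩,
        ⟨_, rfl, (Fm.freeForC_iff _ _ _).2 h2⟩, rfl, ⟨_, rfl, (Fm.subC_eq _ _ _).symm⟩,
        ⟨_, rfl, (Fm.subC_eq _ _ _).symm⟩⟩)))))))

theorem ah_prf (hf : Primrec f) (hg : Primrec g) :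
    AH S (fun _ a => ∃ Γ φ, f a = codeList Γ ∧ g a = φ.code ∧ Prf Γ φ) :=
  ((AH.lfp ah_P0 ah_P2).comp (f := fun a => (f a, g a)) (by fun_prop)).congr fun _ _ => lfp_prf _

end

end Pool.Agent.H9x.SO
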